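import Pool.Agent.Helper40.MR.Defs

/-!
Module DIST: `lam * chi` does not pretend to be `n ^ (i t)`.
-/

set_option autoImplicit false

open Finset MeasureTheory
open scoped BigOperators Nat

namespace Pool.Agent.Helper40.MR

theorem dist_norm_nit (n : ℕ) (t : ℝ) : ‖nit n t‖ = 1 := by
  unfold nit
  have h : -(((t * Real.log n : ℝ)) : ℂ) * Complex.I = ((-(t * Real.log n) : ℝ) : ℂ) * Complex.I := by
    push_cast; ring
  rw [h]
  exact Complex.norm_exp_ofReal_mul_I _

theorem dist_nit_sq (n : ℕ) (t : ℝ) : nit n t ^ 2 = nit n (2 * t) := by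
  unfold nit
  rw [← Complex.exp_nat_mul]
  congr 1
  push_cast
  ring

theorem dist_nit_sub (n : ℕ) (t : ℝ) (hn : 1 ≤ n) : ‖nit n t - 1‖ ≤ |t| * Real.log n := by
  unfold nit
  have h : -(((t * Real.log n : ℝ)) : ℂ) * Complex.I = Complex.I * ((-(t * Real.log n) : ℝ) : ℂ) := by
    push_cast; ring
  rw [h]
  refine (Real.norm_exp_I_mul_ofReal_sub_one_le).trans ?_
  have hl : 0 ≤ Real.log n := Real.log_nonneg (by exact_mod_cast hn)
  rw [Real.norm_eq_abs, abs_neg, abs_mul, abs_of_nonneg hl]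

theorem dist_CM {q : ℕ} (ψ : DirichletCharacter ℂ q) : CM (fun n => ψ n) := by
  refine ⟨?_, ?_, ?_⟩
  · simp
  · intro m n
    simp only [Nat.cast_mul, map_mul]
  · intro n
    exact DirichletCharacter.norm_le_one ψ _

theorem dist_prime {x : ℝ} {p : ℕ} (hp : p ∈ PrL x) : p.Prime := (mem_filter.1 hp).2

theorem dist_le {x : ℝ} {p : ℕ} (hp : p ∈ PrL x) : (p : ℝ) ≤ x := by
  have h := (mem_Icc.1 (mem_filter.1 hp).1)
  exact (Nat.le_floor_iff' (by omega)).1 h.2

theorem dist_sub {x y : ℝ} (h : x ≤ y) : PrL x ⊆ PrL y := by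
  intro p hp
  rw [PrL, mem_filter, mem_Icc] at hp ⊢
  exact ⟨⟨hp.1.1, hp.1.2.trans (Nat.floor_mono h)⟩, hp.2⟩

theorem dist_lam {p : ℕ} (hp : p.Prime) : lam p = -1 := by
  unfold lam
  rw [if_neg hp.ne_zero, Nat.primeFactorsList_prime hp]
  simp

/-- `1 + Re z ≥ (1 - Re z²) / 4` in the unit disc -/
theorem dist_quad (z : ℂ) (hz : ‖z‖ ≤ 1) : (1 - (z ^ 2).re) / 4 ≤ 1 + z.re := by
  have h1 : z.re ^ 2 + z.im ^ 2 ≤ 1 := by
    have h2 := Complex.sq_norm z
    rw [Complex.normSq_apply] at h2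
    have h3 : ‖z‖ ^ 2 ≤ 1 := pow_le_one₀ (norm_nonneg _) hz
    nlinarith
  have h4 : (z ^ 2).re = z.re ^ 2 - z.im ^ 2 := by
    rw [pow_two, Complex.mul_re]; ring
  have h5 : -1 ≤ z.re := by nlinarith [sq_nonneg z.im, sq_nonneg (z.re - 1)]
  rw [h4]
  nlinarith [sq_nonneg z.im, sq_nonneg (z.re + 1)]

theorem dist_term {q : ℕ} (χ : DirichletCharacter ℂ q) {p : ℕ} (hp : p.Prime) (t : ℝ) :
    1 - (lch χ p * nit p t).re = 1 + (χ p * nit p t).re := by
  unfold lch
  rw [dist_lam hp]
  have : (-1 * χ p * nit p t : ℂ) = -(χ p * nit p t) := by ring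
  rw [this, Complex.neg_re]
  ring

/-- first case: the square of the character sum is small -/
theorem dist_case1 (hE : ST_EUL) (hS : ST_SIG) (hM : ST_MER) : ∃ C : ℝ, 0 < C ∧
    ∀ (q : ℕ) (χ : DirichletCharacter ℂ q) (N t k : ℝ), 3 ≤ N → 0 < k →
    ‖Gv (fun n => (χ ^ 2) n) (1 / Real.log N) (2 * t)‖ ≤ 3 / k * Real.log N →
    (Real.log (k / 3) - C) / 4 ≤ ∑ p ∈ PrL N, (1 - (lch χ p * nit p t).re) / p := by
  obtain ⟨C1, h1, hE⟩ := hE
  obtain ⟨C2, h2, hS⟩ := hS
  obtain ⟨C3, h3, hM⟩ := hM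
  refine ⟨C1 + C2 + C3, by positivity, ?_⟩
  intro q χ N t k hN hk hG
  have hlog1 : 1 < Real.log N := by
    rw [Real.lt_log_iff_exp_lt (by linarith)]
    have := Real.exp_one_lt_d9
    linarith
  have hlog : 0 < Real.log N := by linarith
  have hσ : 0 < 1 / Real.log N := by positivity
  have hσ1 : 1 / Real.log N ≤ 1 := by
    rw [div_le_one hlog]; linarith
  have hψ : CM (fun n => (χ ^ 2) n) := dist_CM (χ ^ 2)
  obtain ⟨hne, hEE⟩ := hE _ hψ (1 / Real.log N) (2 * t) hσ hσ1
  have hSS := hS (fun n => ((χ ^ 2) n * nit n (2 * t)).re) N (by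
    intro n
    refine (Complex.abs_re_le_norm _).trans ?_
    rw [norm_mul, dist_norm_nit, mul_one]
    exact hψ.2.2 n) hN
  have hMM := (hM N hN).1
  have hlogG : Real.log ‖Gv (fun n => (χ ^ 2) n) (1 / Real.log N) (2 * t)‖ ≤
      -Real.log (k / 3) + Real.log (Real.log N) := by
    have hpos : 0 < ‖Gv (fun n => (χ ^ 2) n) (1 / Real.log N) (2 * t)‖ := norm_pos_iff.2 hne
    calc Real.log ‖Gv (fun n => (χ ^ 2) n) (1 / Real.log N) (2 * t)‖
        ≤ Real.log (3 / k * Real.log N) := Real.log_le_log hpos hG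
      _ = -Real.log (k / 3) + Real.log (Real.log N) := by
        rw [Real.log_mul (by positivity) (by positivity), ← Real.log_inv, inv_div]
  have hsum : ∑ p ∈ PrL N, ((χ ^ 2) p * nit p (2 * t)).re / p ≤
      -Real.log (k / 3) + Real.log (Real.log N) + C1 + C2 := by
    have e1 := abs_le.1 hEE
    have e2 := abs_le.1 hSS
    have e3 : ∑' p : Nat.Primes, ((χ ^ 2) (p : ℕ) * nit p (2 * t)).re * (p : ℝ) ^ (-(1 + 1 / Real.log N))
        ≤ -Real.log (k / 3) + Real.log (Real.log N) + C1 := by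
      linarith [e1.1]
    linarith [e2.1]
  have hpt : ∀ p ∈ PrL N, (1 / (p : ℝ) - ((χ ^ 2) p * nit p (2 * t)).re / p) / 4 ≤
      (1 - (lch χ p * nit p t).re) / p := by
    intro p hp
    have hpp := dist_prime hp
    have hp0 : (0 : ℝ) < p := by exact_mod_cast hpp.pos
    rw [dist_term χ hpp t]
    have hz : ‖χ p * nit p t‖ ≤ 1 := by
      rw [norm_mul, dist_norm_nit, mul_one]
      exact DirichletCharacter.norm_le_one χ _
    have hq := dist_quad _ hz
    have hsq : (χ p * nit p t) ^ 2 = (χ ^ 2) p * nit p (2 * t) := by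
      rw [mul_pow, dist_nit_sq, MulChar.pow_apply' χ (by norm_num)]
    rw [hsq] at hq
    have : (1 / (p : ℝ) - ((χ ^ 2) p * nit p (2 * t)).re / p) / 4 =
        ((1 - ((χ ^ 2) p * nit p (2 * t)).re) / 4) / p := by ring
    rw [this]
    exact div_le_div_of_nonneg_right hq hp0.le
  calc (Real.log (k / 3) - (C1 + C2 + C3)) / 4
      ≤ (∑ p ∈ PrL N, 1 / (p : ℝ) - ∑ p ∈ PrL N, ((χ ^ 2) p * nit p (2 * t)).re / p) / 4 := by
        have := (abs_le.1 hMM).1
        linarith
    _ = ∑ p ∈ PrL N, (1 / (p : ℝ) - ((χ ^ 2) p * nit p (2 * t)).re / p) / 4 := by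
        rw [← Finset.sum_sub_distrib, Finset.sum_div]
    _ ≤ _ := Finset.sum_le_sum hpt

/-- second case: real characters, small `t` -/
theorem dist_case2 (hM : ST_MER) (hL : ST_L1) (q : ℕ) (χ : DirichletCharacter ℂ q) (hq : 1 ≤ q) :
    ∃ C : ℝ, 0 < C ∧ ∀ N t z : ℝ, 3 ≤ z → z ≤ N →
    Real.log (Real.log z) - C - |t| * (Real.log z + C) ≤
      ∑ p ∈ PrL N, (1 - (lch χ p * nit p t).re) / p := by
  obtain ⟨C3, h3, hM⟩ := hM
  have hchar : ∃ C4 : ℝ, ∀ x : ℝ, 3 ≤ x → -C4 ≤ ∑ p ∈ PrL x, (χ p).re / (p : ℝ) := by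
    by_cases h : χ = 1
    · refine ⟨0, ?_⟩
      intro x _
      rw [neg_zero]
      apply Finset.sum_nonneg
      intro p _
      apply div_nonneg _ (Nat.cast_nonneg _)
      rw [h]
      by_cases hu : IsUnit ((p : ZMod q))
      · rw [MulChar.one_apply hu]; simp
      · rw [MulChar.map_nonunit _ hu]; simp
    · exact hL q χ hq h
  obtain ⟨C4, h4⟩ := hchar
  refine ⟨C3 + |C4|, by positivity, ?_⟩
  intro N t z hz hzN
  have hMM := hM z hz
  have h4z := h4 z hz
  have hC4 : -|C4| ≤ ∑ p ∈ PrL z, (χ p).re / (p : ℝ) := by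
    have := le_abs_self C4
    linarith
  have hnn : ∀ p ∈ PrL N, 0 ≤ (1 - (lch χ p * nit p t).re) / (p : ℝ) := by
    intro p hp
    rw [dist_term χ (dist_prime hp) t]
    apply div_nonneg _ (Nat.cast_nonneg _)
    have hzz : ‖χ p * nit p t‖ ≤ 1 := by
      rw [norm_mul, dist_norm_nit, mul_one]
      exact DirichletCharacter.norm_le_one χ _
    have := abs_le.1 ((Complex.abs_re_le_norm (χ p * nit p t)).trans hzz)
    linarith [this.1]
  have hpt : ∀ p ∈ PrL z, 1 / (p : ℝ) + (χ p).re / p - |t| * (Real.log p / p) ≤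
      (1 - (lch χ p * nit p t).re) / p := by
    intro p hp
    have hpp := dist_prime hp
    have hp0 : (0 : ℝ) < p := by exact_mod_cast hpp.pos
    rw [dist_term χ hpp t]
    have h5 : ‖χ p * nit p t - χ p‖ ≤ |t| * Real.log p := by
      have : χ p * nit p t - χ p = χ p * (nit p t - 1) := by ring
      rw [this, norm_mul]
      calc ‖χ p‖ * ‖nit p t - 1‖ ≤ 1 * ‖nit p t - 1‖ :=
            mul_le_mul_of_nonneg_right (DirichletCharacter.norm_le_one χ _) (norm_nonneg _)
        _ ≤ |t| * Real.log p := by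
            rw [one_mul]; exact dist_nit_sub p t hpp.one_lt.le
    have h6 := abs_le.1 ((Complex.abs_re_le_norm (χ p * nit p t - χ p)).trans h5)
    rw [Complex.sub_re] at h6
    have h7 : 1 / (p : ℝ) + (χ p).re / p - |t| * (Real.log p / p) =
        (1 + (χ p).re - |t| * Real.log p) / p := by ring
    rw [h7]
    apply div_le_div_of_nonneg_right _ hp0.le
    linarith [h6.1]
  calc Real.log (Real.log z) - (C3 + |C4|) - |t| * (Real.log z + (C3 + |C4|))
      ≤ ∑ p ∈ PrL z, 1 / (p : ℝ) + ∑ p ∈ PrL z, (χ p).re / (p : ℝ) -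
          |t| * ∑ p ∈ PrL z, Real.log p / p := by
        have e1 := (abs_le.1 hMM.1).1
        have e2 : |t| * ∑ p ∈ PrL z, Real.log p / p ≤ |t| * (Real.log z + (C3 + |C4|)) := by
          apply mul_le_mul_of_nonneg_left _ (abs_nonneg _)
          have := hMM.2
          have := abs_nonneg C4
          linarith
        linarith
    _ = ∑ p ∈ PrL z, (1 / (p : ℝ) + (χ p).re / p - |t| * (Real.log p / p)) := by
        rw [Finset.mul_sum, ← Finset.sum_add_distrib, ← Finset.sum_sub_distrib]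
    _ ≤ ∑ p ∈ PrL z, (1 - (lch χ p * nit p t).re) / p := Finset.sum_le_sum hpt
    _ ≤ _ := Finset.sum_le_sum_of_subset_of_nonneg (dist_sub hzN) (fun p hp _ => hnn p hp)

theorem st_DIST (hE : ST_EUL) (hS : ST_SIG) (hM : ST_MER) (hB : ST_LB) (hL : ST_L1) : ST_DIST := by
  intro q χ A B hq hA
  obtain ⟨C, hC, h1⟩ := dist_case1 hE hS hM
  obtain ⟨C', hC', h2⟩ := dist_case2 hM hL q χ hq
  set k : ℝ := 3 * Real.exp (4 * |B| + C) with hk
  have hk1 : 1 ≤ k := by
    have := Real.one_le_exp (show 0 ≤ 4 * |B| + C by positivity)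
    rw [hk]; linarith
  have hk0 : 0 < k := by linarith
  have hlogk : (Real.log (k / 3) - C) / 4 = |B| := by
    rw [hk, mul_div_cancel_left₀ _ (by norm_num), Real.log_exp]; ring
  obtain ⟨N1, hN1⟩ := hB q (χ ^ 2) (A + 1) k hq (by linarith) hk1
  -- size of N for the second case
  set c2 : ℝ := |B| + C' + (1 / 2 + k * C' / 2) with hc2
  set N2 : ℝ := Real.exp (k ^ 2 * (2 + Real.exp c2)) with hN2
  refine ⟨max (max N1 3) N2, ?_⟩
  intro N t hN ht
  have hNN1 : N1 ≤ N := (le_max_left _ _).trans ((le_max_left _ _).trans hN)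
  have hN3 : 3 ≤ N := (le_max_right _ _).trans ((le_max_left _ _).trans hN)
  have hNN2 : N2 ≤ N := (le_max_right _ _).trans hN
  have hlog1 : 1 < Real.log N := by
    rw [Real.lt_log_iff_exp_lt (by linarith)]
    have := Real.exp_one_lt_d9
    linarith
  have hlog : 0 < Real.log N := by linarith
  have hu : |2 * t| ≤ N ^ (A + 1) := by
    rw [abs_mul, abs_two, Real.rpow_add (by linarith), Real.rpow_one]
    have h0 : 0 ≤ N ^ A := Real.rpow_nonneg (by linarith) _
    nlinarith [abs_nonneg t]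
  by_cases hcase : χ ^ 2 ≠ 1 ∨ k / Real.log N ≤ |2 * t|
  · have hG : ‖Gv (fun n => (χ ^ 2) n) (1 / Real.log N) (2 * t)‖ ≤ 3 / k * Real.log N := by
      have hor : (2 * t ≠ 0 ∨ χ ^ 2 ≠ 1) := by
        rcases hcase with h | h
        · right; exact h
        · left
          intro h0
          rw [h0, abs_zero] at h
          have : 0 < k / Real.log N := by positivity
          linarith
      have hb := hN1 N (2 * t) hNN1 hor hu
      have hkl : 0 ≤ 1 / k * Real.log N := by positivity
      have hsp : 3 / k * Real.log N = 2 / k * Real.log N + 1 / k * Real.log N := by ring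
      rw [hsp]
      refine hb.trans ?_
      apply add_le_add le_rfl
      by_cases hψ : χ ^ 2 = 1
      · rw [if_pos hψ]
        rcases hcase with h | h
        · exact absurd hψ h
        · have hpos : 0 < k / Real.log N := by positivity
          calc 1 / |2 * t| ≤ 1 / (k / Real.log N) := one_div_le_one_div_of_le hpos h
            _ = 1 / k * Real.log N := by field_simp
      · rw [if_neg hψ]; exact hkl
    have h3 := h1 q χ N t k hN3 hk0 hG
    rw [hlogk] at h3
    exact (le_abs_self B).trans h3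
  · rw [not_or, not_le] at hcase
    obtain ⟨_, hsmall⟩ := hcase
    set z : ℝ := Real.exp (Real.log N / k ^ 2) with hz
    have hlogz : Real.log z = Real.log N / k ^ 2 := Real.log_exp _
    have hk2 : 1 ≤ k ^ 2 := one_le_pow₀ hk1
    have hzN : z ≤ N := by
      calc z ≤ Real.exp (Real.log N) := by
            rw [hz, Real.exp_le_exp]
            exact div_le_self hlog.le hk2
        _ = N := Real.exp_log (by linarith)
    have hlN : k ^ 2 * (2 + Real.exp c2) ≤ Real.log N := by
      rw [Real.le_log_iff_exp_le (by linarith)]; exact hNN2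
    have hlz : 2 + Real.exp c2 ≤ Real.log z := by
      rw [hlogz, le_div_iff₀ (by positivity)]
      linarith
    have hz3 : 3 ≤ z := by
      have h5 : 2 ≤ Real.log z := by
        have := Real.exp_pos c2
        linarith
      have h6 : Real.exp 2 ≤ z := by
        rw [← Real.exp_log (show 0 < z from Real.exp_pos _)]
        exact Real.exp_le_exp.2 h5
      have h7 : (2 : ℝ) + 1 ≤ Real.exp 2 := Real.add_one_le_exp 2
      linarith
    have h5 := h2 N t z hz3 hzN
    have hllz : c2 ≤ Real.log (Real.log z) := by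
      rw [Real.le_log_iff_exp_le (by
        have := Real.exp_pos c2
        linarith)]
      linarith
    have ht2 : |t| ≤ k / (2 * Real.log N) := by
      rw [abs_mul, abs_two] at hsmall
      have : k / (2 * Real.log N) = (k / Real.log N) / 2 := by field_simp
      rw [this]; linarith
    have ht3 : |t| * (Real.log z + C') ≤ 1 / 2 + k * C' / 2 := by
      have hpos : 0 ≤ Real.log z + C' := by
        have := Real.exp_pos c2
        linarith
      calc |t| * (Real.log z + C') ≤ k / (2 * Real.log N) * (Real.log z + C') :=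
            mul_le_mul_of_nonneg_right ht2 hpos
        _ = 1 / (2 * k) + k * C' / (2 * Real.log N) := by
            rw [hlogz]; field_simp
        _ ≤ 1 / 2 + k * C' / 2 := by
            have e1 : 1 / (2 * k) ≤ 1 / 2 := by
              apply one_div_le_one_div_of_le (by norm_num); linarith
            have e2 : k * C' / (2 * Real.log N) ≤ k * C' / 2 := by
              apply div_le_div_of_nonneg_left (by positivity) (by norm_num); linarith
            linarith
    have : |B| ≤ Real.log (Real.log z) - C' - |t| * (Real.log z + C') := by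
      rw [hc2] at hllz
      linarith
    exact (le_abs_self B).trans (this.trans h5)

end Pool.Agent.Helper40.MR
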