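import Pool.Agent.Helper40.MR.Defs

/-!
Module MOM: moments of short prime polynomials times a long polynomial.
-/

set_option autoImplicit false

open Finset MeasureTheory
open scoped BigOperators Nat

namespace Pool.Agent.Helper40.MR

/-- number of the primes of `P` dividing `n` -/
def mom_om (P : Finset ℕ) (n : ℕ) : ℕ := (P.filter (fun p => p ∣ n)).card

theorem mom_nit_mul {m n : ℕ} (hm : m ≠ 0) (hn : n ≠ 0) (t : ℝ) :
    nit (m * n) t = nit m t * nit n t := by
  unfold nit
  rw [← Complex.exp_add]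
  congr 1
  rw [Nat.cast_mul, Real.log_mul (by exact_mod_cast hm) (by exact_mod_cast hn)]
  push_cast
  ring

theorem mom_om_le (P : Finset ℕ) {m n : ℕ} (h : m ∣ n) : mom_om P m ≤ mom_om P n := by
  apply Finset.card_le_card
  intro p hp
  rw [Finset.mem_filter] at hp ⊢
  exact ⟨hp.1, hp.2.trans h⟩

/-- the product as a Dirichlet polynomial -/
theorem mom_prod (P : Finset ℕ) (Y M : ℝ) (f b : ℕ → ℂ) (hY : 1 ≤ Y) (hM : 0 < M)
    (hP : ∀ p ∈ P, p.Prime ∧ Y < p ∧ (p : ℝ) ≤ Real.exp 1 * Y) (hf : ∀ n, ‖f n‖ ≤ 1)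
    (hb : ∀ n, ‖b n‖ ≤ 1) (l : ℕ) :
    ∃ c : ℕ → ℂ, (∀ n, ‖c n‖ ≤ (mom_om P n : ℝ) ^ l) ∧
      (∀ n, c n ≠ 0 → Y ^ l * M < n ∧ (n : ℝ) ≤ (Real.exp 1 * Y) ^ l * (2 * M)) ∧
      ∀ N : ℕ, (Real.exp 1 * Y) ^ l * (2 * M) < N + 1 → ∀ t : ℝ,
        DP P f t ^ l * DP (IocN M (2 * M)) b t = ∑ n ∈ Icc 1 N, c n / n * nit n t := by
  have he : 1 ≤ Real.exp 1 * Y := by
    have := Real.one_le_exp (show (0 : ℝ) ≤ 1 by norm_num)
    nlinarith
  induction l with
  | zero =>
    refine ⟨fun n => if n ∈ IocN M (2 * M) then b n else 0, ?_, ?_, ?_⟩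
    · intro n
      rw [pow_zero]
      beta_reduce
      split_ifs
      · exact hb n
      · simp
    · intro n hn
      have h1 : n ∈ IocN M (2 * M) := by
        by_contra h
        exact hn (if_neg h)
      rw [IocN, Finset.mem_Ioc] at h1
      rw [pow_zero, pow_zero, one_mul, one_mul]
      refine ⟨(Nat.floor_lt hM.le).1 h1.1, ?_⟩
      exact (Nat.le_floor_iff (by positivity)).1 h1.2
    · intro N hN t
      rw [pow_zero, one_mul] at hN ⊢
      unfold DP
      have hsub : IocN M (2 * M) ⊆ Icc 1 N := by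
        intro n hn
        rw [IocN, Finset.mem_Ioc] at hn
        rw [Finset.mem_Icc]
        refine ⟨by omega, ?_⟩
        have h2 : (n : ℝ) ≤ 2 * M := (Nat.le_floor_iff (by positivity)).1 hn.2
        have h3 : (n : ℝ) < N + 1 := lt_of_le_of_lt h2 hN
        have h4 : n < N + 1 := by exact_mod_cast h3
        omega
      rw [← Finset.sum_subset hsub]
      · apply Finset.sum_congr rfl
        intro n hn
        beta_reduce
        rw [if_pos hn]
      · intro n _ hn
        beta_reduce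
        rw [if_neg hn, zero_div, zero_mul]
  | succ l ih =>
    obtain ⟨c, hc1, hc2, hc3⟩ := ih
    refine ⟨fun n => ∑ p ∈ P.filter (fun p => p ∣ n), f p * c (n / p), ?_, ?_, ?_⟩
    · intro n
      refine (norm_sum_le _ _).trans ?_
      calc ∑ p ∈ P.filter (fun p => p ∣ n), ‖f p * c (n / p)‖
          ≤ ∑ _p ∈ P.filter (fun p => p ∣ n), (mom_om P n : ℝ) ^ l := by
            apply Finset.sum_le_sum
            intro p hp
            rw [Finset.mem_filter] at hp
            rw [norm_mul]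
            calc ‖f p‖ * ‖c (n / p)‖ ≤ 1 * (mom_om P (n / p) : ℝ) ^ l :=
                  mul_le_mul (hf p) (hc1 _) (norm_nonneg _) zero_le_one
              _ ≤ (mom_om P n : ℝ) ^ l := by
                  rw [one_mul]
                  apply pow_le_pow_left₀ (Nat.cast_nonneg _)
                  exact_mod_cast mom_om_le P (Nat.div_dvd_of_dvd hp.2)
        _ = (mom_om P n : ℝ) ^ (l + 1) := by
            rw [Finset.sum_const, nsmul_eq_mul, pow_succ, mul_comm]
            rfl
    · intro n hn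
      obtain ⟨p, hp, hpn⟩ := Finset.exists_ne_zero_of_sum_ne_zero hn
      rw [Finset.mem_filter] at hp
      obtain ⟨hpP, hpd⟩ := hp
      obtain ⟨hpp, hpY, hpe⟩ := hP p hpP
      have hcne : c (n / p) ≠ 0 := fun h => hpn (by rw [h, mul_zero])
      obtain ⟨h1, h2⟩ := hc2 _ hcne
      obtain ⟨m, rfl⟩ := hpd
      rw [Nat.mul_div_cancel_left _ hpp.pos] at h1 h2
      push_cast
      have hYl : 0 < Y ^ l * M := by positivity
      constructor
      · rw [pow_succ]
        have : Y ^ l * Y * M = Y * (Y ^ l * M) := by ring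
        rw [this]
        exact mul_lt_mul'' hpY h1 (by linarith) hYl.le
      · rw [pow_succ]
        have : (Real.exp 1 * Y) ^ l * (Real.exp 1 * Y) * (2 * M) =
          (Real.exp 1 * Y) * ((Real.exp 1 * Y) ^ l * (2 * M)) := by ring
        rw [this]
        exact mul_le_mul hpe h2 (Nat.cast_nonneg _) (by linarith)
    · intro N hN t
      have hN' : (Real.exp 1 * Y) ^ l * (2 * M) < N + 1 := by
        refine lt_of_le_of_lt ?_ hN
        apply mul_le_mul_of_nonneg_right _ (by positivity)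
        exact pow_le_pow_right₀ he (Nat.le_succ l)
      rw [pow_succ, mul_assoc, mul_comm (DP P f t) _, ← mul_assoc, hc3 N hN' t]
      unfold DP
      rw [Finset.mul_sum]
      have hp : ∀ p ∈ P, (∑ n ∈ Icc 1 N, c n / n * nit n t) * (f p / p * nit p t) =
          ∑ n ∈ Icc 1 N, if p ∣ n then f p * c (n / p) / n * nit n t else 0 := by
        intro p hpP
        obtain ⟨hpp, hpY, hpe⟩ := hP p hpP
        rw [Finset.sum_mul]
        apply Finset.sum_bij_ne_zero (fun m _ _ => p * m)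
        · intro m hm hne
          have hcne : c m ≠ 0 := by
            intro h
            apply hne
            rw [h]; simp
          rw [Finset.mem_Icc] at hm ⊢
          refine ⟨Nat.mul_pos hpp.pos hm.1, ?_⟩
          have h2 := (hc2 m hcne).2
          have h3 : ((p * m : ℕ) : ℝ) < N + 1 := by
            push_cast
            refine lt_of_le_of_lt ?_ hN
            rw [pow_succ]
            have : (Real.exp 1 * Y) ^ l * (Real.exp 1 * Y) * (2 * M) =
              (Real.exp 1 * Y) * ((Real.exp 1 * Y) ^ l * (2 * M)) := by ring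
            rw [this]
            exact mul_le_mul hpe h2 (Nat.cast_nonneg _) (by linarith)
          have h4 : p * m < N + 1 := by exact_mod_cast h3
          omega
        · intro m _ _ m' _ _ h
          exact Nat.eq_of_mul_eq_mul_left hpp.pos h
        · intro n hn hne
          have hd : p ∣ n := by
            by_contra h
            exact hne (if_neg h)
          rw [if_pos hd] at hne
          obtain ⟨m, rfl⟩ := hd
          rw [Finset.mem_Icc] at hn
          have hm1 : 1 ≤ m := by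
            rcases Nat.eq_zero_or_pos m with h | h
            · rw [h] at hn; omega
            · exact h
          refine ⟨m, ?_, ?_, rfl⟩
          · rw [Finset.mem_Icc]
            exact ⟨hm1, (Nat.le_mul_of_pos_left m hpp.pos).trans hn.2⟩
          · intro h0
            apply hne
            rw [Nat.mul_div_cancel_left _ hpp.pos]
            have hp0 : (p : ℂ) ≠ 0 := by exact_mod_cast hpp.ne_zero
            have hm0 : (m : ℂ) ≠ 0 := by exact_mod_cast (by omega : m ≠ 0)
            rw [mom_nit_mul hpp.ne_zero (by omega)]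
            push_cast
            have : f p * c m / (p * m) * (nit p t * nit m t) =
              c m / m * nit m t * (f p / p * nit p t) := by
              field_simp
            rw [this, h0]
        · intro m hm hne
          rw [Finset.mem_Icc] at hm
          rw [if_pos (Nat.dvd_mul_right p m), Nat.mul_div_cancel_left _ hpp.pos,
            mom_nit_mul hpp.ne_zero (by omega)]
          have hp0 : (p : ℂ) ≠ 0 := by exact_mod_cast hpp.ne_zero
          have hm0 : (m : ℂ) ≠ 0 := by exact_mod_cast (by omega : m ≠ 0)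
          push_cast
          field_simp
      rw [Finset.sum_congr rfl hp, Finset.sum_comm]
      apply Finset.sum_congr rfl
      intro n _
      rw [Finset.sum_div, Finset.sum_mul, Finset.sum_filter]

/-- mean value of `exp (omega)` -/
theorem mom_exp (P : Finset ℕ) (hP : ∀ p ∈ P, p.Prime) (N : ℕ) :
    ∑ n ∈ Icc 1 N, Real.exp (mom_om P n) ≤
      N * Real.exp ((Real.exp 1 - 1) * ∑ p ∈ P, 1 / (p : ℝ)) := by
  have he : 0 ≤ Real.exp 1 - 1 := by
    have := Real.one_le_exp (show (0 : ℝ) ≤ 1 by norm_num)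
    linarith
  have h1 : ∀ n ∈ Icc 1 N, Real.exp (mom_om P n) =
      ∑ D ∈ P.powerset, if (∏ p ∈ D, p) ∣ n then ∏ _p ∈ D, (Real.exp 1 - 1) else 0 := by
    intro n _
    have h2 : Real.exp (mom_om P n) = ∏ _p ∈ P.filter (fun p => p ∣ n), (1 + (Real.exp 1 - 1)) := by
      rw [Finset.prod_const]
      have : (1 + (Real.exp 1 - 1)) = Real.exp 1 := by ring
      rw [this, ← Real.exp_nat_mul, mul_one]
      rfl
    rw [h2, Finset.prod_one_add, ← Finset.sum_filter]
    apply Finset.sum_congr _ (fun _ _ => rfl)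
    ext D
    rw [Finset.mem_powerset, Finset.mem_filter, Finset.mem_powerset]
    constructor
    · intro h
      refine ⟨fun p hp => (Finset.mem_filter.1 (h hp)).1, ?_⟩
      exact Finset.prod_primes_dvd n (fun p hp => (hP p (Finset.mem_filter.1 (h hp)).1).prime)
        (fun p hp => (Finset.mem_filter.1 (h hp)).2)
    · rintro ⟨h3, h4⟩ p hp
      exact Finset.mem_filter.2 ⟨h3 hp, (Finset.dvd_prod_of_mem _ hp).trans h4⟩
  rw [Finset.sum_congr rfl h1, Finset.sum_comm]
  have h5 : ∀ D ∈ P.powerset, (∑ n ∈ Icc 1 N, if (∏ p ∈ D, p) ∣ n then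
      ∏ _p ∈ D, (Real.exp 1 - 1) else 0) ≤ N * ∏ p ∈ D, ((Real.exp 1 - 1) * (1 / (p : ℝ))) := by
    intro D hD
    rw [← Finset.sum_filter, Finset.sum_const, nsmul_eq_mul]
    have hDp : ∀ p ∈ D, p.Prime := fun p hp => hP p (Finset.mem_powerset.1 hD hp)
    have hd : 0 < ∏ p ∈ D, p := Finset.prod_pos (fun p hp => (hDp p hp).pos)
    have h6 : ((Icc 1 N).filter (fun n => (∏ p ∈ D, p) ∣ n)).card = N / ∏ p ∈ D, p :=
      Nat.Ioc_filter_dvd_card_eq_div N _
    rw [h6, Finset.prod_mul_distrib]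
    have h7 : ((N / ∏ p ∈ D, p : ℕ) : ℝ) ≤ N * ∏ p ∈ D, (1 / (p : ℝ)) := by
      have h8 : ((N / ∏ p ∈ D, p : ℕ) : ℝ) ≤ (N : ℝ) / ((∏ p ∈ D, p : ℕ) : ℝ) := Nat.cast_div_le
      refine h8.trans (le_of_eq ?_)
      rw [div_eq_mul_inv]
      congr 1
      push_cast
      rw [← Finset.prod_inv_distrib]
      apply Finset.prod_congr rfl
      intro p _
      rw [one_div]
    have h9 : 0 ≤ ∏ _p ∈ D, (Real.exp 1 - 1) := Finset.prod_nonneg (fun _ _ => he)
    calc ((N / ∏ p ∈ D, p : ℕ) : ℝ) * ∏ _p ∈ D, (Real.exp 1 - 1)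
        ≤ (N * ∏ p ∈ D, (1 / (p : ℝ))) * ∏ _p ∈ D, (Real.exp 1 - 1) :=
          mul_le_mul_of_nonneg_right h7 h9
      _ = N * ((∏ _p ∈ D, (Real.exp 1 - 1)) * ∏ p ∈ D, (1 / (p : ℝ))) := by ring
  refine (Finset.sum_le_sum h5).trans ?_
  rw [← Finset.mul_sum, ← Finset.prod_one_add]
  apply mul_le_mul_of_nonneg_left _ (Nat.cast_nonneg _)
  rw [Finset.mul_sum, Real.exp_sum]
  apply Finset.prod_le_prod
  · intro p _
    positivity
  · intro p _
    have := Real.add_one_le_exp ((Real.exp 1 - 1) * (1 / (p : ℝ)))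
    linarith

theorem mom_recip (P : Finset ℕ) (Y : ℝ) (hY : 1 ≤ Y)
    (hP : ∀ p ∈ P, p.Prime ∧ Y < p ∧ (p : ℝ) ≤ Real.exp 1 * Y) :
    ∑ p ∈ P, 1 / (p : ℝ) ≤ Real.exp 1 := by
  have hY0 : 0 < Y := by linarith
  have h1 : ∀ p ∈ P, 1 / (p : ℝ) ≤ 1 / Y := by
    intro p hp
    exact one_div_le_one_div_of_le hY0 (hP p hp).2.1.le
  have hsub : P ⊆ Ioc ⌊Y⌋₊ ⌊Real.exp 1 * Y⌋₊ := by
    intro p hp
    obtain ⟨_, h2, h3⟩ := hP p hp
    rw [Finset.mem_Ioc]
    exact ⟨(Nat.floor_lt hY0.le).2 h2, Nat.le_floor h3⟩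
  have hcard : (P.card : ℝ) ≤ Real.exp 1 * Y - Y + 1 := by
    have h4 := Finset.card_le_card hsub
    rw [Nat.card_Ioc] at h4
    have h5 : (⌊Real.exp 1 * Y⌋₊ : ℝ) ≤ Real.exp 1 * Y := Nat.floor_le (by positivity)
    have h6 : Y < ⌊Y⌋₊ + 1 := Nat.lt_floor_add_one Y
    have h7 : ⌊Y⌋₊ ≤ ⌊Real.exp 1 * Y⌋₊ := by
      apply Nat.floor_mono
      have := Real.one_le_exp (show (0 : ℝ) ≤ 1 by norm_num)
      nlinarith
    have h8 : (P.card : ℝ) ≤ (⌊Real.exp 1 * Y⌋₊ : ℝ) - ⌊Y⌋₊ := by
      rw [← Nat.cast_sub h7]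
      exact_mod_cast h4
    linarith
  calc ∑ p ∈ P, 1 / (p : ℝ) ≤ ∑ _p ∈ P, 1 / Y := Finset.sum_le_sum h1
    _ = P.card / Y := by rw [Finset.sum_const, nsmul_eq_mul]; ring
    _ ≤ (Real.exp 1 * Y - Y + 1) / Y := by gcongr
    _ ≤ Real.exp 1 := by
        rw [div_le_iff₀ hY0]
        linarith

theorem st_MOM (hMV : ST_MV) : ST_MOM := by
  obtain ⟨C, hC, hMV⟩ := hMV
  set K : ℝ := Real.exp ((Real.exp 1 - 1) * Real.exp 1) with hK
  have hK0 : 0 < K := Real.exp_pos _
  refine ⟨4 * C * K, by positivity, ?_⟩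
  intro P Y M T l f b hY hM hT hP hf hb
  obtain ⟨c, hc1, hc2, hc3⟩ := mom_prod P Y M f b hY hM hP hf hb l
  have he1 : 1 ≤ Real.exp 1 := Real.one_le_exp (by norm_num)
  set N0 : ℝ := Y ^ l * M with hN0
  have hN0pos : 0 < N0 := by positivity
  set Z : ℝ := (Real.exp 1 * Y) ^ l * (2 * M) with hZ
  have hZ0 : 0 ≤ Z := by positivity
  have hZeq : Z = 2 * Real.exp l * N0 := by
    rw [hZ, hN0, mul_pow, ← Real.exp_nat_mul, mul_one]; ring
  set N : ℕ := ⌊Z⌋₊ with hN
  have hNZ : (N : ℝ) ≤ Z := Nat.floor_le hZ0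
  have hNZ1 : Z < N + 1 := Nat.lt_floor_add_one Z
  have hint : ∀ t : ℝ, ‖DP P f t‖ ^ (2 * l) * ‖DP (IocN M (2 * M)) b t‖ ^ 2 =
      ‖∑ n ∈ Icc 1 N, (c n / n) * nit n t‖ ^ 2 := by
    intro t
    rw [← hc3 N hNZ1 t, norm_mul, mul_pow, norm_pow, ← pow_mul, mul_comm l 2]
  have hint' : ∫ t in (-T)..T, ‖DP P f t‖ ^ (2 * l) * ‖DP (IocN M (2 * M)) b t‖ ^ 2 =
      ∫ t in (-T)..T, ‖∑ n ∈ Icc 1 N, (c n / n) * nit n t‖ ^ 2 := by
    congr 1
    funext t
    exact hint t
  rw [hint']
  refine (hMV N T (fun n => c n / n) hT).trans ?_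
  have hexp : ∑ n ∈ Icc 1 N, Real.exp (mom_om P n) ≤ N * K := by
    refine (mom_exp P (fun p hp => (hP p hp).1) N).trans ?_
    apply mul_le_mul_of_nonneg_left _ (Nat.cast_nonneg _)
    apply Real.exp_le_exp.2
    apply mul_le_mul_of_nonneg_left (mom_recip P Y hY hP)
    linarith
  have hsum : ∑ n ∈ Icc 1 N, ‖c n / n‖ ^ 2 ≤ ((2 * l)! : ℕ) / N0 ^ 2 * (N * K) := by
    calc ∑ n ∈ Icc 1 N, ‖c n / n‖ ^ 2
        ≤ ∑ n ∈ Icc 1 N, ((2 * l)! : ℕ) / N0 ^ 2 * Real.exp (mom_om P n) := by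
          apply Finset.sum_le_sum
          intro n hn
          by_cases h0 : c n = 0
          · rw [h0, zero_div, norm_zero, zero_pow two_ne_zero]
            positivity
          · have h1 := (hc2 n h0).1
            have hn0 : (0 : ℝ) < n := lt_trans hN0pos h1
            rw [norm_div, div_pow, Complex.norm_natCast]
            have h2 : ‖c n‖ ^ 2 ≤ ((2 * l)! : ℕ) * Real.exp (mom_om P n) := by
              calc ‖c n‖ ^ 2 ≤ ((mom_om P n : ℝ) ^ l) ^ 2 :=
                    pow_le_pow_left₀ (norm_nonneg _) (hc1 n) 2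
                _ = (mom_om P n : ℝ) ^ (2 * l) := by rw [← pow_mul, mul_comm l 2]
                _ ≤ ((2 * l)! : ℕ) * Real.exp (mom_om P n) := by
                    have h3 := Real.pow_div_factorial_le_exp (mom_om P n : ℝ) (Nat.cast_nonneg _) (2 * l)
                    rw [div_le_iff₀ (by positivity)] at h3
                    linarith
            have h4 : N0 ^ 2 ≤ (n : ℝ) ^ 2 := pow_le_pow_left₀ hN0pos.le h1.le 2
            calc ‖c n‖ ^ 2 / (n : ℝ) ^ 2 ≤ (((2 * l)! : ℕ) * Real.exp (mom_om P n)) / N0 ^ 2 := by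
                  apply div_le_div₀ (by positivity) h2 (by positivity) h4
              _ = _ := by ring
      _ = ((2 * l)! : ℕ) / N0 ^ 2 * ∑ n ∈ Icc 1 N, Real.exp (mom_om P n) := by
          rw [Finset.mul_sum]
      _ ≤ _ := by
          apply mul_le_mul_of_nonneg_left hexp
          positivity
  have hel : 1 ≤ Real.exp l := Real.one_le_exp (Nat.cast_nonneg _)
  have hT0 : 0 ≤ T := by linarith
  calc C * (T + N) * ∑ n ∈ Icc 1 N, ‖c n / n‖ ^ 2
      ≤ C * (T + N) * (((2 * l)! : ℕ) / N0 ^ 2 * (N * K)) := by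
        apply mul_le_mul_of_nonneg_left hsum
        positivity
    _ ≤ C * (T + Z) * (((2 * l)! : ℕ) / N0 ^ 2 * (Z * K)) := by
        gcongr
    _ = C * K * ((2 * l)! : ℕ) * (2 * Real.exp l) * (T / N0 + 2 * Real.exp l) := by
        rw [hZeq]
        field_simp
    _ ≤ C * K * ((2 * l)! : ℕ) * (2 * Real.exp l) * ((T / N0 + 1) * (2 * Real.exp l)) := by
        apply mul_le_mul_of_nonneg_left _ (by positivity)
        have : 0 ≤ T / N0 := by positivity
        nlinarith
    _ = 4 * C * K * (T / N0 + 1) * (Real.exp (2 * l) * ((2 * l)! : ℕ)) := by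
        have : Real.exp (2 * (l : ℝ)) = Real.exp l * Real.exp l := by
          rw [← Real.exp_add]; ring_nf
        rw [this]; ring

end Pool.Agent.Helper40.MR
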