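import Pool.Agent.Helper37.MR.Defs1

namespace Pool.Helper37.MR

open Real

/-- The space. -/
abbrev V := ℕ →₀ ℝ

/-- The automorphism `h` is `u ↦ u - B v u • v`. -/
def Rep (B : V →ₗ[ℝ] V →ₗ[ℝ] ℝ) (h : V ≃ₗ[ℝ] V) (v : V) : Prop :=
  ∀ u, h u = u - (B v u) • v

/-- The vector with parameter `s` in the plane of `v` and `w`, at angle `φ`. -/
noncomputable def L (φ : ℝ) (v w : V) (s : ℤ) : V :=
  (sin ((1 - s) * φ) / sin φ) • v + (sin (s * φ) / sin φ) • w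

theorem Rep.neg {B : V →ₗ[ℝ] V →ₗ[ℝ] ℝ} {h : V ≃ₗ[ℝ] V} {v : V} (H : Rep B h v) :
    Rep B h (-v) := by
  intro u
  rw [H u]
  simp

theorem Rep.eq {B : V →ₗ[ℝ] V →ₗ[ℝ] ℝ} {h h' : V ≃ₗ[ℝ] V} {v : V} (H : Rep B h v)
    (H' : Rep B h' v) : h = h' := by
  ext1 u
  rw [H u, H' u]

theorem Rep.inv {B : V →ₗ[ℝ] V →ₗ[ℝ] ℝ} {h : V ≃ₗ[ℝ] V} {v : V} (H : Rep B h v)
    (hv : B v v = 2) : h * h = 1 := by
  ext1 u
  have h1 : (h * h) u = h (h u) := rfl
  rw [h1, H (h u), H u]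
  simp only [map_sub, map_smul, smul_eq_mul, hv, LinearEquiv.coe_one, id_eq]
  module

theorem Rep.conj {B : V →ₗ[ℝ] V →ₗ[ℝ] ℝ} (hB : ∀ u v, B u v = B v u)
    {a b : V ≃ₗ[ℝ] V} {v w : V} (Ha : Rep B a v) (Hb : Rep B b w) (hv : B v v = 2) :
    Rep B (a * b * a⁻¹) (w - (B v w) • v) := by
  have hinv : a⁻¹ = a := by
    have := Ha.inv hv
    exact inv_eq_of_mul_eq_one_left this
  intro u
  have h1 : (a * b * a⁻¹) u = a (b (a u)) := by rw [hinv]; rfl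
  have h2 : a (a u) = u := by
    have := Ha.inv hv
    have h3 : (a * a) u = a (a u) := rfl
    rw [← h3, this]; rfl
  rw [h1, Hb (a u), map_sub, map_smul, h2, Ha w]
  have h3 : B w (a u) = B (w - (B v w) • v) u := by
    rw [Ha u]
    simp only [map_sub, map_smul, smul_eq_mul, LinearMap.sub_apply, LinearMap.smul_apply]
    rw [hB w v]
    ring
  rw [h3]

theorem L_rec (φ : ℝ) (v w : V) (s t : ℤ) :
    L φ v w t - (2 * cos ((s - t) * φ)) • L φ v w s = - L φ v w (2 * s - t) := by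
  have e1 : sin ((1 - (t : ℝ)) * φ) - 2 * cos ((s - t) * φ) * sin ((1 - (s : ℝ)) * φ) =
      - sin ((1 - (2 * (s : ℝ) - t)) * φ) := by
    have a1 : (1 - (t : ℝ)) * φ = (1 - s) * φ + (s - t) * φ := by ring
    have a2 : (1 - (2 * (s : ℝ) - t)) * φ = (1 - s) * φ - (s - t) * φ := by ring
    rw [a1, a2, sin_add, sin_sub]
    ring
  have e2 : sin ((t : ℝ) * φ) - 2 * cos ((s - t) * φ) * sin ((s : ℝ) * φ) =
      - sin ((2 * (s : ℝ) - t) * φ) := by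
    have a1 : (t : ℝ) * φ = s * φ - (s - t) * φ := by ring
    have a2 : (2 * (s : ℝ) - t) * φ = s * φ + (s - t) * φ := by ring
    rw [a1, a2, sin_add, sin_sub]
    ring
  unfold L
  push_cast
  have f1 : sin ((1 - (t : ℝ)) * φ) / sin φ - 2 * cos ((s - t) * φ) *
      (sin ((1 - (s : ℝ)) * φ) / sin φ) = - (sin ((1 - (2 * (s : ℝ) - t)) * φ) / sin φ) := by
    rw [← neg_div, ← e1]; ring
  have f2 : sin ((t : ℝ) * φ) / sin φ - 2 * cos ((s - t) * φ) *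
      (sin ((s : ℝ) * φ) / sin φ) = - (sin ((2 * (s : ℝ) - t) * φ) / sin φ) := by
    rw [← neg_div, ← e2]; ring
  calc _ = (sin ((1 - (t : ℝ)) * φ) / sin φ - 2 * cos ((s - t) * φ) *
      (sin ((1 - (s : ℝ)) * φ) / sin φ)) • v + (sin ((t : ℝ) * φ) / sin φ -
        2 * cos ((s - t) * φ) * (sin ((s : ℝ) * φ) / sin φ)) • w := by module
    _ = _ := by rw [f1, f2]; module

/-- The inner products in the plane. -/
theorem L_inner {B : V →ₗ[ℝ] V →ₗ[ℝ] ℝ} (hB : ∀ u v, B u v = B v u) (φ : ℝ) (hφ : sin φ ≠ 0)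
    (v w : V) (hv : B v v = 2) (hw : B w w = 2) (hvw : B v w = 2 * cos φ) (s t : ℤ) :
    B (L φ v w s) (L φ v w t) = 2 * cos ((s - t) * φ) := by
  unfold L
  simp only [map_add, map_smul, LinearMap.add_apply, LinearMap.smul_apply, smul_eq_mul]
  rw [hB w v, hv, hw, hvw]
  have a1 : (1 - (s : ℝ)) * φ = φ - s * φ := by ring
  have a2 : (1 - (t : ℝ)) * φ = φ - t * φ := by ring
  have a3 : ((s : ℝ) - t) * φ = s * φ - t * φ := by ring
  rw [a1, a2, a3, sin_sub, sin_sub, cos_sub]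
  have h2 := sin_sq_add_cos_sq φ
  generalize sin ((s : ℝ) * φ) = A at *
  generalize sin ((t : ℝ) * φ) = A' at *
  generalize cos ((s : ℝ) * φ) = C at *
  generalize cos ((t : ℝ) * φ) = C' at *
  generalize sin φ = S at *
  generalize cos φ = K at *
  have key : (S * C - K * A) * (S * C' - K * A') + K * (S * C - K * A) * A' +
      K * A * (S * C' - K * A') + A * A' = S ^ 2 * (C * C' + A * A') := by
    linear_combination (-(A * A')) * h2
  field_simp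
  linear_combination key

/-- Shifting by the modulus changes the sign at most. -/
theorem L_mod (p : ℕ) (hp : 2 ≤ p) (v w : V) (s t : ℤ) (h : (p : ℤ) ∣ s - t) :
    L (π / p) v w s = L (π / p) v w t ∨ L (π / p) v w s = - L (π / p) v w t := by
  obtain ⟨c, hc⟩ := h
  have hp0 : (p : ℝ) ≠ 0 := by positivity
  have hs : (s : ℝ) = t + p * c := by
    have : s = t + p * c := by linarith
    rw [this]; push_cast; ring
  have e1 : (1 - (s : ℝ)) * (π / p) = (1 - t) * (π / p) - c * π := by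
    rw [hs]; field_simp; ring
  have e2 : (s : ℝ) * (π / p) = t * (π / p) + c * π := by
    rw [hs]; field_simp
  unfold L
  rw [e1, e2, sin_sub_int_mul_pi, sin_add_int_mul_pi]
  rcases Int.even_or_odd c with hc | hc
  · left
    rw [hc.neg_one_zpow]; simp
  · right
    rw [hc.neg_one_zpow]
    module

theorem sin_pi_div (p : ℕ) (hp : 2 ≤ p) : 0 < sin (π / p) := by
  have hp0 : (2 : ℝ) ≤ p := by exact_mod_cast hp
  apply sin_pos_of_pos_of_lt_pi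
  · have := pi_pos; positivity
  · rw [div_lt_iff₀ (by linarith)]
    have := pi_pos
    nlinarith

theorem L_zero (φ : ℝ) (hφ : sin φ ≠ 0) (v w : V) : L φ v w 0 = v := by
  unfold L; simp [hφ]

theorem L_one (φ : ℝ) (hφ : sin φ ≠ 0) (v w : V) : L φ v w 1 = w := by
  unfold L; simp [hφ]

/-- One half twist. -/
theorem tw_step {B : V →ₗ[ℝ] V →ₗ[ℝ] ℝ} (hB : ∀ u v, B u v = B v u) (φ : ℝ)
    (hφ : sin φ ≠ 0) (v w : V) (hv : B v v = 2) (hw : B w w = 2) (hvw : B v w = 2 * cos φ)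
    (s t : ℤ) (a b : V ≃ₗ[ℝ] V) (Ha : Rep B a (L φ v w s)) (Hb : Rep B b (L φ v w t)) :
    Rep B (a * b * a⁻¹) (L φ v w (2 * s - t)) := by
  have h1 : B (L φ v w s) (L φ v w s) = 2 := by
    rw [L_inner hB φ hφ v w hv hw hvw]; simp
  have h2 := Rep.conj hB Ha Hb h1
  rw [L_inner hB φ hφ v w hv hw hvw, L_rec φ] at h2
  have h3 := h2.neg
  rwa [neg_neg] at h3

/-- All powers of the half twist. -/
theorem tw_pow {B : V →ₗ[ℝ] V →ₗ[ℝ] ℝ} (hB : ∀ u v, B u v = B v u) (φ : ℝ)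
    (hφ : sin φ ≠ 0) (v w : V) (hv : B v v = 2) (hw : B w w = 2) (hvw : B v w = 2 * cos φ)
    (s t : ℤ) (a b : V ≃ₗ[ℝ] V) (Ha : Rep B a (L φ v w s)) (Hb : Rep B b (L φ v w t))
    (k : ℤ) :
    Rep B ((tw (V ≃ₗ[ℝ] V) ^ k) (a, b)).1 (L φ v w (s + k * (s - t))) ∧
      Rep B ((tw (V ≃ₗ[ℝ] V) ^ k) (a, b)).2 (L φ v w (t + k * (s - t))) := by
  have hn : ∀ s : ℤ, B (L φ v w s) (L φ v w s) = 2 := by
    intro s
    rw [L_inner hB φ hφ v w hv hw hvw]; simp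
  induction k using Int.induction_on with
  | zero => simpa using ⟨Ha, Hb⟩
  | succ i ih =>
    have e : (tw (V ≃ₗ[ℝ] V) ^ ((i : ℤ) + 1)) (a, b) =
        tw (V ≃ₗ[ℝ] V) ((tw (V ≃ₗ[ℝ] V) ^ (i : ℤ)) (a, b)) := by
      rw [add_comm, zpow_add, zpow_one]; rfl
    rw [e]
    generalize (tw (V ≃ₗ[ℝ] V) ^ (i : ℤ)) (a, b) = z at ih ⊢
    obtain ⟨h1, h2⟩ := ih
    refine ⟨?_, ?_⟩
    · have h3 := tw_step hB φ hφ v w hv hw hvw _ _ _ _ h1 h2
      have e2 : s + ((i : ℤ) + 1) * (s - t) = 2 * (s + i * (s - t)) - (t + i * (s - t)) := by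
        ring
      rw [e2]; exact h3
    · have e2 : t + ((i : ℤ) + 1) * (s - t) = s + i * (s - t) := by ring
      rw [e2]; exact h1
  | pred i ih =>
    have e : (tw (V ≃ₗ[ℝ] V) ^ (-(i : ℤ) - 1)) (a, b) =
        (tw (V ≃ₗ[ℝ] V)).symm ((tw (V ≃ₗ[ℝ] V) ^ (-(i : ℤ))) (a, b)) := by
      have : -(i : ℤ) - 1 = -1 + -(i : ℤ) := by ring
      rw [this, zpow_add, zpow_neg_one]; rfl
    rw [e]
    generalize (tw (V ≃ₗ[ℝ] V) ^ (-(i : ℤ))) (a, b) = z at ih ⊢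
    obtain ⟨h1, h2⟩ := ih
    refine ⟨?_, ?_⟩
    · have e2 : s + (-(i : ℤ) - 1) * (s - t) = t + -(i : ℤ) * (s - t) := by ring
      rw [e2]; exact h2
    · have hinv : z.2⁻¹ = z.2 := inv_eq_of_mul_eq_one_left (h2.inv (hn _))
      have h3 := tw_step hB φ hφ v w hv hw hvw _ _ _ _ h2 h1
      have e2 : t + (-(i : ℤ) - 1) * (s - t) = 2 * (t + -(i : ℤ) * (s - t)) -
          (s + -(i : ℤ) * (s - t)) := by ring
      rw [e2]
      have e3 : ((tw (V ≃ₗ[ℝ] V)).symm z).2 = z.2 * z.1 * z.2⁻¹ := by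
        change z.2⁻¹ * z.1 * z.2 = _
        rw [hinv]
      rw [e3]; exact h3

/-- A syllable whose order divides the exponent acts trivially. -/
theorem tw_trivial {B : V →ₗ[ℝ] V →ₗ[ℝ] ℝ} (hB : ∀ u v, B u v = B v u) (m : ℕ) (hm : 2 ≤ m)
    (v w : V) (hv : B v v = 2) (hw : B w w = 2) (hvw : B v w = 2 * cos (π / m))
    (a b : V ≃ₗ[ℝ] V) (Ha : Rep B a v) (Hb : Rep B b w) (k : ℤ) (hk : (m : ℤ) ∣ k) :
    (tw (V ≃ₗ[ℝ] V) ^ k) (a, b) = (a, b) := by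
  have hs : sin (π / m) ≠ 0 := (sin_pi_div m hm).ne'
  have Ha' : Rep B a (L (π / m) v w 0) := by rwa [L_zero _ hs]
  have Hb' : Rep B b (L (π / m) v w 1) := by rwa [L_one _ hs]
  obtain ⟨h1, h2⟩ := tw_pow hB (π / m) hs v w hv hw hvw 0 1 a b Ha' Hb' k
  refine Prod.ext ?_ ?_
  · rcases L_mod m hm v w (0 + k * (0 - 1)) 0 (by simpa using hk) with e | e
    · rw [e] at h1; exact h1.eq Ha'
    · rw [e] at h1; exact h1.eq Ha'.neg
  · rcases L_mod m hm v w (1 + k * (0 - 1)) 1 (by simpa using hk) with e | e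
    · rw [e] at h2; exact h2.eq Hb'
    · rw [e] at h2; exact h2.eq Hb'.neg

end Pool.Helper37.MR
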