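import Pool.Agent.Helper37.MR.Form

namespace Pool.Helper37.MR

open Real

/-- The complex space. -/
abbrev VC := ℕ →₀ ℂ

/-- The automorphism `h` is `u ↦ u - f u • v`. -/
def RepC (h : VC ≃ₗ[ℂ] VC) (v : VC) (f : VC →ₗ[ℂ] ℂ) : Prop :=
  ∀ u, h u = u - (f u) • v

/-- The element with parameter `s` in the plane of `v` and `w`, at angle `φ`. -/
noncomputable def LC {E : Type*} [AddCommGroup E] [Module ℂ E] (φ : ℝ) (v w : E) (s : ℤ) : E :=
  (cf φ s 0 : ℂ) • v + (cf φ s 1 : ℂ) • w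

theorem RepC.neg {h : VC ≃ₗ[ℂ] VC} {v : VC} {f : VC →ₗ[ℂ] ℂ} (H : RepC h v f) :
    RepC h (-v) (-f) := by
  intro u
  rw [H u]
  simp

theorem RepC.scale {h : VC ≃ₗ[ℂ] VC} {v : VC} {f : VC →ₗ[ℂ] ℂ} (H : RepC h v f) (c : ℂ)
    (hc : c ≠ 0) : RepC h (c • v) (c⁻¹ • f) := by
  intro u
  rw [H u, LinearMap.smul_apply, smul_smul, smul_eq_mul]
  congr 2
  field_simp

theorem RepC.eq {h h' : VC ≃ₗ[ℂ] VC} {v : VC} {f : VC →ₗ[ℂ] ℂ} (H : RepC h v f)
    (H' : RepC h' v f) : h = h' := by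
  ext1 u
  rw [H u, H' u]

theorem RepC.inv {h : VC ≃ₗ[ℂ] VC} {v : VC} {f : VC →ₗ[ℂ] ℂ} (H : RepC h v f)
    (hv : f v = 2) : h * h = 1 := by
  ext1 u
  have h1 : (h * h) u = h (h u) := rfl
  rw [h1, H (h u), H u]
  simp only [map_sub, map_smul, smul_eq_mul, hv, LinearEquiv.coe_one, id_eq]
  module

theorem RepC.conj {a b : VC ≃ₗ[ℂ] VC} {v w : VC} {f k : VC →ₗ[ℂ] ℂ} (Ha : RepC a v f)
    (Hb : RepC b w k) (hv : f v = 2) :
    RepC (a * b * a⁻¹) (w - (f w) • v) (k - (k v) • f) := by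
  have hinv : a⁻¹ = a := inv_eq_of_mul_eq_one_left (Ha.inv hv)
  intro u
  have h1 : (a * b * a⁻¹) u = a (b (a u)) := by rw [hinv]; rfl
  have h2 : a (a u) = u := by
    have := Ha.inv hv
    have h3 : (a * a) u = a (a u) := rfl
    rw [← h3, this]; rfl
  rw [h1, Hb (a u), map_sub, map_smul, h2, Ha w]
  have h3 : k (a u) = (k - (k v) • f) u := by
    rw [Ha u]
    simp only [map_sub, map_smul, smul_eq_mul, LinearMap.sub_apply, LinearMap.smul_apply]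
    ring
  rw [h3]

theorem cf_rec (φ : ℝ) (s t : ℤ) (a : ℕ) :
    cf φ t a - 2 * cos ((s - t) * φ) * cf φ s a = - cf φ (2 * s - t) a := by
  have e1 : sin ((1 - (t : ℝ)) * φ) - 2 * cos ((s - t) * φ) * sin ((1 - (s : ℝ)) * φ) =
      - sin ((1 - (2 * (s : ℝ) - t)) * φ) := by
    have a1 : (1 - (t : ℝ)) * φ = (1 - s) * φ + (s - t) * φ := by ring
    have a2 : (1 - (2 * (s : ℝ) - t)) * φ = (1 - s) * φ - (s - t) * φ := by ring
    rw [a1, a2, sin_add, sin_sub]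
    ring
  have e2 : sin ((t : ℝ) * φ) - 2 * cos ((s - t) * φ) * sin ((s : ℝ) * φ) =
      - sin ((2 * (s : ℝ) - t) * φ) := by
    have a1 : (t : ℝ) * φ = s * φ - (s - t) * φ := by ring
    have a2 : (2 * (s : ℝ) - t) * φ = s * φ + (s - t) * φ := by ring
    rw [a1, a2, sin_add, sin_sub]
    ring
  unfold cf
  push_cast
  split_ifs
  · rw [← neg_div, ← e1]; ring
  · rw [← neg_div, ← e2]; ring

theorem LC_rec {E : Type*} [AddCommGroup E] [Module ℂ E] (φ : ℝ) (v w : E) (s t : ℤ) :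
    LC φ v w t - ((2 * cos ((s - t) * φ) : ℝ) : ℂ) • LC φ v w s =
      - LC φ v w (2 * s - t) := by
  have h0 := cf_rec φ s t 0
  have h1 := cf_rec φ s t 1
  have c0 : (cf φ t 0 : ℂ) - ((2 * cos ((s - t) * φ) : ℝ) : ℂ) * (cf φ s 0 : ℂ) =
      - (cf φ (2 * s - t) 0 : ℂ) := by exact_mod_cast h0
  have c1 : (cf φ t 1 : ℂ) - ((2 * cos ((s - t) * φ) : ℝ) : ℂ) * (cf φ s 1 : ℂ) =
      - (cf φ (2 * s - t) 1 : ℂ) := by exact_mod_cast h1
  unfold LC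
  generalize ((2 * cos ((s - t) * φ) : ℝ) : ℂ) = z at *
  calc _ = ((cf φ t 0 : ℂ) - z * (cf φ s 0 : ℂ)) • v +
        ((cf φ t 1 : ℂ) - z * (cf φ s 1 : ℂ)) • w := by module
    _ = _ := by rw [c0, c1]; module

theorem cf_inner (φ : ℝ) (hφ : sin φ ≠ 0) (s t : ℤ) :
    cf φ s 0 * cf φ t 0 * 2 + cf φ s 0 * cf φ t 1 * (2 * cos φ) +
      cf φ s 1 * cf φ t 0 * (2 * cos φ) + cf φ s 1 * cf φ t 1 * 2 =
      2 * cos ((s - t) * φ) := by
  simp only [cf, if_true, one_ne_zero, if_false]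
  have a1 : (1 - (s : ℝ)) * φ = φ - s * φ := by ring
  have a2 : (1 - (t : ℝ)) * φ = φ - t * φ := by ring
  have a3 : ((s : ℝ) - t) * φ = s * φ - t * φ := by ring
  rw [a1, a2, a3, sin_sub, sin_sub, cos_sub]
  have h2 := sin_sq_add_cos_sq φ
  generalize sin ((s : ℝ) * φ) = A at *
  generalize sin ((t : ℝ) * φ) = A' at *
  generalize cos ((s : ℝ) * φ) = C at *
  generalize cos ((t : ℝ) * φ) = C' at *
  generalize sin φ = S at *
  generalize cos φ = K at *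
  have key : (S * C - K * A) * (S * C' - K * A') + K * (S * C - K * A) * A' +
      K * A * (S * C' - K * A') + A * A' = S ^ 2 * (C * C' + A * A') := by
    linear_combination (-(A * A')) * h2
  field_simp
  linear_combination key

/-- The pairing in the plane. -/
theorem LC_inner (φ : ℝ) (hφ : sin φ ≠ 0) (v w : VC) (f k : VC →ₗ[ℂ] ℂ) (hv : f v = 2)
    (hw : k w = 2) (hfw : f w = ((2 * cos φ : ℝ) : ℂ)) (hkv : k v = ((2 * cos φ : ℝ) : ℂ))
    (s t : ℤ) : (LC φ f k s) (LC φ v w t) = ((2 * cos ((s - t) * φ) : ℝ) : ℂ) := by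
  unfold LC
  simp only [map_add, map_smul, LinearMap.add_apply, LinearMap.smul_apply, smul_eq_mul]
  rw [hv, hw, hfw, hkv, ← cf_inner φ hφ s t]
  push_cast
  ring

theorem cf_mod (p : ℕ) (hp : 2 ≤ p) (s t : ℤ) (h : (p : ℤ) ∣ s - t) :
    (∀ a, cf (π / p) s a = cf (π / p) t a) ∨ (∀ a, cf (π / p) s a = - cf (π / p) t a) := by
  obtain ⟨c, hc⟩ := h
  have hp0 : (p : ℝ) ≠ 0 := by positivity
  have hs : (s : ℝ) = t + p * c := by
    have : s = t + p * c := by linarith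
    rw [this]; push_cast; ring
  have e1 : (1 - (s : ℝ)) * (π / p) = (1 - t) * (π / p) - c * π := by
    rw [hs]; field_simp; ring
  have e2 : (s : ℝ) * (π / p) = t * (π / p) + c * π := by
    rw [hs]; field_simp
  unfold cf
  rw [e1, e2, sin_sub_int_mul_pi, sin_add_int_mul_pi]
  rcases Int.even_or_odd c with hc | hc
  · left
    intro a
    rw [hc.neg_one_zpow]; simp
  · right
    intro a
    rw [hc.neg_one_zpow]
    split_ifs <;> ring

theorem LC_mod {E : Type*} [AddCommGroup E] [Module ℂ E] (v w : E) {φ : ℝ} {s t : ℤ}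
    (h : ∀ a, cf φ s a = cf φ t a) : LC φ v w s = LC φ v w t := by
  unfold LC
  rw [h 0, h 1]

theorem LC_mod' {E : Type*} [AddCommGroup E] [Module ℂ E] (v w : E) {φ : ℝ} {s t : ℤ}
    (h : ∀ a, cf φ s a = - cf φ t a) : LC φ v w s = - LC φ v w t := by
  unfold LC
  rw [h 0, h 1]
  push_cast
  module

/-- A representation only depends on the colour modulo `p`. -/
theorem RepC.mod {h : VC ≃ₗ[ℂ] VC} {v w : VC} {f k : VC →ₗ[ℂ] ℂ} {p : ℕ} (hp : 2 ≤ p)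
    {s t : ℤ} (H : RepC h (LC (π / p) v w s) (LC (π / p) f k s)) (hd : (p : ℤ) ∣ s - t) :
    RepC h (LC (π / p) v w t) (LC (π / p) f k t) := by
  rcases cf_mod p hp s t hd with h1 | h1
  · rwa [LC_mod v w h1, LC_mod f k h1] at H
  · rw [LC_mod' v w h1, LC_mod' f k h1] at H
    have h2 := H.neg
    rwa [neg_neg, neg_neg] at h2

theorem LC_zero {E : Type*} [AddCommGroup E] [Module ℂ E] (φ : ℝ) (hφ : sin φ ≠ 0) (v w : E) :
    LC φ v w 0 = v := by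
  unfold LC cf; simp [hφ]

theorem LC_one {E : Type*} [AddCommGroup E] [Module ℂ E] (φ : ℝ) (hφ : sin φ ≠ 0) (v w : E) :
    LC φ v w 1 = w := by
  unfold LC cf; simp [hφ]

/-- One half twist. -/
theorem tw_stepC (φ : ℝ) (hφ : sin φ ≠ 0) (v w : VC) (f k : VC →ₗ[ℂ] ℂ) (hv : f v = 2)
    (hw : k w = 2) (hfw : f w = ((2 * cos φ : ℝ) : ℂ)) (hkv : k v = ((2 * cos φ : ℝ) : ℂ))
    (s t : ℤ) (a b : VC ≃ₗ[ℂ] VC) (Ha : RepC a (LC φ v w s) (LC φ f k s))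
    (Hb : RepC b (LC φ v w t) (LC φ f k t)) :
    RepC (a * b * a⁻¹) (LC φ v w (2 * s - t)) (LC φ f k (2 * s - t)) := by
  have h1 : (LC φ f k s) (LC φ v w s) = 2 := by
    rw [LC_inner φ hφ v w f k hv hw hfw hkv]; simp
  have h2 := RepC.conj Ha Hb h1
  rw [LC_inner φ hφ v w f k hv hw hfw hkv, LC_inner φ hφ v w f k hv hw hfw hkv, LC_rec] at h2
  have h4 : ((2 * cos (((t : ℝ) - s) * φ) : ℝ) : ℂ) = ((2 * cos (((s : ℝ) - t) * φ) : ℝ) : ℂ) := by
    have : ((t : ℝ) - s) * φ = - (((s : ℝ) - t) * φ) := by ring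
    rw [this, cos_neg]
  rw [h4, LC_rec] at h2
  have h3 := h2.neg
  rwa [neg_neg, neg_neg] at h3

/-- All powers of the half twist. -/
theorem tw_powC (φ : ℝ) (hφ : sin φ ≠ 0) (v w : VC) (f k : VC →ₗ[ℂ] ℂ) (hv : f v = 2)
    (hw : k w = 2) (hfw : f w = ((2 * cos φ : ℝ) : ℂ)) (hkv : k v = ((2 * cos φ : ℝ) : ℂ))
    (s t : ℤ) (a b : VC ≃ₗ[ℂ] VC) (Ha : RepC a (LC φ v w s) (LC φ f k s))
    (Hb : RepC b (LC φ v w t) (LC φ f k t)) (c : ℤ) :
    RepC ((tw (VC ≃ₗ[ℂ] VC) ^ c) (a, b)).1 (LC φ v w (s + c * (s - t)))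
        (LC φ f k (s + c * (s - t))) ∧
      RepC ((tw (VC ≃ₗ[ℂ] VC) ^ c) (a, b)).2 (LC φ v w (t + c * (s - t)))
        (LC φ f k (t + c * (s - t))) := by
  have hn : ∀ s : ℤ, (LC φ f k s) (LC φ v w s) = 2 := by
    intro s
    rw [LC_inner φ hφ v w f k hv hw hfw hkv]; simp
  induction c using Int.induction_on with
  | zero => simpa using ⟨Ha, Hb⟩
  | succ i ih =>
    have e : (tw (VC ≃ₗ[ℂ] VC) ^ ((i : ℤ) + 1)) (a, b) =
        tw (VC ≃ₗ[ℂ] VC) ((tw (VC ≃ₗ[ℂ] VC) ^ (i : ℤ)) (a, b)) := by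
      rw [add_comm, zpow_add, zpow_one]; rfl
    rw [e]
    generalize (tw (VC ≃ₗ[ℂ] VC) ^ (i : ℤ)) (a, b) = z at ih ⊢
    obtain ⟨h1, h2⟩ := ih
    refine ⟨?_, ?_⟩
    · have h3 := tw_stepC φ hφ v w f k hv hw hfw hkv _ _ _ _ h1 h2
      have e2 : s + ((i : ℤ) + 1) * (s - t) = 2 * (s + i * (s - t)) - (t + i * (s - t)) := by
        ring
      rw [e2]; exact h3
    · have e2 : t + ((i : ℤ) + 1) * (s - t) = s + i * (s - t) := by ring
      rw [e2]; exact h1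
  | pred i ih =>
    have e : (tw (VC ≃ₗ[ℂ] VC) ^ (-(i : ℤ) - 1)) (a, b) =
        (tw (VC ≃ₗ[ℂ] VC)).symm ((tw (VC ≃ₗ[ℂ] VC) ^ (-(i : ℤ))) (a, b)) := by
      have : -(i : ℤ) - 1 = -1 + -(i : ℤ) := by ring
      rw [this, zpow_add, zpow_neg_one]; rfl
    rw [e]
    generalize (tw (VC ≃ₗ[ℂ] VC) ^ (-(i : ℤ))) (a, b) = z at ih ⊢
    obtain ⟨h1, h2⟩ := ih
    refine ⟨?_, ?_⟩
    · have e2 : s + (-(i : ℤ) - 1) * (s - t) = t + -(i : ℤ) * (s - t) := by ring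
      rw [e2]; exact h2
    · have hinv : z.2⁻¹ = z.2 := inv_eq_of_mul_eq_one_left (h2.inv (hn _))
      have h3 := tw_stepC φ hφ v w f k hv hw hfw hkv _ _ _ _ h2 h1
      have e2 : t + (-(i : ℤ) - 1) * (s - t) = 2 * (t + -(i : ℤ) * (s - t)) -
          (s + -(i : ℤ) * (s - t)) := by ring
      rw [e2]
      have e3 : ((tw (VC ≃ₗ[ℂ] VC)).symm z).2 = z.2 * z.1 * z.2⁻¹ := by
        change z.2⁻¹ * z.1 * z.2 = _
        rw [hinv]
      rw [e3]; exact h3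

/-- A syllable whose order divides the exponent acts trivially. -/
theorem tw_trivC (m : ℕ) (hm : 2 ≤ m) (v w : VC) (f k : VC →ₗ[ℂ] ℂ) (hv : f v = 2)
    (hw : k w = 2) (hfw : f w = ((2 * cos (π / m) : ℝ) : ℂ))
    (hkv : k v = ((2 * cos (π / m) : ℝ) : ℂ))
    (a b : VC ≃ₗ[ℂ] VC) (Ha : RepC a v f) (Hb : RepC b w k) (c : ℤ) (hc : (m : ℤ) ∣ c) :
    (tw (VC ≃ₗ[ℂ] VC) ^ c) (a, b) = (a, b) := by
  have hs : sin (π / m) ≠ 0 := (sin_pi_div m hm).ne'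
  have Ha' : RepC a (LC (π / m) v w 0) (LC (π / m) f k 0) := by
    rwa [LC_zero _ hs, LC_zero _ hs]
  have Hb' : RepC b (LC (π / m) v w 1) (LC (π / m) f k 1) := by
    rwa [LC_one _ hs, LC_one _ hs]
  obtain ⟨h1, h2⟩ := tw_powC (π / m) hs v w f k hv hw hfw hkv 0 1 a b Ha' Hb' c
  refine Prod.ext ?_ ?_
  · exact (h1.mod hm (t := 0) (by simpa using hc)).eq Ha'
  · exact (h2.mod hm (t := 1) (by simpa using hc)).eq Hb'

theorem cos_ne (m : ℕ) (hm : 3 ≤ m) : ((2 * cos (π / m) : ℝ) : ℂ) ≠ 0 := by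
  have h1 : 0 < cos (π / m) := by
    apply cos_pos_of_mem_Ioo
    have hm0 : (3 : ℝ) ≤ m := by exact_mod_cast hm
    have hpi := pi_pos
    constructor
    · have : 0 < π / m := by positivity
      linarith
    · rw [div_lt_iff₀ (by linarith)]
      nlinarith
  have h2 : (2 * cos (π / m) : ℝ) ≠ 0 := by positivity
  exact_mod_cast h2

/-- The condition on the two pairings of two reflections, for the order `m`. -/
def OrdC (m : ℕ) (x y : ℂ) : Prop :=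
  (m = 2 ∧ x = 0 ∧ y = 0) ∨ (3 ≤ m ∧ x * y = ((2 * cos (π / m) : ℝ) : ℂ) ^ 2)

/-- The same with the product of the two pairings prescribed. -/
theorem tw_trivial_prod (m : ℕ) (v w : VC) (f k : VC →ₗ[ℂ] ℂ) (hv : f v = 2)
    (hw : k w = 2) (h : OrdC m (f w) (k v))
    (a b : VC ≃ₗ[ℂ] VC) (Ha : RepC a v f) (Hb : RepC b w k) (c : ℤ) (hc : (m : ℤ) ∣ c) :
    (tw (VC ≃ₗ[ℂ] VC) ^ c) (a, b) = (a, b) := by
  rcases h with ⟨h3, h1, h2⟩ | ⟨h1, h2⟩
  · have h4 : ((2 * cos (π / m) : ℝ) : ℂ) = 0 := by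
      rw [h3]; simp
    exact tw_trivC m (by omega) v w f k hv hw (by rw [h4, h1]) (by rw [h4, h2]) a b Ha Hb c hc
  · have h0 := cos_ne m h1
    have hfw : f w ≠ 0 := by
      intro h4
      rw [h4, zero_mul] at h2
      exact pow_ne_zero 2 h0 h2.symm
    have hc0 : ((2 * cos (π / m) : ℝ) : ℂ) / f w ≠ 0 := div_ne_zero h0 hfw
    have Hb2 := Hb.scale _ hc0
    refine tw_trivC m (by omega) v _ f _ hv ?_ ?_ ?_ a b Ha Hb2 c hc
    · simp only [map_smul, LinearMap.smul_apply, smul_eq_mul]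
      rw [hw]; field_simp
    · simp only [map_smul, smul_eq_mul]
      field_simp
    · simp only [LinearMap.smul_apply, smul_eq_mul]
      field_simp
      linear_combination h2

end Pool.Helper37.MR
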