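import Mathlib

namespace Pool.Helper37.MR

/-- The half twist on a pair of strand labels: `(a, b) ↦ (a b a⁻¹, a)`. -/
def tw (H : Type*) [Group H] : Equiv.Perm (H × H) where
  toFun p := (p.1 * p.2 * p.1⁻¹, p.1)
  invFun p := (p.2, p.2⁻¹ * p.1 * p.2)
  left_inv p := by ext <;> simp [mul_assoc]
  right_inv p := by ext <;> simp [mul_assoc]

/-- The syllable `(i, k)` (`k` half twists of the strands `i` and `i + 1`) acts on a row `x` of
strand labels. -/
def syl {H : Type*} [Group H] (x : ℕ → H) (c : ℕ × ℤ) : ℕ → H := fun q =>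
  if q = c.1 then ((tw H ^ c.2) (x c.1, x (c.1 + 1))).1
  else if q = c.1 + 1 then ((tw H ^ c.2) (x c.1, x (c.1 + 1))).2
  else x q

/-- The labels at the bottom of the braid word `w` when those at the top are `x`. -/
def run {H : Type*} [Group H] : List (ℕ × ℤ) → (ℕ → H) → (ℕ → H)
  | [], x => x
  | c :: w, x => run w (syl x c)

/-- Top labels of a plat: the two strands of the `i`-th maximum carry `x i` and `(x i)⁻¹`. -/
def cup {H : Type*} [Group H] (x : ℕ → H) : ℕ → H := fun q =>
  if q % 2 = 0 then x (q / 2) else (x (q / 2))⁻¹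

/-- The free generators, one for each maximum. -/
def gen (n : ℕ) (i : ℕ) : FreeGroup (Fin n) := if h : i < n then FreeGroup.of ⟨i, h⟩ else 1

/-- The relators of the plat with `n` maxima and `n` minima: the two labels at each minimum are
inverse to each other. -/
def rels (n : ℕ) (w : List (ℕ × ℤ)) : Set (FreeGroup (Fin n)) :=
  {r | ∃ j : ℕ, j < n ∧ r = run w (cup (gen n)) (2 * j) * run w (cup (gen n)) (2 * j + 1)}

/-- The group of the link which is the plat closure of the `2 n`-braid word `w`. -/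
abbrev PlatGroup (n : ℕ) (w : List (ℕ × ℤ)) : Type := PresentedGroup (rels n w)

/-- Meridians: the conjugates of the generators and of their inverses. -/
def IsMeridian {n : ℕ} {w : List (ℕ × ℤ)} (h : PlatGroup n w) : Prop :=
  ∃ i : Fin n, IsConj (PresentedGroup.of (rels := rels n w) i) h ∨
    IsConj (PresentedGroup.of (rels := rels n w) i)⁻¹ h

/-- The numbers `k` such that some `k` meridians generate the group. -/
def MerGen (n : ℕ) (w : List (ℕ × ℤ)) : Set ℕ :=
  {k | ∃ m : Fin k → PlatGroup n w, (∀ i, IsMeridian (m i)) ∧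
    Subgroup.closure (Set.range m) = ⊤}

/-- The row `σ_2^(f 0) σ_4^(f 1) …`: the syllable `f i` sits between the maxima `i` and `i + 1`. -/
def evenRow (n : ℕ) (f : ℕ → ℤ) : List (ℕ × ℤ) :=
  (List.range (n - 1)).map (fun i => (2 * i + 1, f i))

/-- The row `σ_1^(f 0) σ_3^(f 1) …`. -/
def oddRow (n : ℕ) (f : ℕ → ℤ) : List (ℕ × ℤ) :=
  (List.range n).map (fun i => (2 * i, f i))

/-- The braid word with the `T + 1` even rows `a 0, …, a T` and, between them, the `T` odd rows
`b 0, …, b (T - 1)`. -/
def rows (n : ℕ) (a b : ℕ → ℕ → ℤ) : ℕ → List (ℕ × ℤ)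
  | 0 => evenRow n (a 0)
  | t + 1 => rows n a b t ++ (oddRow n (b t) ++ evenRow n (a (t + 1)))

/-- The rows `r ≤ T` with a nonzero exponent at the place `i`. -/
def used (T : ℕ) (a : ℕ → ℕ → ℤ) (i : ℕ) : Finset ℕ :=
  (Finset.range (T + 1)).filter (fun r => a r i ≠ 0)

/-- The rows `r ≤ T` with exponent `2` or `-2` at the place `i`. -/
def twos (T : ℕ) (a : ℕ → ℕ → ℤ) (i : ℕ) : Finset ℕ :=
  (Finset.range (T + 1)).filter (fun r => (a r i).natAbs = 2)

/-- Between the even rows `s` and `t` there is a nonzero exponent in the odd column `i`. -/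
def Sep (b : ℕ → ℕ → ℤ) (i s t : ℕ) : Prop := ∃ u : ℕ, s ≤ u ∧ u < t ∧ b u i ≠ 0

/-- The exponents at the place `i` of the even rows have a common divisor which is at least two. -/
def GcdColumn (T : ℕ) (a : ℕ → ℕ → ℤ) (i : ℕ) : Prop :=
  ∃ m : ℕ, 2 ≤ m ∧ ∀ r, r ≤ T → (m : ℤ) ∣ a r i

/-- The block of the maxima `i` and `i + 1` is an alternating `4`-plat: up to a common sign, its
exponents in the even rows are nonnegative, and positive in the first and in the last row, and its
exponents in the odd rows are nonpositive. -/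
def Alternating (T : ℕ) (a b : ℕ → ℕ → ℤ) (i : ℕ) : Prop :=
  ∃ ε : ℤ, (ε = 1 ∨ ε = -1) ∧ 0 < ε * a 0 i ∧ 0 < ε * a T i ∧
    (∀ r, r ≤ T → 0 ≤ ε * a r i) ∧ ∀ t, t < T → ε * b t i ≤ 0 ∧ ε * b t (i + 1) ≤ 0

/-- The continued fraction of the block of the maxima `i` and `i + 1` after `t` pairs of rows. -/
def contFrac (a b : ℕ → ℕ → ℤ) (i : ℕ) : ℕ → ℤ × ℤ
  | 0 => (0, 1)
  | t + 1 => ((contFrac a b i t).1 + a t i * (contFrac a b i t).2,
      (contFrac a b i t).2 - (b t i + b t (i + 1)) *
        ((contFrac a b i t).1 + a t i * (contFrac a b i t).2))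

/-- Up to sign the determinant of the `4`-plat of the maxima `i` and `i + 1` (a two-bridge
link). -/
def blockDet (T : ℕ) (a b : ℕ → ℕ → ℤ) (i : ℕ) : ℤ :=
  (contFrac a b i T).1 + a T i * (contFrac a b i T).2

/-- The condition on a block of the two maxima `i` and `i + 1`: it is alternating, or its
determinant is not one and the exponents of each joining column next to it have a common
divisor. -/
def Block (n T : ℕ) (a b : ℕ → ℕ → ℤ) (i : ℕ) : Prop :=
  Alternating T a b i ∨ ((blockDet T a b i).natAbs ≠ 1 ∧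
    (i + 2 < n → GcdColumn T a (i + 1)) ∧ (0 < i → GcdColumn T a (i - 1)))

/-- The condition on the column of the twist regions at the place `i` of the even rows, between
two blocks; the neighbouring odd columns are `i` and `i + 1`. `L` and `R` say that the block on
the left, respectively on the right, has two maxima. Two rows are separated on the left (right)
if that block has two maxima and the odd column there has a nonzero exponent between them. -/
def Column (T : ℕ) (a b : ℕ → ℕ → ℤ) (i : ℕ) (L R : Prop) : Prop :=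
  GcdColumn T a i ∨
  ((∀ r, r ≤ T → (a r i).natAbs ≠ 1) ∧
  (((used T a i).card ≤ 3 ∧
      (∀ s ∈ used T a i, ∀ t ∈ used T a i, s < t →
        (L ∧ Sep b i s t) ∨ (R ∧ Sep b (i + 1) s t)) ∧
      ((used T a i).card = 3 → (twos T a i).card = 0 ∨
        ((L ∧ ∃ s ∈ used T a i, ∃ t ∈ used T a i, Sep b i s t) ∧
         (R ∧ ∃ s ∈ used T a i, ∃ t ∈ used T a i, Sep b (i + 1) s t)))) ∨
   ((used T a i).card = 4 ∧ (twos T a i).card ≤ 1 ∧
      (∀ s ∈ used T a i, ∀ t ∈ used T a i, s < t →
        (L ∧ Sep b i s t) ∧ (R ∧ Sep b (i + 1) s t)))))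

/-- The numbers of maxima of the plats which have the same group with the same meridians as the
plat of `w`. -/
def PlatNum (n : ℕ) (w : List (ℕ × ℤ)) : Set ℕ :=
  {n' | ∃ w' : List (ℕ × ℤ), (∀ c ∈ w', c.1 + 1 < 2 * n') ∧
    ∃ φ : PlatGroup n' w' ≃* PlatGroup n w, ∀ x, IsMeridian x ↔ IsMeridian (φ x)}

end Pool.Helper37.MR
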