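import Pool.Agent.Helper37.MR.Defs

namespace Pool.Helper37.MR

/-- Positions on the line (Fox colours without modulus) after the syllable `(i, k)`. -/
def shift (s : ℕ → ℤ) (i : ℕ) (k : ℤ) : ℕ → ℤ := fun q =>
  if q = i ∨ q = i + 1 then s q + k * (s i - s (i + 1)) else s q

/-- The numbers used in the colour condition. The strands `0, …, 2 n - 1` are cut into blocks of
four, the strand `q` lying in the block `q / 4` (the last block has two strands if `n` is odd).
`p j` is the modulus of the block `j`. For the passage from the block `j` to the block `j + 1`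
there are at most three colour pairs `(Y j r, X j r)` with orders `m j r`; an index `r` with
`m j r < 2` is not in use. -/
structure Data where
  p : ℕ → ℕ
  Y : ℕ → Fin 3 → ℤ
  X : ℕ → Fin 3 → ℤ
  m : ℕ → Fin 3 → ℕ

/-- The data are admissible for `n` maxima: the moduli are at least two; for each passage the
colour pairs in use are different modulo the moduli of the two blocks, and if all three are in use
then neither their first nor their second entries all agree modulo the modulus. -/
def Data.Adm (D : Data) (n : ℕ) : Prop :=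
  (∀ j, 2 * j < n → 2 ≤ D.p j) ∧
  ∀ j, 2 * (j + 1) < n →
    (∀ r r' : Fin 3, r ≠ r' → 2 ≤ D.m j r → 2 ≤ D.m j r' →
      ¬ ((D.p j : ℤ) ∣ D.Y j r - D.Y j r' ∧ (D.p (j + 1) : ℤ) ∣ D.X j r - D.X j r')) ∧
    ((∀ r : Fin 3, 2 ≤ D.m j r) →
      ¬ (∀ r r' : Fin 3, (D.p j : ℤ) ∣ D.Y j r - D.Y j r') ∧
      ¬ (∀ r r' : Fin 3, (D.p (j + 1) : ℤ) ∣ D.X j r - D.X j r'))

/-- The condition on a syllable `(i, k)` with `i = 4 j + 3`, that is between the blocks `j` and
`j + 1`: the colours `s i` and `s (i + 1)` form one of the colour pairs in use, and the order of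
this pair divides `k` (there is no condition if `k = 0`). -/
def Meets (D : Data) (s : ℕ → ℤ) (i : ℕ) (k : ℤ) : Prop :=
  k = 0 ∨ ∃ r : Fin 3, 2 ≤ D.m (i / 4) r ∧ (D.p (i / 4) : ℤ) ∣ s i - D.Y (i / 4) r ∧
    (D.p (i / 4 + 1) : ℤ) ∣ s (i + 1) - D.X (i / 4) r ∧ (D.m (i / 4) r : ℤ) ∣ k

/-- The colour condition on a word, read from the top. A syllable inside a block moves the
colours, a syllable between two blocks leaves them and has to satisfy `Meets`. At the end the
colours of the two strands of each minimum agree modulo the modulus of their block. -/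
def Good (D : Data) (n : ℕ) : List (ℕ × ℤ) → (ℕ → ℤ) → Prop
  | [], s => ∀ q, q < n → (D.p (q / 2) : ℤ) ∣ s (2 * q) - s (2 * q + 1)
  | c :: w, s => c.1 + 1 < 2 * n ∧
      ((c.1 % 4 ≠ 3 ∧ Good D n w (shift s c.1 c.2)) ∨
        (c.1 % 4 = 3 ∧ Meets D s c.1 c.2 ∧ Good D n w s))

/-- The colours at the top: `0, 0, 1, 1` in each block of four strands. -/
def top (q : ℕ) : ℤ := ((q % 4 / 2 : ℕ) : ℤ)

/-- The braid word with five rows, the first, third and fifth on the even generators. -/
def fiveRows (n : ℕ) (a : Fin 3 → ℕ → ℤ) (b : Fin 2 → ℕ → ℤ) : List (ℕ × ℤ) :=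
  evenRow n (a 0) ++ (oddRow n (b 0) ++ (evenRow n (a 1) ++ (oddRow n (b 1) ++
    evenRow n (a 2))))

end Pool.Helper37.MR
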