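import Pool.Agent.Helper37.MR.SeqD

namespace Pool.Helper37.MR.D

open Real

section

variable (n T : ℕ) (a b : ℕ → ℕ → ℤ) (d : ℕ → Bool)

/-- The colours before the even row `t`. -/
def SS : ℕ → ℕ → ℤ
  | 0 => topD (pl d)
  | t + 1 => oddEnd n (b t) (evenEnd d (n - 1) (a t) (SS t))

/-- The colours after the even row `t`. -/
def FF (t : ℕ) : ℕ → ℤ := evenEnd d (n - 1) (a t) (SS n a b d t)

theorem SS_succ (t : ℕ) :
    SS n a b d (t + 1) = oddEnd n (b t) (evenEnd d (n - 1) (a t) (SS n a b d t)) := rfl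

theorem rows_good (D : Chain) (h : ∀ t, t ≤ T → ∀ i, i + 1 < n → ¬ d i = true →
    Meets D (bk d) (SS n a b d t) (2 * i + 1) (a t i)) :
    GoodTo D (bk d) n (rows n a b T) (topD (pl d)) (FF n a b d T) := by
  induction T with
  | zero => exact even_row D d n (a 0) (topD (pl d)) (h 0 le_rfl)
  | succ t ih =>
    have h1 := ih (fun s hs => h s (by omega))
    have h2 := odd_row D d n (b t) (FF n a b d t)
    have h3 := even_row D d n (a (t + 1)) (SS n a b d (t + 1)) (h (t + 1) le_rfl)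
    exact h1.append (h2.append h3)

/-- Modulus of the block with first maximum `i`. -/
def modD (i : ℕ) : ℕ :=
  if (i + 1 < n ∧ d i = true) ∧ 2 ≤ (FF n a b d T (2 * i) - FF n a b d T (2 * i + 1)).natAbs then
    (FF n a b d T (2 * i) - FF n a b d T (2 * i + 1)).natAbs else 2

theorem mod_two_le (i : ℕ) : 2 ≤ modD n T a b d i := by
  unfold modD
  split_ifs with h
  · exact h.2
  · exact le_rfl

theorem topD_0 (i : ℕ) (h : pl d i = 0) : topD (pl d) (2 * i) = 0 := by
  have e : 2 * i / 2 = i := by omega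
  unfold topD; rw [e, h]; rfl

theorem topD_1 (i : ℕ) (h : pl d i = 0) : topD (pl d) (2 * i + 1) = 0 := by
  have e : (2 * i + 1) / 2 = i := by omega
  unfold topD; rw [e, h]; rfl

theorem topD_2 (i : ℕ) (h : d i = true) : topD (pl d) (2 * i + 2) = 1 := by
  have e : (2 * i + 2) / 2 = i + 1 := by omega
  have e2 : pl d (i + 1) = 1 := by simp [pl, h]
  unfold topD; rw [e, e2]; rfl

theorem topD_3 (i : ℕ) (h : d i = true) : topD (pl d) (2 * i + 3) = 1 := by
  have e : (2 * i + 3) / 2 = i + 1 := by omega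
  have e2 : pl d (i + 1) = 1 := by simp [pl, h]
  unfold topD; rw [e, e2]; rfl

theorem left_free (hd : ∀ i, d i = true → ¬ d (i + 1) = true) (i : ℕ) (h : d i = true) :
    i = 0 ∨ ¬ d (i - 1) = true := by
  cases i with
  | zero => left; rfl
  | succ i => right; exact fun h' => hd i h' h

theorem pl_zero (i : ℕ) (h : i = 0 ∨ ¬ d (i - 1) = true) : pl d i = 0 := by
  cases i with
  | zero => rfl
  | succ i =>
    have h1 : ¬ d i = true := by
      rcases h with h | h
      · omega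
      · exact h
    simp [pl, h1]

theorem sym_block (hd : ∀ i, d i = true → ¬ d (i + 1) = true) (j : ℕ) (hj : j + 1 < n)
    (hdj : d j = true) (t : ℕ) :
    SS n a b d t (2 * j + 2) - SS n a b d t (2 * j + 3) =
      -(SS n a b d t (2 * j) - SS n a b d t (2 * j + 1)) := by
  have h1 : j < n := by omega
  have h2 : j < n - 1 := by omega
  have hl := left_free d hd j hdj
  have hp := pl_zero d j hl
  induction t with
  | zero =>
    change topD _ _ - topD _ _ = -(topD _ _ - topD _ _)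
    rw [topD_0 d j hp, topD_1 d j hp, topD_2 d j hdj, topD_3 d j hdj]; norm_num
  | succ t ih =>
    rw [SS_succ, od_0 _ _ _ _ h1, od_1 _ _ _ _ h1, od_2 _ _ _ _ hj, od_3 _ _ _ _ hj,
      ev_0 d _ _ _ _ hl, ev_1 d _ _ _ _ h2 hdj, ev_2 d _ _ _ _ h2 hdj,
      ev_3 d _ _ _ _ (hd j hdj)]
    linear_combination ih

theorem FF_sym (hd : ∀ i, d i = true → ¬ d (i + 1) = true) (j : ℕ) (hj : j + 1 < n)
    (hdj : d j = true) :
    FF n a b d T (2 * j + 2) - FF n a b d T (2 * j + 3) =
      -(FF n a b d T (2 * j) - FF n a b d T (2 * j + 1)) := by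
  have h2 : j < n - 1 := by omega
  have hl := left_free d hd j hdj
  unfold FF
  rw [ev_0 d _ _ _ _ hl, ev_1 d _ _ _ _ h2 hdj, ev_2 d _ _ _ _ h2 hdj,
    ev_3 d _ _ _ _ (hd j hdj)]
  linear_combination sym_block n a b d hd j hj hdj T

/-- The recursion of the statement gives the colour differences. -/
theorem cf_eq (hd : ∀ i, d i = true → ¬ d (i + 1) = true) (j : ℕ) (hj : j + 1 < n)
    (hdj : d j = true) (t : ℕ) :
    contFrac a b j t = (SS n a b d t (2 * j) - SS n a b d t (2 * j + 1),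
      SS n a b d t (2 * j + 2) - SS n a b d t (2 * j + 1)) := by
  have h1 : j < n := by omega
  have h2 : j < n - 1 := by omega
  have hl := left_free d hd j hdj
  have hp := pl_zero d j hl
  induction t with
  | zero =>
    change ((0 : ℤ), (1 : ℤ)) = (topD _ _ - topD _ _, topD _ _ - topD _ _)
    rw [topD_0 d j hp, topD_1 d j hp, topD_2 d j hdj]; norm_num
  | succ t ih =>
    have h3 := sym_block n a b d hd j hj hdj t
    have e : contFrac a b j (t + 1) = ((contFrac a b j t).1 + a t j * (contFrac a b j t).2,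
      (contFrac a b j t).2 - (b t j + b t (j + 1)) *
        ((contFrac a b j t).1 + a t j * (contFrac a b j t).2)) := rfl
    rw [e, ih]
    simp only [SS_succ, od_0 _ _ _ _ h1, od_1 _ _ _ _ h1, od_2 _ _ _ _ hj,
      ev_0 d _ _ _ _ hl, ev_1 d _ _ _ _ h2 hdj, ev_2 d _ _ _ _ h2 hdj,
      ev_3 d _ _ _ _ (hd j hdj)]
    refine Prod.ext ?_ ?_
    · ring
    · simp only
      linear_combination (-(b t (j + 1))) * h3

theorem blockDet_eq (hd : ∀ i, d i = true → ¬ d (i + 1) = true) (j : ℕ) (hj : j + 1 < n)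
    (hdj : d j = true) :
    FF n a b d T (2 * j) - FF n a b d T (2 * j + 1) = blockDet T a b j := by
  have h2 : j < n - 1 := by omega
  have hl := left_free d hd j hdj
  unfold blockDet FF
  rw [cf_eq n a b d hd j hj hdj T, ev_0 d _ _ _ _ hl, ev_1 d _ _ _ _ h2 hdj]
  ring

theorem gen_block (hd : ∀ i, d i = true → ¬ d (i + 1) = true) (j : ℕ) (hj : j + 1 < n)
    (hdj : d j = true) (hdet : (blockDet T a b j).natAbs ≠ 1) :
    (modD n T a b d j : ℤ) ∣ FF n a b d T (2 * j) - FF n a b d T (2 * j + 1) ∧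
    (modD n T a b d j : ℤ) ∣ FF n a b d T (2 * j + 2) - FF n a b d T (2 * j + 3) := by
  have h1 : (modD n T a b d j : ℤ) ∣ FF n a b d T (2 * j) - FF n a b d T (2 * j + 1) := by
    unfold modD
    split_ifs with h
    · rw [Int.natAbs_dvd]
    · have h2 : ¬ 2 ≤ (FF n a b d T (2 * j) - FF n a b d T (2 * j + 1)).natAbs :=
        fun h3 => h ⟨⟨hj, hdj⟩, h3⟩
      have h3 := blockDet_eq n T a b d hd j hj hdj
      rw [← h3] at hdet
      have h4 : FF n a b d T (2 * j) - FF n a b d T (2 * j + 1) = 0 := by omega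
      rw [h4]
      simp
  refine ⟨h1, ?_⟩
  rw [FF_sym n T a b d hd j hj hdj, dvd_neg]
  exact h1

theorem full_block (hT : 1 ≤ T) (hd : ∀ i, d i = true → ¬ d (i + 1) = true) (j : ℕ)
    (hj : j + 1 < n) (hdj : d j = true) (hA : Alternating T a b j) :
    (∀ s t, s < t → t ≤ T → Sep b j s t → ¬ (modD n T a b d j : ℤ) ∣
      SS n a b d s (2 * j) - SS n a b d t (2 * j) ∧ ¬ (modD n T a b d j : ℤ) ∣
      SS n a b d t (2 * j) - SS n a b d s (2 * j)) ∧
    (∀ s t, s < t → t ≤ T → Sep b (j + 1) s t → ¬ (modD n T a b d j : ℤ) ∣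
      SS n a b d s (2 * j + 3) - SS n a b d t (2 * j + 3) ∧ ¬ (modD n T a b d j : ℤ) ∣
      SS n a b d t (2 * j + 3) - SS n a b d s (2 * j + 3)) ∧
    (modD n T a b d j : ℤ) ∣ FF n a b d T (2 * j) - FF n a b d T (2 * j + 1) ∧
    (modD n T a b d j : ℤ) ∣ FF n a b d T (2 * j + 2) - FF n a b d T (2 * j + 3) := by
  have h1 : j < n := by omega
  have h2 : j < n - 1 := by omega
  have hl := left_free d hd j hdj
  have hp := pl_zero d j hl
  obtain ⟨ε, hε, ha0, haT, ha, hb⟩ := hA
  obtain ⟨k1, k2, k3⟩ := seq_weak T hT ε hε (fun t => a t j)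
    (fun t => b t j) (fun t => b t (j + 1))
    (fun t => SS n a b d t (2 * j) - SS n a b d t (2 * j + 1))
    (fun t => SS n a b d t (2 * j + 2) - SS n a b d t (2 * j + 1))
    (fun t => SS n a b d t (2 * j)) (fun t => SS n a b d t (2 * j + 3))
    (by change topD _ _ - topD _ _ = 0; rw [topD_0 d j hp, topD_1 d j hp]; norm_num)
    (by change topD _ _ - topD _ _ = 1; rw [topD_2 d j hdj, topD_1 d j hp]; norm_num)
    (by change topD _ _ = 0; rw [topD_0 d j hp])
    (by change topD _ _ = 1; rw [topD_3 d j hdj])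
    (by
      intro t
      simp only [SS_succ, od_0 _ _ _ _ h1, od_1 _ _ _ _ h1, ev_0 d _ _ _ _ hl,
        ev_1 d _ _ _ _ h2 hdj]
      ring)
    (by
      intro t
      simp only [SS_succ, od_0 _ _ _ _ h1, od_1 _ _ _ _ h1, ev_0 d _ _ _ _ hl,
        ev_1 d _ _ _ _ h2 hdj]
      ring)
    (by
      intro t
      have h3 := sym_block n a b d hd j hj hdj t
      simp only [SS_succ, od_0 _ _ _ _ h1, od_1 _ _ _ _ h1, od_3 _ _ _ _ hj,
        ev_0 d _ _ _ _ hl, ev_1 d _ _ _ _ h2 hdj, ev_2 d _ _ _ _ h2 hdj,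
        ev_3 d _ _ _ _ (hd j hdj)]
      linear_combination (b t (j + 1)) * h3)
    (by
      intro t
      have h3 := sym_block n a b d hd j hj hdj t
      simp only [SS_succ, od_0 _ _ _ _ h1, od_1 _ _ _ _ h1, od_2 _ _ _ _ hj,
        ev_0 d _ _ _ _ hl, ev_1 d _ _ _ _ h2 hdj, ev_2 d _ _ _ _ h2 hdj,
        ev_3 d _ _ _ _ (hd j hdj)]
      linear_combination (b t (j + 1)) * h3)
    ha ha0 haT (fun t ht => (hb t ht).1) (fun t ht => (hb t ht).2)
  have hP : FF n a b d T (2 * j) - FF n a b d T (2 * j + 1) =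
      SS n a b d T (2 * j) - SS n a b d T (2 * j + 1) + a T j *
        (SS n a b d T (2 * j + 2) - SS n a b d T (2 * j + 1)) := by
    unfold FF
    rw [ev_0 d _ _ _ _ hl, ev_1 d _ _ _ _ h2 hdj]
    ring
  have hdet : (blockDet T a b j).natAbs ≠ 1 := by
    rw [← blockDet_eq n T a b d hd j hj hdj, hP]
    intro h3
    omega
  have hm : modD n T a b d j = (FF n a b d T (2 * j) - FF n a b d T (2 * j + 1)).natAbs := by
    unfold modD
    rw [if_pos]
    refine ⟨⟨hj, hdj⟩, ?_⟩
    rw [hP]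
    exact k1
  refine ⟨?_, ?_, gen_block n T a b d hd j hj hdj hdet⟩
  · rw [hm]
    simp only [Int.natAbs_dvd]
    rw [hP]
    exact k2
  · rw [hm]
    simp only [Int.natAbs_dvd]
    rw [hP]
    exact k3

/-- A single maximum keeps its colour. -/
theorem single_block (j : ℕ) (hj : j < n) (hl : j = 0 ∨ ¬ d (j - 1) = true)
    (hr : ¬ (j < n - 1 ∧ d j = true)) :
    (∀ t, SS n a b d t (2 * j) = 0 ∧ SS n a b d t (2 * j + 1) = 0) ∧
      FF n a b d T (2 * j) - FF n a b d T (2 * j + 1) = 0 := by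
  have hp := pl_zero d j hl
  have h3 : ∀ t, SS n a b d t (2 * j) = 0 ∧ SS n a b d t (2 * j + 1) = 0 := by
    intro t
    induction t with
    | zero => exact ⟨topD_0 d j hp, topD_1 d j hp⟩
    | succ t ih =>
      rw [SS_succ, od_0 _ _ _ _ hj, od_1 _ _ _ _ hj, ev_0 d _ _ _ _ hl,
        ev_1' d _ _ _ _ hr, ih.1, ih.2]
      norm_num
  refine ⟨h3, ?_⟩
  unfold FF
  rw [ev_0 d _ _ _ _ hl, ev_1' d _ _ _ _ hr, (h3 T).1, (h3 T).2]
  norm_num

theorem mem_used (i r : ℕ) : r ∈ used T a i ↔ r ≤ T ∧ a r i ≠ 0 := by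
  simp [used]

theorem mem_twos (i r : ℕ) : r ∈ twos T a i ↔ r ≤ T ∧ (a r i).natAbs = 2 := by
  simp [twos]

theorem bk_mono (i j : ℕ) (h : i ≤ j) : bk d i ≤ bk d j := by
  induction j, h using Nat.le_induction with
  | base => exact le_rfl
  | succ j _ ih =>
    by_cases hj : d j = true
    · rw [bk_same d j hj]; exact ih
    · rw [bk_next d j hj]; omega

/-- The first maximum of a block. -/
noncomputable def fmx (c : ℕ) : ℕ := sInf {i | bk d i = c}

theorem fmx_first (i : ℕ) (h : i = 0 ∨ ¬ d (i - 1) = true) : fmx d (bk d i) = i := by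
  have h1 : fmx d (bk d i) ≤ i := Nat.sInf_le rfl
  have h2 : bk d (fmx d (bk d i)) = bk d i :=
    Nat.sInf_mem (s := {j | bk d j = bk d i}) ⟨i, rfl⟩
  rcases Nat.lt_or_ge (fmx d (bk d i)) i with h3 | h3
  · exfalso
    rcases h with h | h
    · omega
    · obtain ⟨k, rfl⟩ : ∃ k, i = k + 1 := ⟨i - 1, by omega⟩
      have h4 : ¬ d k = true := h
      have h5 := bk_next d k h4
      have h6 := bk_mono d (fmx d (bk d (k + 1))) k (by omega)
      omega
  · omega

theorem fmx_second (hd : ∀ i, d i = true → ¬ d (i + 1) = true) (i : ℕ) (h : d i = true) :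
    fmx d (bk d (i + 1)) = i := by
  rw [bk_same d i h]
  exact fmx_first d i (left_free d hd i h)

/-- The matrices exist. -/
theorem solv_all (hT : 1 ≤ T) (hd : ∀ i, d i = true → ¬ d (i + 1) = true)
    (hb : ∀ i, i + 1 < n → d i = true → Block n T a b i)
    (hc : ∀ i, i + 1 < n → ¬ d i = true →
      Column T a b i (0 < i ∧ d (i - 1) = true) (i + 2 < n ∧ d (i + 1) = true))
    (i : ℕ) (hi : i + 1 < n) (hdi : ¬ d i = true) :
    ∃ M M' : ℕ → ℕ → ℂ, ∀ r ∈ used T a i, ∃ m : ℕ,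
      OrdC m (ev (modD n T a b d (fmx d (bk d i))) (modD n T a b d (i + 1)) M
          (SS n a b d r (2 * i + 1)) (SS n a b d r (2 * i + 2)))
        (ev (modD n T a b d (fmx d (bk d i))) (modD n T a b d (i + 1)) M'
          (SS n a b d r (2 * i + 1)) (SS n a b d r (2 * i + 2))) ∧ (m : ℤ) ∣ a r i := by
  have hp := mod_two_le n T a b d (fmx d (bk d i))
  have hp' := mod_two_le n T a b d (i + 1)
  by_cases hG : GcdColumn T a i
  · obtain ⟨m, hm2, hmd⟩ := hG
    obtain ⟨M, M', hMM⟩ := solv_gcd _ _ hp hp' m hm2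
    refine ⟨M, M', fun r hr => ⟨m, hMM _ _, ?_⟩⟩
    rw [mem_used] at hr
    exact hmd r hr.1
  obtain ⟨hc1, hcol⟩ := (hc i hi hdi).resolve_left hG
  suffices hsolv : Solvable (modD n T a b d (fmx d (bk d i))) (modD n T a b d (i + 1))
      (used T a i) (fun r => SS n a b d r (2 * i + 1)) (fun r => SS n a b d r (2 * i + 2))
      (fun r => (a r i).natAbs) by
    obtain ⟨M, M', hMM⟩ := hsolv
    refine ⟨M, M', fun r hr => ⟨_, hMM r hr, ?_⟩⟩
    rw [Int.natAbs_dvd]
  have hm : ∀ r ∈ used T a i, 2 ≤ (a r i).natAbs := by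
    intro r hr
    rw [mem_used] at hr
    have := hc1 r hr.1
    have h2 := hr.2
    omega
  have hlt : ∀ {i s t : ℕ}, Sep b i s t → s < t := by
    rintro i s t ⟨u, h1, h2, -⟩; omega
  have hYd : (0 < i ∧ d (i - 1) = true) → ∀ r r', r ∈ used T a i → r' ∈ used T a i →
      (Sep b i r r' ∨ Sep b i r' r) →
      ¬ (modD n T a b d (fmx d (bk d i)) : ℤ) ∣
        SS n a b d r (2 * i + 1) - SS n a b d r' (2 * i + 1) := by
    rintro ⟨hi0, hdl⟩ r r' hr hr' hs
    obtain ⟨k, rfl⟩ : ∃ k, i = k + 1 := ⟨i - 1, by omega⟩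
    have hdk : d k = true := hdl
    have hA : Alternating T a b k := by
      rcases hb k (by omega) hdk with h | ⟨-, h, -⟩
      · exact h
      · exact absurd (h (by omega)) hG
    obtain ⟨-, hY, -, -⟩ := full_block n T a b d hT hd k (by omega) hdk hA
    rw [fmx_second d hd k hdk]
    have e : 2 * (k + 1) + 1 = 2 * k + 3 := by ring
    rw [e]
    rw [mem_used] at hr hr'
    rcases hs with hs | hs
    · exact (hY r r' (hlt hs) hr'.1 hs).1
    · exact (hY r' r (hlt hs) hr.1 hs).2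
  have hXd : (i + 2 < n ∧ d (i + 1) = true) → ∀ r r', r ∈ used T a i → r' ∈ used T a i →
      (Sep b (i + 1) r r' ∨ Sep b (i + 1) r' r) →
      ¬ (modD n T a b d (i + 1) : ℤ) ∣
        SS n a b d r (2 * i + 2) - SS n a b d r' (2 * i + 2) := by
    rintro ⟨hi2, hdr⟩ r r' hr hr' hs
    have hA : Alternating T a b (i + 1) := by
      rcases hb (i + 1) (by omega) hdr with h | ⟨-, -, h⟩
      · exact h
      · have h4 := h (by omega)
        have e : i + 1 - 1 = i := by omega
        rw [e] at h4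
        exact absurd h4 hG
    obtain ⟨hX, -, -, -⟩ := full_block n T a b d hT hd (i + 1) (by omega) hdr hA
    have e : 2 * i + 2 = 2 * (i + 1) := by ring
    rw [e]
    rw [mem_used] at hr hr'
    rcases hs with hs | hs
    · exact (hX r r' (hlt hs) hr'.1 hs).1
    · exact (hX r' r (hlt hs) hr.1 hs).2
  rcases hcol with ⟨h3, h4, h5⟩ | ⟨h4, h5, h6⟩
  · refine solv_le_three _ _ hp hp' _ _ _ _ hm h3 ?_ ?_
    · intro r hr r' hr' hrr hdd
      rcases Nat.lt_or_gt_of_ne hrr with h | h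
      · rcases h4 r hr r' hr' h with ⟨hL, h6⟩ | ⟨hR, h6⟩
        · exact hYd hL r r' hr hr' (Or.inl h6) hdd.1
        · exact hXd hR r r' hr hr' (Or.inl h6) hdd.2
      · rcases h4 r' hr' r hr h with ⟨hL, h6⟩ | ⟨hR, h6⟩
        · exact hYd hL r r' hr hr' (Or.inr h6) hdd.1
        · exact hXd hR r r' hr hr' (Or.inr h6) hdd.2
    · intro h6
      rcases h5 h6 with h7 | ⟨⟨hL, s, hs, t, ht, hst⟩, ⟨hR, s', hs', t', ht', hst'⟩⟩
      · left
        intro r hr
        have h8 := hm r hr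
        have h9 : r ∉ twos T a i := by
          rw [Finset.card_eq_zero.1 h7]; simp
        rw [mem_twos] at h9
        rw [mem_used] at hr
        have h10 : (a r i).natAbs ≠ 2 := fun h => h9 ⟨hr.1, h⟩
        omega
      · right
        exact ⟨⟨s, hs, t, ht, hYd hL s t hs ht (Or.inl hst)⟩,
          ⟨s', hs', t', ht', hXd hR s' t' hs' ht' (Or.inl hst')⟩⟩
  · have hdY : ∀ r ∈ used T a i, ∀ r' ∈ used T a i, r ≠ r' →
        ¬ (modD n T a b d (fmx d (bk d i)) : ℤ) ∣
          SS n a b d r (2 * i + 1) - SS n a b d r' (2 * i + 1) := by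
      intro r hr r' hr' hrr
      rcases Nat.lt_or_gt_of_ne hrr with h | h
      · obtain ⟨⟨hL, h7⟩, -⟩ := h6 r hr r' hr' h
        exact hYd hL r r' hr hr' (Or.inl h7)
      · obtain ⟨⟨hL, h7⟩, -⟩ := h6 r' hr' r hr h
        exact hYd hL r r' hr hr' (Or.inr h7)
    have hdX : ∀ r ∈ used T a i, ∀ r' ∈ used T a i, r ≠ r' →
        ¬ (modD n T a b d (i + 1) : ℤ) ∣
          SS n a b d r (2 * i + 2) - SS n a b d r' (2 * i + 2) := by
      intro r hr r' hr' hrr
      rcases Nat.lt_or_gt_of_ne hrr with h | h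
      · obtain ⟨-, hR, h7⟩ := h6 r hr r' hr' h
        exact hXd hR r r' hr hr' (Or.inl h7)
      · obtain ⟨-, hR, h7⟩ := h6 r' hr' r hr h
        exact hXd hR r r' hr hr' (Or.inr h7)
    have h6 : 3 ≤ ((used T a i) \ (twos T a i)).card := by
      have := Finset.le_card_sdiff (twos T a i) (used T a i)
      omega
    obtain ⟨U, hU, hU3⟩ := Finset.exists_subset_card_eq h6
    have hUK : U ⊆ used T a i := hU.trans Finset.sdiff_subset
    have h7 : ((used T a i) \ U).card = 1 := by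
      rw [Finset.card_sdiff_of_subset hUK]; omega
    obtain ⟨r₂, hr₂⟩ := Finset.card_eq_one.1 h7
    obtain ⟨r₀, r₁, r₃, d01, d03, d13, hU'⟩ := Finset.card_eq_three.1 hU3
    have hr₂K : r₂ ∈ (used T a i) \ U := by rw [hr₂]; simp
    rw [Finset.mem_sdiff] at hr₂K
    have m0 : r₀ ∈ U := by rw [hU']; simp
    have m1 : r₁ ∈ U := by rw [hU']; simp
    have m3 : r₃ ∈ U := by rw [hU']; simp
    have big : ∀ r ∈ U, 3 ≤ (a r i).natAbs := by
      intro r hr
      have h8 := hm r (hUK hr)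
      have h9 := hU hr
      rw [Finset.mem_sdiff, mem_twos, mem_used] at h9
      have h10 : (a r i).natAbs ≠ 2 := fun h => h9.2 ⟨h9.1.1, h⟩
      omega
    have hK : ∀ r ∈ used T a i, r = r₀ ∨ r = r₁ ∨ r = r₂ ∨ r = r₃ := by
      intro r hr
      by_cases hrU : r ∈ U
      · rw [hU'] at hrU
        simp only [Finset.mem_insert, Finset.mem_singleton] at hrU
        tauto
      · have : r ∈ (used T a i) \ U := Finset.mem_sdiff.2 ⟨hr, hrU⟩
        rw [hr₂, Finset.mem_singleton] at this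
        tauto
    have hK' : ∀ r, (r = r₀ ∨ r = r₁ ∨ r = r₂ ∨ r = r₃) → r ∈ used T a i := by
      rintro r (rfl | rfl | rfl | rfl)
      · exact hUK m0
      · exact hUK m1
      · exact hr₂K.1
      · exact hUK m3
    refine solv_four _ _ hp hp' _ _ _ r₀ r₁ r₂ r₃ _ hK (big _ m0) (big _ m1)
      (hm _ hr₂K.1) (big _ m3) ?_ d01 ?_ d03 ?_ d13 ?_
    · intro r r' hr hr' hrr
      exact ⟨hdY r (hK' r hr) r' (hK' r' hr') hrr, hdX r (hK' r hr) r' (hK' r' hr') hrr⟩
    · rintro rfl; exact hr₂K.2 m0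
    · rintro rfl; exact hr₂K.2 m1
    · rintro rfl; exact hr₂K.2 m3

/-- The theorem on chains of two-bridge links. -/
theorem chain (hT : 1 ≤ T) (hd : ∀ i, d i = true → ¬ d (i + 1) = true)
    (hb : ∀ i, i + 1 < n → d i = true → Block n T a b i)
    (hc : ∀ i, i + 1 < n → ¬ d i = true →
      Column T a b i (0 < i ∧ d (i - 1) = true) (i + 2 < n ∧ d (i + 1) = true)) :
    IsLeast (MerGen n (rows n a b T)) n := by
  have hs : ∀ i, ∃ M M' : ℕ → ℕ → ℂ, i + 1 < n → ¬ d i = true → ∀ r ∈ used T a i, ∃ m : ℕ,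
      OrdC m (ev (modD n T a b d (fmx d (bk d i))) (modD n T a b d (i + 1)) M
          (SS n a b d r (2 * i + 1)) (SS n a b d r (2 * i + 2)))
        (ev (modD n T a b d (fmx d (bk d i))) (modD n T a b d (i + 1)) M'
          (SS n a b d r (2 * i + 1)) (SS n a b d r (2 * i + 2))) ∧ (m : ℤ) ∣ a r i := by
    intro i
    by_cases hi : i + 1 < n
    · by_cases hdi : d i = true
      · exact ⟨fun _ _ => 0, fun _ _ => 0, fun _ h => absurd hdi h⟩
      · obtain ⟨M, M', h⟩ := solv_all n T a b d hT hd hb hc i hi hdi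
        exact ⟨M, M', fun _ _ => h⟩
    · exact ⟨fun _ _ => 0, fun _ _ => 0, fun h => absurd h hi⟩
  choose M M' hM using hs
  let D : Chain := ⟨fun c => modD n T a b d (fmx d c), fun c => M (fmx d (c + 1) - 1),
    fun c => M' (fmx d (c + 1) - 1)⟩
  have hD : ∀ i, i < n → 2 ≤ D.p (bk d i) := fun i _ => mod_two_le n T a b d _
  have hmeet : ∀ t, t ≤ T → ∀ i, i + 1 < n → ¬ d i = true →
      Meets D (bk d) (SS n a b d t) (2 * i + 1) (a t i) := by
    intro t ht i hi hdi
    by_cases h0 : a t i = 0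
    · exact Or.inl h0
    · right
      have e1 : (2 * i + 1) / 2 = i := by omega
      have e2 : fmx d (bk d i + 1) = i + 1 := by
        rw [← bk_next d i hdi]
        exact fmx_first d (i + 1) (Or.inr hdi)
      have e3 : D.M (bk d i) = M i := by
        change M (fmx d (bk d i + 1) - 1) = M i
        rw [e2]; rfl
      have e4 : D.M' (bk d i) = M' i := by
        change M' (fmx d (bk d i + 1) - 1) = M' i
        rw [e2]; rfl
      have e5 : D.p (bk d i + 1) = modD n T a b d (i + 1) := by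
        change modD n T a b d (fmx d (bk d i + 1)) = _
        rw [e2]
      rw [e1, e3, e4, e5]
      exact hM i hi hdi t ((mem_used T a _ _).2 ⟨ht, h0⟩)
  have hg := rows_good n T a b d D hmeet
  refine mainD D (bk d) (pl d) n hD (pl_le d)
    (fun i _ j _ h => idx_inj d hd i j h) _ (hg.good ?_)
  intro q hq
  have hdiv : ∀ i, i + 1 < n → d i = true →
      (modD n T a b d i : ℤ) ∣ FF n a b d T (2 * i) - FF n a b d T (2 * i + 1) ∧
      (modD n T a b d i : ℤ) ∣ FF n a b d T (2 * i + 2) - FF n a b d T (2 * i + 3) := by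
    intro i h1 h2
    rcases hb i h1 h2 with h3 | ⟨h3, -, -⟩
    · exact (full_block n T a b d hT hd i h1 h2 h3).2.2
    · exact gen_block n T a b d hd i h1 h2 h3
  change (modD n T a b d (fmx d (bk d q)) : ℤ) ∣ _
  by_cases hl : q = 0 ∨ ¬ d (q - 1) = true
  · rw [fmx_first d q hl]
    by_cases hr : q < n - 1 ∧ d q = true
    · exact (hdiv q (by omega) hr.2).1
    · rw [(single_block n T a b d q hq hl hr).2]
      simp
  · obtain ⟨k, rfl⟩ : ∃ k, q = k + 1 := ⟨q - 1, by omega⟩
    have hdk : d k = true := by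
      by_contra h
      exact hl (Or.inr h)
    rw [fmx_second d hd k hdk]
    have e1 : 2 * (k + 1) = 2 * k + 2 := by ring
    have e2 : 2 * (k + 1) + 1 = 2 * k + 3 := by ring
    rw [e2, e1]
    exact (hdiv k (by omega) hdk).2

end

theorem bridgeD {n n' : ℕ} {w w' : List (ℕ × ℤ)} (h : IsLeast (MerGen n w) n)
    (φ : PlatGroup n' w' ≃* PlatGroup n w) (hφ : ∀ x, IsMeridian x → IsMeridian (φ x)) :
    n ≤ n' := bridge h φ hφ

theorem rows_pos (n : ℕ) (hn : 1 ≤ n) (a b : ℕ → ℕ → ℤ) (T : ℕ) :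
    ∀ c ∈ rows n a b T, c.1 + 1 < 2 * n := by
  have he : ∀ f, ∀ c ∈ evenRow n f, c.1 + 1 < 2 * n := by
    intro f c hc
    simp only [evenRow, List.mem_map, List.mem_range] at hc
    obtain ⟨i, hi, rfl⟩ := hc
    change 2 * i + 1 + 1 < 2 * n
    omega
  have ho : ∀ f, ∀ c ∈ oddRow n f, c.1 + 1 < 2 * n := by
    intro f c hc
    simp only [oddRow, List.mem_map, List.mem_range] at hc
    obtain ⟨i, hi, rfl⟩ := hc
    change 2 * i + 1 < 2 * n
    omega
  induction T with
  | zero => exact he _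
  | succ t ih =>
    intro c hc
    change c ∈ rows n a b t ++ (oddRow n (b t) ++ evenRow n (a (t + 1))) at hc
    rw [List.mem_append, List.mem_append] at hc
    rcases hc with hc | hc | hc
    · exact ih c hc
    · exact ho _ c hc
    · exact he _ c hc

theorem platNum {n : ℕ} {w : List (ℕ × ℤ)} (h : IsLeast (MerGen n w) n)
    (hw : ∀ c ∈ w, c.1 + 1 < 2 * n) : IsLeast (PlatNum n w) n := by
  refine ⟨⟨w, hw, MulEquiv.refl _, fun x => Iff.rfl⟩, ?_⟩
  rintro n' ⟨w', -, φ, hφ⟩
  exact bridgeD h φ (fun x hx => (hφ x).1 hx)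

end Pool.Helper37.MR.D
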