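import Pool.Agent.Helper37.MR.Main

namespace Pool.Helper37.MR

/-- The word carries the colours `s` to `s'`. -/
def GoodTo (D : Data) (n : ℕ) : List (ℕ × ℤ) → (ℕ → ℤ) → (ℕ → ℤ) → Prop
  | [], s, s' => s = s'
  | c :: w, s, s' => c.1 + 1 < 2 * n ∧
      ((c.1 % 4 ≠ 3 ∧ GoodTo D n w (shift s c.1 c.2) s') ∨
        (c.1 % 4 = 3 ∧ Meets D s c.1 c.2 ∧ GoodTo D n w s s'))

theorem GoodTo.append {D : Data} {n : ℕ} {u v : List (ℕ × ℤ)} : ∀ {s s' s'' : ℕ → ℤ},
    GoodTo D n u s s' → GoodTo D n v s' s'' → GoodTo D n (u ++ v) s s'' := by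
  induction u with
  | nil => intro s s' s'' h1 h2; cases h1; exact h2
  | cons c u ih =>
    intro s s' s'' h1 h2
    obtain ⟨h3, h4⟩ := h1
    refine ⟨h3, ?_⟩
    rcases h4 with ⟨h4, h5⟩ | ⟨h4, h5, h6⟩
    · exact Or.inl ⟨h4, ih h5 h2⟩
    · exact Or.inr ⟨h4, h5, ih h6 h2⟩

theorem GoodTo.good {D : Data} {n : ℕ} {w : List (ℕ × ℤ)} : ∀ {s s' : ℕ → ℤ},
    GoodTo D n w s s' →
    (∀ q, q < n → (D.p (q / 2) : ℤ) ∣ s' (2 * q) - s' (2 * q + 1)) → Good D n w s := by
  induction w with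
  | nil => intro s s' h1 h2; cases h1; exact h2
  | cons c u ih =>
    intro s s' h1 h2
    obtain ⟨h3, h4⟩ := h1
    refine ⟨h3, ?_⟩
    rcases h4 with ⟨h4, h5⟩ | ⟨h4, h5, h6⟩
    · exact Or.inl ⟨h4, ih h5 h2⟩
    · exact Or.inr ⟨h4, h5, ih h6 h2⟩

/-- Colours after (the first `m` syllables of) an even row. -/
def evenEnd (m : ℕ) (f : ℕ → ℤ) (s : ℕ → ℤ) : ℕ → ℤ := fun q =>
  if (q % 4 = 1 ∨ q % 4 = 2) ∧ 2 * (q / 4) < m then
    s q + f (2 * (q / 4)) * (s (4 * (q / 4) + 1) - s (4 * (q / 4) + 2)) else s q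

/-- Colours after (the first `m` syllables of) an odd row. -/
def oddEnd (m : ℕ) (f : ℕ → ℤ) (s : ℕ → ℤ) : ℕ → ℤ := fun q =>
  if q / 2 < m then s q + f (q / 2) * (s (2 * (q / 2)) - s (2 * (q / 2) + 1)) else s q

theorem Meets.congr {D : Data} {s s' : ℕ → ℤ} {i : ℕ} {k : ℤ} (h : Meets D s i k)
    (h1 : s' i = s i) (h2 : s' (i + 1) = s (i + 1)) : Meets D s' i k := by
  unfold Meets at *
  rw [h1, h2]
  exact h

theorem even_row (D : Data) (n : ℕ) (f : ℕ → ℤ) (s : ℕ → ℤ)
    (h : ∀ j, 2 * j + 2 < n → Meets D s (4 * j + 3) (f (2 * j + 1))) :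
    GoodTo D n (evenRow n f) s (evenEnd (n - 1) f s) := by
  have key : ∀ m, m ≤ n - 1 →
      GoodTo D n ((List.range m).map (fun i => (2 * i + 1, f i))) s (evenEnd m f s) := by
    intro m
    induction m with
    | zero =>
      intro _
      change s = evenEnd 0 f s
      funext q
      simp [evenEnd]
    | succ m ih =>
      intro hm
      rw [List.range_succ, List.map_append]
      refine (ih (by omega)).append ?_
      refine ⟨by change 2 * m + 1 + 1 < 2 * n; omega, ?_⟩
      rcases Nat.even_or_odd' m with ⟨j, hj | hj⟩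
      · left
        refine ⟨by change (2 * m + 1) % 4 ≠ 3; omega, ?_⟩
        change shift (evenEnd m f s) (2 * m + 1) (f m) = evenEnd (m + 1) f s
        funext q
        have e1 : evenEnd m f s (2 * m + 1) = s (2 * m + 1) := by
          unfold evenEnd
          rw [if_neg (by omega)]
        have e2 : evenEnd m f s (2 * m + 1 + 1) = s (2 * m + 1 + 1) := by
          unfold evenEnd
          rw [if_neg (by omega)]
        unfold shift
        rw [e1, e2]
        by_cases h1 : q = 2 * m + 1 ∨ q = 2 * m + 1 + 1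
        · rw [if_pos h1]
          unfold evenEnd
          have h2 : ¬ ((q % 4 = 1 ∨ q % 4 = 2) ∧ 2 * (q / 4) < m) := by omega
          have h3 : (q % 4 = 1 ∨ q % 4 = 2) ∧ 2 * (q / 4) < m + 1 := by omega
          rw [if_neg h2, if_pos h3]
          have h4 : 2 * (q / 4) = m := by omega
          have h5 : 4 * (q / 4) + 1 = 2 * m + 1 := by omega
          have h6 : 4 * (q / 4) + 2 = 2 * m + 1 + 1 := by omega
          rw [h4, h5, h6]
        · rw [if_neg h1]
          unfold evenEnd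
          by_cases h2 : (q % 4 = 1 ∨ q % 4 = 2) ∧ 2 * (q / 4) < m
          · have h3 : (q % 4 = 1 ∨ q % 4 = 2) ∧ 2 * (q / 4) < m + 1 := by omega
            rw [if_pos h2, if_pos h3]
          · have h3 : ¬ ((q % 4 = 1 ∨ q % 4 = 2) ∧ 2 * (q / 4) < m + 1) := by omega
            rw [if_neg h2, if_neg h3]
      · right
        refine ⟨by change (2 * m + 1) % 4 = 3; omega, ?_, ?_⟩
        · have h1 := h j (by omega)
          have h2 : 2 * m + 1 = 4 * j + 3 := by omega
          change Meets D (evenEnd m f s) (2 * m + 1) (f m)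
          rw [h2]
          rw [← hj] at h1
          refine h1.congr ?_ ?_
          · unfold evenEnd
            rw [if_neg (by omega)]
          · unfold evenEnd
            rw [if_neg (by omega)]
        · change evenEnd m f s = evenEnd (m + 1) f s
          funext q
          unfold evenEnd
          by_cases h2 : (q % 4 = 1 ∨ q % 4 = 2) ∧ 2 * (q / 4) < m
          · have h3 : (q % 4 = 1 ∨ q % 4 = 2) ∧ 2 * (q / 4) < m + 1 := by omega
            rw [if_pos h2, if_pos h3]
          · have h3 : ¬ ((q % 4 = 1 ∨ q % 4 = 2) ∧ 2 * (q / 4) < m + 1) := by omega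
            rw [if_neg h2, if_neg h3]
  exact key (n - 1) le_rfl

theorem odd_row (D : Data) (n : ℕ) (f : ℕ → ℤ) (s : ℕ → ℤ) :
    GoodTo D n (oddRow n f) s (oddEnd n f s) := by
  have key : ∀ m, m ≤ n →
      GoodTo D n ((List.range m).map (fun i => (2 * i, f i))) s (oddEnd m f s) := by
    intro m
    induction m with
    | zero =>
      intro _
      change s = oddEnd 0 f s
      funext q
      simp [oddEnd]
    | succ m ih =>
      intro hm
      rw [List.range_succ, List.map_append]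
      refine (ih (by omega)).append ?_
      refine ⟨by change 2 * m + 1 < 2 * n; omega, ?_⟩
      left
      refine ⟨by change (2 * m) % 4 ≠ 3; omega, ?_⟩
      change shift (oddEnd m f s) (2 * m) (f m) = oddEnd (m + 1) f s
      funext q
      have e1 : oddEnd m f s (2 * m) = s (2 * m) := by
        unfold oddEnd
        rw [if_neg (by omega)]
      have e2 : oddEnd m f s (2 * m + 1) = s (2 * m + 1) := by
        unfold oddEnd
        rw [if_neg (by omega)]
      unfold shift
      rw [e1, e2]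
      by_cases h1 : q = 2 * m ∨ q = 2 * m + 1
      · rw [if_pos h1]
        unfold oddEnd
        have h2 : ¬ (q / 2 < m) := by omega
        have h3 : q / 2 < m + 1 := by omega
        rw [if_neg h2, if_pos h3]
        have h4 : q / 2 = m := by omega
        rw [h4]
      · rw [if_neg h1]
        unfold oddEnd
        by_cases h2 : q / 2 < m
        · have h3 : q / 2 < m + 1 := by omega
          rw [if_pos h2, if_pos h3]
        · have h3 : ¬ (q / 2 < m + 1) := by omega
          rw [if_neg h2, if_neg h3]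
  exact key n le_rfl

theorem evenEnd_0 (m : ℕ) (f s : ℕ → ℤ) (j : ℕ) : evenEnd m f s (4 * j) = s (4 * j) := by
  unfold evenEnd
  rw [if_neg (by omega)]

theorem evenEnd_1 (m : ℕ) (f s : ℕ → ℤ) (j : ℕ) (h : 2 * j < m) :
    evenEnd m f s (4 * j + 1) =
      s (4 * j + 1) + f (2 * j) * (s (4 * j + 1) - s (4 * j + 2)) := by
  unfold evenEnd
  rw [if_pos (by omega)]
  have h4 : (4 * j + 1) / 4 = j := by omega
  rw [h4]

theorem evenEnd_1' (m : ℕ) (f s : ℕ → ℤ) (j : ℕ) (h : ¬ 2 * j < m) :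
    evenEnd m f s (4 * j + 1) = s (4 * j + 1) := by
  unfold evenEnd
  rw [if_neg (by omega)]

theorem evenEnd_2 (m : ℕ) (f s : ℕ → ℤ) (j : ℕ) (h : 2 * j < m) :
    evenEnd m f s (4 * j + 2) =
      s (4 * j + 2) + f (2 * j) * (s (4 * j + 1) - s (4 * j + 2)) := by
  unfold evenEnd
  rw [if_pos (by omega)]
  have h4 : (4 * j + 2) / 4 = j := by omega
  rw [h4]

theorem evenEnd_3 (m : ℕ) (f s : ℕ → ℤ) (j : ℕ) :
    evenEnd m f s (4 * j + 3) = s (4 * j + 3) := by
  unfold evenEnd
  rw [if_neg (by omega)]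

theorem oddEnd_0 (m : ℕ) (f s : ℕ → ℤ) (j : ℕ) (h : 2 * j < m) :
    oddEnd m f s (4 * j) = s (4 * j) + f (2 * j) * (s (4 * j) - s (4 * j + 1)) := by
  unfold oddEnd
  rw [if_pos (by omega)]
  have h4 : 4 * j / 2 = 2 * j := by omega
  have h5 : 2 * (2 * j) = 4 * j := by omega
  rw [h4, h5]

theorem oddEnd_1 (m : ℕ) (f s : ℕ → ℤ) (j : ℕ) (h : 2 * j < m) :
    oddEnd m f s (4 * j + 1) = s (4 * j + 1) + f (2 * j) * (s (4 * j) - s (4 * j + 1)) := by
  unfold oddEnd
  rw [if_pos (by omega)]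
  have h4 : (4 * j + 1) / 2 = 2 * j := by omega
  have h5 : 2 * (2 * j) = 4 * j := by omega
  rw [h4, h5]

theorem oddEnd_2 (m : ℕ) (f s : ℕ → ℤ) (j : ℕ) (h : 2 * j + 1 < m) :
    oddEnd m f s (4 * j + 2) =
      s (4 * j + 2) + f (2 * j + 1) * (s (4 * j + 2) - s (4 * j + 3)) := by
  unfold oddEnd
  rw [if_pos (by omega)]
  have h4 : (4 * j + 2) / 2 = 2 * j + 1 := by omega
  have h5 : 2 * (2 * j + 1) = 4 * j + 2 := by omega
  rw [h4, h5]

theorem oddEnd_3 (m : ℕ) (f s : ℕ → ℤ) (j : ℕ) (h : 2 * j + 1 < m) :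
    oddEnd m f s (4 * j + 3) =
      s (4 * j + 3) + f (2 * j + 1) * (s (4 * j + 2) - s (4 * j + 3)) := by
  unfold oddEnd
  rw [if_pos (by omega)]
  have h4 : (4 * j + 3) / 2 = 2 * j + 1 := by omega
  have h5 : 2 * (2 * j + 1) = 4 * j + 2 := by omega
  rw [h4, h5]

theorem top_0 (j : ℕ) : top (4 * j) = 0 := by
  have h : 4 * j % 4 / 2 = 0 := by omega
  unfold top; rw [h]; rfl

theorem top_1 (j : ℕ) : top (4 * j + 1) = 0 := by
  have h : (4 * j + 1) % 4 / 2 = 0 := by omega
  unfold top; rw [h]; rfl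

theorem top_2 (j : ℕ) : top (4 * j + 2) = 1 := by
  have h : (4 * j + 2) % 4 / 2 = 1 := by omega
  unfold top; rw [h]; rfl

theorem top_3 (j : ℕ) : top (4 * j + 3) = 1 := by
  have h : (4 * j + 3) % 4 / 2 = 1 := by omega
  unfold top; rw [h]; rfl

/-- The inequalities, all exponents of the even column positive. -/
theorem arith_pos (a b b' c d d' e : ℤ) (ha : 0 < a) (hc : 0 < c) (he : 0 < e) (hb : b < 0)
    (hb' : b' < 0) (hd : d < 0) (hd' : d' < 0) (r1 q2 r2 P : ℤ) (h1 : r1 = 1 - a * (b + b'))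
    (h2 : q2 = a + c * r1) (h3 : r2 = r1 - (d + d') * q2) (h4 : P = q2 + e * r2) :
    2 ≤ P ∧ 0 < -(a * b) ∧ 0 < -(a * b') ∧ 0 < -(d * q2) ∧ 0 < -(d' * q2) ∧
      -(a * b) + -(d * q2) < P ∧ -(a * b') + -(d' * q2) < P := by
  have k1 : 0 < -(a * b) := by nlinarith
  have k2 : 0 < -(a * b') := by nlinarith
  have k3 : 0 < r1 := by rw [h1]; nlinarith
  have k4 : 0 < c * r1 := mul_pos hc k3
  have k5 : 0 < q2 := by rw [h2]; linarith
  have k6 : 0 < -(d * q2) := by nlinarith
  have k7 : 0 < -(d' * q2) := by nlinarith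
  have k8 : r2 = 1 + -(a * b) + -(a * b') + -(d * q2) + -(d' * q2) := by
    rw [h3, h1]; ring
  have k9 : 0 < r2 := by linarith
  have k10 : r2 ≤ e * r2 := by nlinarith
  refine ⟨?_, k1, k2, k6, k7, ?_, ?_⟩
  · rw [h4]; linarith
  · rw [h4]; linarith
  · rw [h4]; linarith

theorem not_dvd_aux {P x : ℤ} (h1 : 0 < x) (h2 : x < P) : ¬ P ∣ x := by
  intro h
  have := Int.le_of_dvd h1 h
  omega

/-- Non-divisibility for one block. -/
theorem arith (a b b' c d d' e : ℤ) (h1 : a * b < 0) (h2 : a * b' < 0) (h3 : a * d < 0)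
    (h4 : a * d' < 0) (h5 : c * b < 0) (h6 : e * b < 0) (r1 q2 r2 P : ℤ)
    (g1 : r1 = 1 - a * (b + b')) (g2 : q2 = a + c * r1) (g3 : r2 = r1 - (d + d') * q2)
    (g4 : P = q2 + e * r2) :
    2 ≤ P.natAbs ∧ ¬ P ∣ a * b ∧ ¬ P ∣ a * b' ∧ ¬ P ∣ d * q2 ∧ ¬ P ∣ d' * q2 ∧
      ¬ P ∣ a * b + d * q2 ∧ ¬ P ∣ a * b' + d' * q2 := by
  have ha : a ≠ 0 := by rintro rfl; simp at h1
  rcases lt_or_gt_of_ne ha with ha | ha
  · have hb : 0 < b := by nlinarith
    have hb' : 0 < b' := by nlinarith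
    have hd : 0 < d := by nlinarith
    have hd' : 0 < d' := by nlinarith
    have hc : c < 0 := by nlinarith
    have he : e < 0 := by nlinarith
    obtain ⟨k1, k2, k3, k4, k5, k6, k7⟩ := arith_pos (-a) (-b) (-b') (-c) (-d) (-d') (-e)
      (by linarith) (by linarith) (by linarith) (by linarith) (by linarith) (by linarith)
      (by linarith) r1 (-q2) r2 (-P) (by rw [g1]; ring) (by rw [g2]; ring)
      (by rw [g3]; ring) (by rw [g4]; ring)
    have e1 : - -a * -b = -(a * b) := by ring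
    have f : ∀ x : ℤ, 0 < -x → -x < -P → ¬ P ∣ x := by
      intro x hx1 hx2 hx
      exact not_dvd_aux hx1 hx2 (by rw [neg_dvd, dvd_neg]; exact hx)
    refine ⟨by omega, f _ (by linarith) (by linarith), f _ (by linarith) (by linarith),
      f _ (by linarith) (by linarith), f _ (by linarith) (by linarith),
      f _ (by linarith) (by linarith), f _ (by linarith) (by linarith)⟩
  · have hb : b < 0 := by nlinarith
    have hb' : b' < 0 := by nlinarith
    have hd : d < 0 := by nlinarith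
    have hd' : d' < 0 := by nlinarith
    have hc : 0 < c := by nlinarith
    have he : 0 < e := by nlinarith
    obtain ⟨k1, k2, k3, k4, k5, k6, k7⟩ := arith_pos a b b' c d d' e
      ha hc he hb hb' hd hd' r1 q2 r2 P g1 g2 g3 g4
    have f : ∀ x : ℤ, 0 < -x → -x < P → ¬ P ∣ x := by
      intro x hx1 hx2 hx
      exact not_dvd_aux hx1 hx2 (by rw [dvd_neg]; exact hx)
    refine ⟨by omega, f _ (by linarith) (by linarith), f _ (by linarith) (by linarith),
      f _ (by linarith) (by linarith), f _ (by linarith) (by linarith),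
      f _ (by linarith) (by linarith), f _ (by linarith) (by linarith)⟩

end Pool.Helper37.MR
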