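import Pool.Agent.Helper37.MR.Core

namespace Pool.Helper37.MR

open Real

/-- Coordinates of `L`. -/
noncomputable def cf (φ : ℝ) (s : ℤ) : ℕ → ℝ := fun a =>
  if a = 0 then sin ((1 - s) * φ) / sin φ else sin (s * φ) / sin φ

theorem cf_det (φ : ℝ) (hφ : sin φ ≠ 0) (s t : ℤ) :
    cf φ s 0 * cf φ t 1 - cf φ s 1 * cf φ t 0 = sin ((t - s) * φ) / sin φ := by
  have a1 : (1 - (s : ℝ)) * φ = φ - s * φ := by ring
  have a2 : (1 - (t : ℝ)) * φ = φ - t * φ := by ring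
  have a3 : ((t : ℝ) - s) * φ = t * φ - s * φ := by ring
  simp only [cf, if_true, one_ne_zero, if_false]
  rw [a1, a2, a3, sin_sub, sin_sub, sin_sub]
  generalize sin ((s : ℝ) * φ) = A at *
  generalize sin ((t : ℝ) * φ) = A' at *
  generalize cos ((s : ℝ) * φ) = C at *
  generalize cos ((t : ℝ) * φ) = C' at *
  generalize sin φ = S at *
  generalize cos φ = K at *
  field_simp
  ring

theorem sin_ne (p : ℕ) (hp : 2 ≤ p) (c : ℤ) (h : ¬ (p : ℤ) ∣ c) :
    sin ((c : ℝ) * (π / p)) ≠ 0 := by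
  intro h0
  rw [sin_eq_zero_iff] at h0
  obtain ⟨n, hn⟩ := h0
  have hp0 : (p : ℝ) ≠ 0 := by positivity
  have hpi := pi_ne_zero
  apply h
  refine ⟨n, ?_⟩
  have : (c : ℝ) = p * n := by
    field_simp at hn
    linarith
  exact_mod_cast this

theorem fn (p : ℕ) (hp : 2 ≤ p) (P : Prop) (y y' : ℤ) (h : P → ¬ (p : ℤ) ∣ y - y') :
    ∃ f : ℕ → ℝ, f 0 * cf (π / p) y 0 + f 1 * cf (π / p) y 1 = 1 ∧
      (P → f 0 * cf (π / p) y' 0 + f 1 * cf (π / p) y' 1 = 0) := by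
  have hs : sin (π / p) ≠ 0 := (sin_pi_div p hp).ne'
  have core : ∀ y'' : ℤ, ¬ (p : ℤ) ∣ y - y'' → ∃ f : ℕ → ℝ,
      f 0 * cf (π / p) y 0 + f 1 * cf (π / p) y 1 = 1 ∧
      f 0 * cf (π / p) y'' 0 + f 1 * cf (π / p) y'' 1 = 0 := by
    intro y'' hy
    have hd := cf_det (π / p) hs y y''
    have hne : cf (π / p) y 0 * cf (π / p) y'' 1 - cf (π / p) y 1 * cf (π / p) y'' 0 ≠ 0 := by
      rw [hd]
      have h1 : ¬ (p : ℤ) ∣ y'' - y := by
        intro h2; apply hy; rw [← neg_sub]; exact (dvd_neg).2 h2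
      have := sin_ne p hp (y'' - y) h1
      push_cast at this
      exact div_ne_zero this hs
    set d := cf (π / p) y 0 * cf (π / p) y'' 1 - cf (π / p) y 1 * cf (π / p) y'' 0 with hdd
    refine ⟨fun a => if a = 0 then cf (π / p) y'' 1 / d else - cf (π / p) y'' 0 / d, ?_, ?_⟩
    · simp only [if_true, one_ne_zero, if_false]
      field_simp
      rw [hdd]; ring
    · simp only [if_true, one_ne_zero, if_false]
      field_simp
      ring
  by_cases hP : P
  · obtain ⟨f, h1, h2⟩ := core y' (h hP)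
    exact ⟨f, h1, fun _ => h2⟩
  · obtain ⟨f, h1, -⟩ := core (y + 1) (by
      have e : y - (y + 1) = -1 := by ring
      rw [e]
      intro h2
      have h3 := Int.le_of_dvd (by norm_num) ((dvd_neg).2 h2)
      have : (2 : ℤ) ≤ p := by exact_mod_cast hp
      linarith)
    exact ⟨f, h1, fun h => absurd h hP⟩

theorem f3a : ∀ r : Fin 3, r ≠ r + 1 := by decide

theorem f3b : ∀ r : Fin 3, r ≠ r + 2 := by decide

theorem f3c : ∀ r q : Fin 3, r = q ∨ q = r + 1 ∨ q = r + 2 := by decide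

theorem prop_aux (m1 m2 a1 a2 b1 b2 : Prop) (hA : ¬ ((m1 → ¬ a1) ∧ (m2 → ¬ b2)))
    (hC : ¬ ((m2 → ¬ a2) ∧ (m1 → ¬ b1))) (d1 : m1 → ¬ (a1 ∧ b1)) (d2 : m2 → ¬ (a2 ∧ b2))
    (d3 : m1 → m2 → ¬ (a1 ∧ a2) ∧ ¬ (b1 ∧ b2)) : False := by
  by_cases h1 : m1 <;> by_cases h2 : m2 <;> by_cases h3 : a1 <;> by_cases h4 : a2 <;>
    by_cases h5 : b1 <;> by_cases h6 : b2 <;> simp_all

/-- The off-diagonal block. -/
theorem block (p p' : ℕ) (hp : 2 ≤ p) (hp' : 2 ≤ p') (Y X : Fin 3 → ℤ) (m : Fin 3 → ℕ)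
    (h : ∀ r r' : Fin 3, r ≠ r' → 2 ≤ m r → 2 ≤ m r' →
      ¬ ((p : ℤ) ∣ Y r - Y r' ∧ (p' : ℤ) ∣ X r - X r'))
    (h3 : (∀ r : Fin 3, 2 ≤ m r) → ¬ (∀ r r' : Fin 3, (p : ℤ) ∣ Y r - Y r') ∧
      ¬ (∀ r r' : Fin 3, (p' : ℤ) ∣ X r - X r')) :
    ∃ M : ℕ → ℕ → ℝ, ∀ r, 2 ≤ m r →
      cf (π / p) (Y r) 0 * M 0 0 * cf (π / p') (X r) 0 +
      cf (π / p) (Y r) 0 * M 0 1 * cf (π / p') (X r) 1 +
      cf (π / p) (Y r) 1 * M 1 0 * cf (π / p') (X r) 0 +
      cf (π / p) (Y r) 1 * M 1 1 * cf (π / p') (X r) 1 = 2 * cos (π / m r) := by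
  have hfg : ∀ r : Fin 3, ∃ f k : ℕ → ℝ, 2 ≤ m r →
      (f 0 * cf (π / p) (Y r) 0 + f 1 * cf (π / p) (Y r) 1 = 1 ∧
      k 0 * cf (π / p') (X r) 0 + k 1 * cf (π / p') (X r) 1 = 1) ∧
      ∀ q, q ≠ r → 2 ≤ m q → (f 0 * cf (π / p) (Y q) 0 + f 1 * cf (π / p) (Y q) 1 = 0 ∨
        k 0 * cf (π / p') (X q) 0 + k 1 * cf (π / p') (X q) 1 = 0) := by
    intro r
    by_cases hr : 2 ≤ m r
    · have main : ∀ q1 q2 : Fin 3, (∀ q, q ≠ r → q = q1 ∨ q = q2) →
          (2 ≤ m q1 → ¬ (p : ℤ) ∣ Y r - Y q1) → (2 ≤ m q2 → ¬ (p' : ℤ) ∣ X r - X q2) →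
          ∃ f k : ℕ → ℝ, 2 ≤ m r →
      (f 0 * cf (π / p) (Y r) 0 + f 1 * cf (π / p) (Y r) 1 = 1 ∧
      k 0 * cf (π / p') (X r) 0 + k 1 * cf (π / p') (X r) 1 = 1) ∧
      ∀ q, q ≠ r → 2 ≤ m q → (f 0 * cf (π / p) (Y q) 0 + f 1 * cf (π / p) (Y q) 1 = 0 ∨
        k 0 * cf (π / p') (X q) 0 + k 1 * cf (π / p') (X q) 1 = 0) := by
        intro q1 q2 hq h1 h2
        obtain ⟨f, hf1, hf2⟩ := fn p hp (2 ≤ m q1) (Y r) (Y q1) h1
        obtain ⟨k, hk1, hk2⟩ := fn p' hp' (2 ≤ m q2) (X r) (X q2) h2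
        refine ⟨f, k, fun _ => ⟨⟨hf1, hk1⟩, ?_⟩⟩
        intro q hqr hmq
        rcases hq q hqr with h4 | h4
        · left; rw [h4] at hmq ⊢; exact hf2 hmq
        · right; rw [h4] at hmq ⊢; exact hk2 hmq
      by_cases hA : (2 ≤ m (r + 1) → ¬ (p : ℤ) ∣ Y r - Y (r + 1)) ∧
          (2 ≤ m (r + 2) → ¬ (p' : ℤ) ∣ X r - X (r + 2))
      · exact main (r + 1) (r + 2) (fun q hq => by
          rcases f3c r q with h4 | h4 | h4
          · exact absurd h4.symm hq
          · exact Or.inl h4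
          · exact Or.inr h4) hA.1 hA.2
      · by_cases hC : (2 ≤ m (r + 2) → ¬ (p : ℤ) ∣ Y r - Y (r + 2)) ∧
          (2 ≤ m (r + 1) → ¬ (p' : ℤ) ∣ X r - X (r + 1))
        · exact main (r + 2) (r + 1) (fun q hq => by
            rcases f3c r q with h4 | h4 | h4
            · exact absurd h4.symm hq
            · exact Or.inr h4
            · exact Or.inl h4) hC.1 hC.2
        · exfalso
          have d1 := h r (r + 1) (f3a r) hr
          have d2 := h r (r + 2) (f3b r) hr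
          have hall : 2 ≤ m (r + 1) → 2 ≤ m (r + 2) → ∀ q, 2 ≤ m q := by
            intro e1 e2 q
            rcases f3c r q with h4 | h4 | h4
            · rw [← h4]; exact hr
            · rw [h4]; exact e1
            · rw [h4]; exact e2
          have hdiv : ∀ (P : ℤ) (Z : Fin 3 → ℤ), P ∣ Z r - Z (r + 1) → P ∣ Z r - Z (r + 2) →
              ∀ q q' : Fin 3, P ∣ Z q - Z q' := by
            intro P Z e1 e2
            have e3 : ∀ q, P ∣ Z r - Z q := by
              intro q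
              rcases f3c r q with h4 | h4 | h4
              · rw [← h4]; simp
              · rw [h4]; exact e1
              · rw [h4]; exact e2
            intro q q'
            have e4 := dvd_sub (e3 q') (e3 q)
            have e5 : Z r - Z q' - (Z r - Z q) = Z q - Z q' := by ring
            rwa [e5] at e4
          have k1 := hdiv (p : ℤ) Y
          have k2 := hdiv (p' : ℤ) X
          refine prop_aux _ _ _ _ _ _ hA hC d1 d2 ?_
          intro m1 m2
          have d3 := h3 (hall m1 m2)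
          exact ⟨fun h5 => d3.1 (k1 h5.1 h5.2), fun h5 => d3.2 (k2 h5.1 h5.2)⟩
    · exact ⟨fun _ => 0, fun _ => 0, fun h4 => absurd h4 hr⟩
  choose f k hfk using hfg
  refine ⟨fun a b => ∑ r : Fin 3, if 2 ≤ m r then 2 * cos (π / m r) * (f r a * k r b) else 0, ?_⟩
  intro q hq
  have key : ∀ r : Fin 3, (if 2 ≤ m r then 2 * cos (π / m r) *
      ((f r 0 * cf (π / p) (Y q) 0 + f r 1 * cf (π / p) (Y q) 1) *
        (k r 0 * cf (π / p') (X q) 0 + k r 1 * cf (π / p') (X q) 1)) else 0) =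
      if r = q then 2 * cos (π / m q) else 0 := by
    intro r
    by_cases hr : 2 ≤ m r
    · rw [if_pos hr]
      obtain ⟨⟨h4, h5⟩, h6⟩ := hfk r hr
      by_cases hrq : r = q
      · subst hrq
        rw [h4, h5]; simp
      · rw [if_neg hrq]
        rcases h6 q (Ne.symm hrq) hq with h7 | h7
        · rw [h7]; simp
        · rw [h7]; simp
    · rw [if_neg hr]
      have hrq : r ≠ q := by rintro rfl; exact hr hq
      rw [if_neg hrq]
  have hsum : ∑ r : Fin 3, (if 2 ≤ m r then 2 * cos (π / m r) *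
      ((f r 0 * cf (π / p) (Y q) 0 + f r 1 * cf (π / p) (Y q) 1) *
        (k r 0 * cf (π / p') (X q) 0 + k r 1 * cf (π / p') (X q) 1)) else 0) =
      2 * cos (π / m q) := by
    rw [Finset.sum_congr rfl (fun r _ => key r)]
    simp
  rw [← hsum]
  simp only [Finset.mul_sum, Finset.sum_mul, ← Finset.sum_add_distrib]
  apply Finset.sum_congr rfl
  intro r _
  split_ifs
  · ring
  · simp

/-- The basis vectors. -/
noncomputable def e (i : ℕ) : V := Finsupp.single i 1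

/-- The Gram matrix. -/
noncomputable def gram (th : ℕ → ℝ) (M : ℕ → ℕ → ℕ → ℝ) (i k : ℕ) : ℝ :=
  if i / 2 = k / 2 then (if i = k then 2 else 2 * cos (th (i / 2)))
  else if k / 2 = i / 2 + 1 then M (i / 2) (i % 2) (k % 2)
  else if i / 2 = k / 2 + 1 then M (k / 2) (k % 2) (i % 2) else 0

theorem gram_symm (th : ℕ → ℝ) (M : ℕ → ℕ → ℕ → ℝ) (i k : ℕ) :
    gram th M i k = gram th M k i := by
  unfold gram
  by_cases h1 : i / 2 = k / 2
  · rw [if_pos h1, if_pos h1.symm, h1]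
    by_cases h2 : i = k
    · rw [if_pos h2, if_pos h2.symm]
    · rw [if_neg h2, if_neg (Ne.symm h2)]
  · rw [if_neg h1, if_neg (Ne.symm h1)]
    by_cases h2 : k / 2 = i / 2 + 1
    · have h3 : ¬ i / 2 = k / 2 + 1 := by omega
      rw [if_pos h2, if_neg h3, if_pos h2]
    · rw [if_neg h2]
      by_cases h3 : i / 2 = k / 2 + 1
      · rw [if_pos h3, if_pos h3]
      · rw [if_neg h3, if_neg h3, if_neg h2]

theorem exists_form (D : Data) (n : ℕ) (hD : D.Adm n) :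
    ∃ B : V →ₗ[ℝ] V →ₗ[ℝ] ℝ, (∀ u v, B u v = B v u) ∧ (∀ i, B (e i) (e i) = 2) ∧
      (∀ j, B (e (2 * j)) (e (2 * j + 1)) = 2 * cos (π / D.p j)) ∧
      ∀ j, 2 * (j + 1) < n → ∀ r, 2 ≤ D.m j r →
        B (L (π / D.p j) (e (2 * j)) (e (2 * j + 1)) (D.Y j r))
          (L (π / D.p (j + 1)) (e (2 * (j + 1))) (e (2 * (j + 1) + 1)) (D.X j r)) =
        2 * cos (π / D.m j r) := by
  obtain ⟨hp, hadm⟩ := hD
  have hM : ∀ j : ℕ, ∃ M : ℕ → ℕ → ℝ, 2 * (j + 1) < n → ∀ r, 2 ≤ D.m j r →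
      cf (π / D.p j) (D.Y j r) 0 * M 0 0 * cf (π / D.p (j + 1)) (D.X j r) 0 +
      cf (π / D.p j) (D.Y j r) 0 * M 0 1 * cf (π / D.p (j + 1)) (D.X j r) 1 +
      cf (π / D.p j) (D.Y j r) 1 * M 1 0 * cf (π / D.p (j + 1)) (D.X j r) 0 +
      cf (π / D.p j) (D.Y j r) 1 * M 1 1 * cf (π / D.p (j + 1)) (D.X j r) 1 =
        2 * cos (π / D.m j r) := by
    intro j
    by_cases hj : 2 * (j + 1) < n
    · obtain ⟨M, hM⟩ := block (D.p j) (D.p (j + 1)) (hp j (by omega)) (hp (j + 1) hj)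
        (D.Y j) (D.X j) (D.m j) (hadm j hj).1 (hadm j hj).2
      exact ⟨M, fun _ => hM⟩
    · exact ⟨fun _ _ => 0, fun h => absurd h hj⟩
  choose M hM using hM
  let A : ℕ → ℕ → ℝ := gram (fun j => π / D.p j) M
  let B : V →ₗ[ℝ] V →ₗ[ℝ] ℝ :=
    Finsupp.linearCombination ℝ (fun i => Finsupp.linearCombination ℝ (A i))
  have hBe : ∀ i k, B (e i) (e k) = A i k := by
    intro i k
    simp [B, e, Finsupp.linearCombination_single]
  have hsymm : ∀ u v, B u v = B v u := by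
    have : B = B.flip := by
      ext i k
      have h1 := hBe i k
      have h2 := hBe k i
      simp only [e] at h1 h2
      simp only [LinearMap.coe_comp, Function.comp_apply, Finsupp.lsingle_apply,
        LinearMap.flip_apply]
      rw [h1, h2]
      exact gram_symm _ _ _ _
    intro u v
    conv_lhs => rw [this]
    rfl
  refine ⟨B, hsymm, ?_, ?_, ?_⟩
  · intro i
    rw [hBe]
    simp [A, gram]
  · intro j
    rw [hBe]
    have h1 : 2 * j / 2 = (2 * j + 1) / 2 := by omega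
    have h2 : 2 * j ≠ 2 * j + 1 := by omega
    have h3 : 2 * j / 2 = j := by omega
    simp only [A, gram]
    rw [if_pos h1, if_neg h2, h3]
  · intro j hj r hr
    have h := hM j hj r hr
    have hA : ∀ a b : ℕ, a < 2 → b < 2 → A (2 * j + a) (2 * (j + 1) + b) = M j a b := by
      intro a b ha hb
      simp only [A, gram]
      have h1 : ¬ (2 * j + a) / 2 = (2 * (j + 1) + b) / 2 := by omega
      have h2 : (2 * (j + 1) + b) / 2 = (2 * j + a) / 2 + 1 := by omega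
      have h3 : (2 * j + a) / 2 = j := by omega
      have h4 : (2 * j + a) % 2 = a := by omega
      have h5 : (2 * (j + 1) + b) % 2 = b := by omega
      rw [if_neg h1, if_pos h2, h3, h4, h5]
    have a00 := hA 0 0 (by omega) (by omega)
    have a01 := hA 0 1 (by omega) (by omega)
    have a10 := hA 1 0 (by omega) (by omega)
    have a11 := hA 1 1 (by omega) (by omega)
    simp only [add_zero] at a00 a01 a10
    simp only [cf, if_true, one_ne_zero, if_false] at h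
    unfold L
    simp only [map_add, map_smul, LinearMap.add_apply, LinearMap.smul_apply, smul_eq_mul]
    rw [hBe, hBe, hBe, hBe, a00, a01, a10, a11, ← h]
    ring

end Pool.Helper37.MR
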