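import Pool.Agent.Helper37.MR.Run

namespace Pool.Helper37.MR

open Real

/-- The reflection in a basis vector. -/
theorem exists_refl {B : V →ₗ[ℝ] V →ₗ[ℝ] ℝ} (h2 : ∀ i, B (e i) (e i) = 2) (i : ℕ) :
    ∃ h : V ≃ₗ[ℝ] V, Rep B h (e i) := by
  refine ⟨Module.reflection (x := e i) (f := B (e i)) (h2 i), ?_⟩
  intro u
  rw [Module.reflection_apply]

/-- The representation of the plat group. -/
theorem exists_rep {D : Data} {n : ℕ} (hD : D.Adm n) {w : List (ℕ × ℤ)}
    (hw : Good D n w top) : ∃ B : V →ₗ[ℝ] V →ₗ[ℝ] ℝ, (∀ i, B (e i) (e i) = 2) ∧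
    ∃ ρ : PlatGroup n w →* (V ≃ₗ[ℝ] V), ∀ i : Fin n,
      Rep B (ρ (PresentedGroup.of i)) (e i) := by
  obtain ⟨B, hB1, hB2, hB3, hB4⟩ := exists_form D n hD
  have hB : Form D n B := ⟨hB1, hB2, hB3, hB4⟩
  choose R hR using exists_refl hB2
  refine ⟨B, hB2, ?_⟩
  have hrel : ∀ r ∈ rels n w, FreeGroup.lift (fun i : Fin n => R i) r = 1 := by
    rintro r ⟨q, hq, rfl⟩
    rw [map_mul, run_map, run_map]
    refine run_good hD hB w _ top ?_ hw q hq
    intro a ha
    have hg : FreeGroup.lift (fun i : Fin n => R i) (gen n (a / 2)) = R (a / 2) := by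
      have h : a / 2 < n := by omega
      simp [gen, h]
    have hx : FreeGroup.lift (fun i : Fin n => R i) (cup (gen n) a) = R (a / 2) := by
      unfold cup
      split_ifs with h
      · exact hg
      · rw [map_inv, hg]
        exact inv_eq_of_mul_eq_one_left ((hR _).inv (hB2 _))
    rw [hx]
    have hs := (sin_pi_div _ (hD.1 (a / 4) (by omega))).ne'
    have h4 : a % 4 / 2 = 0 ∨ a % 4 / 2 = 1 := by omega
    rcases h4 with h4 | h4
    · have h5 : a / 2 = 2 * (a / 4) := by omega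
      have h6 : LL D (a / 4) (top a) = e (a / 2) := by
        unfold LL top
        rw [h4, Nat.cast_zero, L_zero _ hs, h5]
      rw [h6]; exact hR _
    · have h5 : a / 2 = 2 * (a / 4) + 1 := by omega
      have h6 : LL D (a / 4) (top a) = e (a / 2) := by
        unfold LL top
        rw [h4, Nat.cast_one, L_one _ hs, h5]
      rw [h6]; exact hR _
  refine ⟨PresentedGroup.toGroup hrel, ?_⟩
  intro i
  rw [PresentedGroup.toGroup.of]
  exact hR _

/-- The lower bound for the number of meridians. -/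
theorem rank_le {n : ℕ} {w : List (ℕ × ℤ)} {B : V →ₗ[ℝ] V →ₗ[ℝ] ℝ}
    (h2 : ∀ i, B (e i) (e i) = 2) (ρ : PlatGroup n w →* (V ≃ₗ[ℝ] V))
    (hρ : ∀ i : Fin n, Rep B (ρ (PresentedGroup.of i)) (e i)) (k : ℕ)
    (hk : k ∈ MerGen n w) : n ≤ k := by
  obtain ⟨m, hm, hcl⟩ := hk
  have hv : ∀ i : Fin k, ∃ v : V, ∀ u : V, ρ (m i) u - u ∈ Submodule.span ℝ {v} := by
    intro i
    obtain ⟨j, hj⟩ := hm i
    have key : ∀ x : PlatGroup n w, Rep B (ρ x) (e j) → IsConj x (m i) →
        ∃ v : V, ∀ u : V, ρ (m i) u - u ∈ Submodule.span ℝ {v} := by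
      intro x hx hc
      obtain ⟨c, hc⟩ := isConj_iff.1 hc
      refine ⟨ρ c (e j), fun u => ?_⟩
      have h1 : ρ (m i) u = ρ c (ρ x ((ρ c)⁻¹ u)) := by
        rw [← hc, map_mul, map_mul, map_inv]
        rfl
      have h3 : ρ c ((ρ c)⁻¹ u) = u := (ρ c).apply_symm_apply u
      rw [h1, hx, map_sub, map_smul, h3]
      refine Submodule.mem_span_singleton.2 ⟨-(B (e j) ((ρ c)⁻¹ u)), ?_⟩
      module
    rcases hj with hj | hj
    · exact key _ (hρ j) hj
    · refine key _ ?_ hj
      rw [map_inv, inv_eq_of_mul_eq_one_left ((hρ j).inv (h2 _))]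
      exact hρ j
  choose v hv using hv
  let W : Submodule ℝ V := Submodule.span ℝ (Set.range v)
  have hmW : ∀ i u, ρ (m i) u - u ∈ W := by
    intro i u
    refine Submodule.span_mono ?_ (hv i u)
    rintro _ rfl
    exact ⟨i, rfl⟩
  have hall : ∀ x : PlatGroup n w, ∀ u, ρ x u - u ∈ W := by
    intro x
    have hx : x ∈ Subgroup.closure (Set.range m) := by rw [hcl]; trivial
    induction hx using Subgroup.closure_induction with
    | mem y hy =>
      obtain ⟨i, rfl⟩ := hy
      exact hmW i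
    | one => intro u; simp
    | mul a b _ _ ha hb =>
      intro u
      have h1 := ha (ρ b u)
      have h3 := hb u
      have h4 := W.add_mem h1 h3
      have h5 : ρ (a * b) u = ρ a (ρ b u) := by rw [map_mul]; rfl
      rw [h5]
      have h6 : ρ a (ρ b u) - ρ b u + (ρ b u - u) = ρ a (ρ b u) - u := by abel
      rwa [h6] at h4
    | inv a _ ha =>
      intro u
      have h1 := W.neg_mem (ha (ρ a⁻¹ u))
      have h5 : ρ a (ρ a⁻¹ u) = u := by
        have : ρ a (ρ a⁻¹ u) = ρ (a * a⁻¹) u := by rw [map_mul]; rfl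
        rw [this, mul_inv_cancel, map_one]; rfl
      rw [h5, neg_sub] at h1
      exact h1
  have he : ∀ i : Fin n, e i ∈ W := by
    intro i
    have h1 := hall (PresentedGroup.of i) (e i)
    rw [hρ i, h2] at h1
    have h3 := W.smul_mem (-(1 / 2 : ℝ)) h1
    have h4 : (-(1 / 2 : ℝ)) • (e (i : ℕ) - (2 : ℝ) • e (i : ℕ) - e (i : ℕ)) = e (i : ℕ) := by
      module
    rwa [h4] at h3
  have hli : LinearIndependent ℝ (fun i : Fin n => e (i : ℕ)) := by
    have h1 : LinearIndependent ℝ (fun i : ℕ => e i) := by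
      have := (Finsupp.basisSingleOne (R := ℝ) (ι := ℕ)).linearIndependent
      simpa [Finsupp.coe_basisSingleOne, e] using this
    exact h1.comp _ Fin.val_injective
  have hle : Submodule.span ℝ (Set.range (fun i : Fin n => e (i : ℕ))) ≤ W := by
    rw [Submodule.span_le]
    rintro _ ⟨i, rfl⟩
    exact he i
  have hfin : Module.Finite ℝ W := by
    apply Module.Finite.span_of_finite
    exact Set.finite_range v
  have h5 := Submodule.finrank_mono hle
  rw [finrank_span_eq_card hli, Fintype.card_fin] at h5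
  have h6 := finrank_range_le_card (R := ℝ) v
  rw [Fintype.card_fin] at h6
  exact h5.trans h6

theorem mem_merGen (n : ℕ) (w : List (ℕ × ℤ)) : n ∈ MerGen n w := by
  refine ⟨fun i => PresentedGroup.of i, fun i => ⟨i, Or.inl (IsConj.refl _)⟩, ?_⟩
  exact PresentedGroup.closure_range_of _

/-- The general theorem. -/
theorem main (D : Data) (n : ℕ) (hD : D.Adm n) (w : List (ℕ × ℤ)) (hw : Good D n w top) :
    IsLeast (MerGen n w) n := by
  obtain ⟨B, h2, ρ, hρ⟩ := exists_rep hD hw
  exact ⟨mem_merGen _ _, fun k hk => rank_le h2 ρ hρ k hk⟩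

/-- The bridge number cannot be smaller. -/
theorem bridge {n n' : ℕ} {w w' : List (ℕ × ℤ)} (h : IsLeast (MerGen n w) n)
    (φ : PlatGroup n' w' ≃* PlatGroup n w) (hφ : ∀ x, IsMeridian x → IsMeridian (φ x)) :
    n ≤ n' := by
  apply h.2
  refine ⟨fun i => φ (PresentedGroup.of i), fun i => hφ _ ⟨i, Or.inl (IsConj.refl _)⟩, ?_⟩
  have h1 : Set.range (fun i : Fin n' => φ (PresentedGroup.of (rels := rels n' w') i)) =
      (φ : PlatGroup n' w' →* PlatGroup n w) ''
        Set.range (PresentedGroup.of (rels := rels n' w')) := by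
    rw [← Set.range_comp]; rfl
  rw [h1, ← MonoidHom.map_closure, PresentedGroup.closure_range_of]
  rw [← MonoidHom.range_eq_map]
  exact MonoidHom.range_eq_top.2 φ.surjective

end Pool.Helper37.MR
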