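import Pool.Agent.Helper37.MR.Form

namespace Pool.Helper37.MR

open Real

/-- The vectors of the block `j`. -/
noncomputable def LL (D : Data) (j : ℕ) (s : ℤ) : V :=
  L (π / D.p j) (e (2 * j)) (e (2 * j + 1)) s

/-- The properties of the form. -/
def Form (D : Data) (n : ℕ) (B : V →ₗ[ℝ] V →ₗ[ℝ] ℝ) : Prop :=
  (∀ u v, B u v = B v u) ∧ (∀ i, B (e i) (e i) = 2) ∧
      (∀ j, B (e (2 * j)) (e (2 * j + 1)) = 2 * cos (π / D.p j)) ∧
      ∀ j, 2 * (j + 1) < n → ∀ r, 2 ≤ D.m j r →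
        B (LL D j (D.Y j r)) (LL D (j + 1) (D.X j r)) = 2 * cos (π / D.m j r)

theorem Rep.mod {D : Data} {B : V →ₗ[ℝ] V →ₗ[ℝ] ℝ} {j : ℕ} (hp : 2 ≤ D.p j) {s t : ℤ}
    {h : V ≃ₗ[ℝ] V} (H : Rep B h (LL D j s)) (hd : (D.p j : ℤ) ∣ s - t) :
    Rep B h (LL D j t) := by
  rcases L_mod (D.p j) hp (e (2 * j)) (e (2 * j + 1)) s t hd with h1 | h1
  · have : LL D j s = LL D j t := h1
    rwa [this] at H
  · have : LL D j s = - LL D j t := h1
    rw [this] at H
    have h2 := H.neg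
    rwa [neg_neg] at h2

theorem LL_norm {D : Data} {n : ℕ} {B : V →ₗ[ℝ] V →ₗ[ℝ] ℝ} (hB : Form D n B) {j : ℕ}
    (hp : 2 ≤ D.p j) (s : ℤ) : B (LL D j s) (LL D j s) = 2 := by
  obtain ⟨h1, h2, h3, -⟩ := hB
  have := L_inner h1 (π / D.p j) (sin_pi_div _ hp).ne' _ _ (h2 (2 * j)) (h2 (2 * j + 1))
    (h3 j) s s
  unfold LL
  rw [this]
  simp

theorem syl_eq_self {H : Type*} [Group H] (x : ℕ → H) (c : ℕ × ℤ)
    (h : (tw H ^ c.2) (x c.1, x (c.1 + 1)) = (x c.1, x (c.1 + 1))) : syl x c = x := by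
  funext q
  unfold syl
  rw [h]
  split_ifs with h1 h2
  · rw [h1]
  · rw [h2]
  · rfl

theorem run_good {D : Data} {n : ℕ} (hD : D.Adm n) {B : V →ₗ[ℝ] V →ₗ[ℝ] ℝ}
    (hB : Form D n B) (w : List (ℕ × ℤ)) : ∀ (x : ℕ → (V ≃ₗ[ℝ] V)) (s : ℕ → ℤ),
    (∀ q, q < 2 * n → Rep B (x q) (LL D (q / 4) (s q))) → Good D n w s →
    ∀ q, q < n → run w x (2 * q) * run w x (2 * q + 1) = 1 := by
  induction w with
  | nil =>
    intro x s hx hs q hq
    have hp := hD.1 (q / 2) (by omega)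
    have h1 := hx (2 * q) (by omega)
    have h2 := hx (2 * q + 1) (by omega)
    have e1 : 2 * q / 4 = q / 2 := by omega
    have e2 : (2 * q + 1) / 4 = q / 2 := by omega
    rw [e1] at h1
    rw [e2] at h2
    have h3 := h1.mod hp (hs q hq)
    have h4 : x (2 * q) = x (2 * q + 1) := h3.eq h2
    change x (2 * q) * x (2 * q + 1) = 1
    rw [h4]
    exact h2.inv (LL_norm hB hp _)
  | cons c w ih =>
    intro x s hx hs q hq
    change run w (syl x c) (2 * q) * run w (syl x c) (2 * q + 1) = 1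
    obtain ⟨hc0, hs⟩ := hs
    rcases hs with ⟨hc, hs⟩ | ⟨hc, hmeet, hs⟩
    · refine ih (syl x c) (shift s c.1 c.2) ?_ hs q hq
      intro a ha
      have hp := hD.1 (c.1 / 4) (by omega)
      have hsn := (sin_pi_div _ hp).ne'
      have h1 := hx c.1 (by omega)
      have h2 := hx (c.1 + 1) hc0
      have e2 : (c.1 + 1) / 4 = c.1 / 4 := by omega
      rw [e2] at h2
      obtain ⟨g1, g2⟩ := tw_pow hB.1 (π / D.p (c.1 / 4)) hsn _ _ (hB.2.1 (2 * (c.1 / 4)))
        (hB.2.1 (2 * (c.1 / 4) + 1)) (hB.2.2.1 (c.1 / 4)) (s c.1) (s (c.1 + 1)) _ _ h1 h2 c.2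
      by_cases ha1 : a = c.1
      · subst ha1
        simp only [syl, shift, if_true, true_or]
        exact g1
      · by_cases ha2 : a = c.1 + 1
        · subst ha2
          have e3 : ¬ c.1 + 1 = c.1 := by omega
          simp only [syl, shift, if_true, or_true, if_neg e3, e2]
          exact g2
        · have e3 : ¬ (a = c.1 ∨ a = c.1 + 1) := by omega
          simp only [syl, shift, if_neg ha1, if_neg ha2, if_neg e3]
          exact hx a ha
    · have h5 : syl x c = x := by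
        apply syl_eq_self
        rcases hmeet with hk | ⟨r, hr, hY, hX, hk⟩
        · rw [hk]; simp
        · have hp := hD.1 (c.1 / 4) (by omega)
          have hj : 2 * (c.1 / 4 + 1) < n := by omega
          have hp' := hD.1 (c.1 / 4 + 1) hj
          have h1 := hx c.1 (by omega)
          have h2 := hx (c.1 + 1) hc0
          have e2 : (c.1 + 1) / 4 = c.1 / 4 + 1 := by omega
          rw [e2] at h2
          have h3 := h1.mod hp hY
          have h4 := h2.mod hp' hX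
          exact tw_trivial hB.1 (D.m (c.1 / 4) r) hr _ _ (LL_norm hB hp _)
            (LL_norm hB hp' _) (hB.2.2.2 (c.1 / 4) hj r hr) _ _ h3 h4 c.2 hk
      rw [h5]
      exact ih x s hx hs q hq

theorem tw_map {G H : Type*} [Group G] [Group H] (φ : G →* H) (k : ℤ) (a b : G) :
    (tw H ^ k) (φ a, φ b) =
      (φ ((tw G ^ k) (a, b)).1, φ ((tw G ^ k) (a, b)).2) := by
  induction k using Int.induction_on with
  | zero => simp
  | succ i ih =>
    have e1 : (tw H ^ ((i : ℤ) + 1)) (φ a, φ b) = tw H ((tw H ^ (i : ℤ)) (φ a, φ b)) := by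
      rw [add_comm, zpow_add, zpow_one]; rfl
    have e2 : (tw G ^ ((i : ℤ) + 1)) (a, b) = tw G ((tw G ^ (i : ℤ)) (a, b)) := by
      rw [add_comm, zpow_add, zpow_one]; rfl
    rw [e1, e2, ih]
    generalize (tw G ^ (i : ℤ)) (a, b) = z
    simp [tw]
  | pred i ih =>
    have e1 : (tw H ^ (-(i : ℤ) - 1)) (φ a, φ b) =
        (tw H).symm ((tw H ^ (-(i : ℤ))) (φ a, φ b)) := by
      have : -(i : ℤ) - 1 = -1 + -(i : ℤ) := by ring
      rw [this, zpow_add, zpow_neg_one]; rfl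
    have e2 : (tw G ^ (-(i : ℤ) - 1)) (a, b) =
        (tw G).symm ((tw G ^ (-(i : ℤ))) (a, b)) := by
      have : -(i : ℤ) - 1 = -1 + -(i : ℤ) := by ring
      rw [this, zpow_add, zpow_neg_one]; rfl
    rw [e1, e2, ih]
    generalize (tw G ^ (-(i : ℤ))) (a, b) = z
    simp [tw]

theorem run_map {G H : Type*} [Group G] [Group H] (φ : G →* H) (w : List (ℕ × ℤ)) :
    ∀ (x : ℕ → G) (q : ℕ), φ (run w x q) = run w (fun q => φ (x q)) q := by
  induction w with
  | nil => intro x q; rfl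
  | cons c w ih =>
    intro x q
    change φ (run w (syl x c) q) = run w (syl (fun q => φ (x q)) c) q
    rw [ih]
    have : (fun q => φ (syl x c q)) = syl (fun q => φ (x q)) c := by
      funext a
      simp only [syl]
      rw [tw_map φ]
      split_ifs <;> rfl
    rw [this]

end Pool.Helper37.MR
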