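import Pool.Agent.Helper37.MR.CoreC
import Pool.Agent.Helper37.MR.Run

namespace Pool.Helper37.MR

open Real

/-- Value of the `2 × 2` matrix `M` at the colours `y` and `x`. -/
noncomputable def ev (p p' : ℕ) (M : ℕ → ℕ → ℂ) (y x : ℤ) : ℂ :=
  (cf (π / p) y 0 : ℂ) * M 0 0 * (cf (π / p') x 0 : ℂ) +
  (cf (π / p) y 0 : ℂ) * M 0 1 * (cf (π / p') x 1 : ℂ) +
  (cf (π / p) y 1 : ℂ) * M 1 0 * (cf (π / p') x 0 : ℂ) +
  (cf (π / p) y 1 : ℂ) * M 1 1 * (cf (π / p') x 1 : ℂ)

/-- Chain data: moduli, and two matrices for each passage. -/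
structure Chain where
  p : ℕ → ℕ
  M : ℕ → ℕ → ℕ → ℂ
  M' : ℕ → ℕ → ℕ → ℂ

/-- The connecting condition. -/
def MeetsC (D : Chain) (s : ℕ → ℤ) (i : ℕ) (k : ℤ) : Prop :=
  k = 0 ∨ ∃ m : ℕ, OrdC m (ev (D.p (i / 4)) (D.p (i / 4 + 1)) (D.M (i / 4)) (s i) (s (i + 1)))
    (ev (D.p (i / 4)) (D.p (i / 4 + 1)) (D.M' (i / 4)) (s i) (s (i + 1))) ∧ (m : ℤ) ∣ k

/-- The condition on the word. -/
def GoodC (D : Chain) (n : ℕ) : List (ℕ × ℤ) → (ℕ → ℤ) → Prop
  | [], s => ∀ q, q < n → (D.p (q / 2) : ℤ) ∣ s (2 * q) - s (2 * q + 1)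
  | c :: w, s => c.1 + 1 < 2 * n ∧
      ((c.1 % 4 ≠ 3 ∧ GoodC D n w (shift s c.1 c.2)) ∨
        (c.1 % 4 = 3 ∧ MeetsC D s c.1 c.2 ∧ GoodC D n w s))

/-- The basis vectors. -/
noncomputable def ec (i : ℕ) : VC := Finsupp.single i 1

/-- The Gram matrix. -/
noncomputable def gramC (D : Chain) (i k : ℕ) : ℂ :=
  if i / 2 = k / 2 then (if i = k then 2 else ((2 * cos (π / D.p (i / 2)) : ℝ) : ℂ))
  else if k / 2 = i / 2 + 1 then D.M (i / 2) (i % 2) (k % 2)
  else if i / 2 = k / 2 + 1 then D.M' (k / 2) (k % 2) (i % 2) else 0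

/-- The bilinear form (not symmetric in general). -/
noncomputable def BC (D : Chain) : VC →ₗ[ℂ] VC →ₗ[ℂ] ℂ :=
  Finsupp.linearCombination ℂ (fun i => Finsupp.linearCombination ℂ (gramC D i))

theorem BC_e (D : Chain) (i k : ℕ) : BC D (ec i) (ec k) = gramC D i k := by
  simp [BC, ec, Finsupp.linearCombination_single]

theorem BC_diag (D : Chain) (i : ℕ) : BC D (ec i) (ec i) = 2 := by
  rw [BC_e]; simp [gramC]

theorem BC_in (D : Chain) (j : ℕ) :
    BC D (ec (2 * j)) (ec (2 * j + 1)) = ((2 * cos (π / D.p j) : ℝ) : ℂ) := by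
  rw [BC_e]
  have h1 : 2 * j / 2 = (2 * j + 1) / 2 := by omega
  have h2 : 2 * j ≠ 2 * j + 1 := by omega
  have h3 : 2 * j / 2 = j := by omega
  unfold gramC
  rw [if_pos h1, if_neg h2, h3]

theorem BC_in' (D : Chain) (j : ℕ) :
    BC D (ec (2 * j + 1)) (ec (2 * j)) = ((2 * cos (π / D.p j) : ℝ) : ℂ) := by
  rw [BC_e]
  have h1 : (2 * j + 1) / 2 = 2 * j / 2 := by omega
  have h2 : 2 * j + 1 ≠ 2 * j := by omega
  have h3 : (2 * j + 1) / 2 = j := by omega
  unfold gramC
  rw [if_pos h1, if_neg h2, h3]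

/-- Vectors and functionals of the block `j`. -/
noncomputable def vec (D : Chain) (j : ℕ) (s : ℤ) : VC :=
  LC (π / D.p j) (ec (2 * j)) (ec (2 * j + 1)) s

noncomputable def fun' (D : Chain) (j : ℕ) (s : ℤ) : VC →ₗ[ℂ] ℂ :=
  LC (π / D.p j) (BC D (ec (2 * j))) (BC D (ec (2 * j + 1))) s

theorem pair_up (D : Chain) (j : ℕ) (y x : ℤ) :
    fun' D j y (vec D (j + 1) x) = ev (D.p j) (D.p (j + 1)) (D.M j) y x := by
  have hA : ∀ a b : ℕ, a < 2 → b < 2 → gramC D (2 * j + a) (2 * (j + 1) + b) = D.M j a b := by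
    intro a b ha hb
    unfold gramC
    have h1 : ¬ (2 * j + a) / 2 = (2 * (j + 1) + b) / 2 := by omega
    have h2 : (2 * (j + 1) + b) / 2 = (2 * j + a) / 2 + 1 := by omega
    have h3 : (2 * j + a) / 2 = j := by omega
    have h4 : (2 * j + a) % 2 = a := by omega
    have h5 : (2 * (j + 1) + b) % 2 = b := by omega
    rw [if_neg h1, if_pos h2, h3, h4, h5]
  have a00 := hA 0 0 (by omega) (by omega)
  have a01 := hA 0 1 (by omega) (by omega)
  have a10 := hA 1 0 (by omega) (by omega)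
  have a11 := hA 1 1 (by omega) (by omega)
  simp only [add_zero] at a00 a01 a10
  unfold fun' vec LC ev
  simp only [map_add, map_smul, LinearMap.add_apply, LinearMap.smul_apply, smul_eq_mul]
  rw [BC_e, BC_e, BC_e, BC_e, a00, a01, a10, a11]
  ring

theorem pair_down (D : Chain) (j : ℕ) (y x : ℤ) :
    fun' D (j + 1) x (vec D j y) = ev (D.p j) (D.p (j + 1)) (D.M' j) y x := by
  have hA : ∀ a b : ℕ, a < 2 → b < 2 → gramC D (2 * (j + 1) + b) (2 * j + a) = D.M' j a b := by
    intro a b ha hb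
    unfold gramC
    have h1 : ¬ (2 * (j + 1) + b) / 2 = (2 * j + a) / 2 := by omega
    have h2 : ¬ (2 * j + a) / 2 = (2 * (j + 1) + b) / 2 + 1 := by omega
    have h2' : (2 * (j + 1) + b) / 2 = (2 * j + a) / 2 + 1 := by omega
    have h3 : (2 * j + a) / 2 = j := by omega
    have h4 : (2 * j + a) % 2 = a := by omega
    have h5 : (2 * (j + 1) + b) % 2 = b := by omega
    rw [if_neg h1, if_neg h2, if_pos h2', h3, h4, h5]
  have a00 := hA 0 0 (by omega) (by omega)
  have a01 := hA 0 1 (by omega) (by omega)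
  have a10 := hA 1 0 (by omega) (by omega)
  have a11 := hA 1 1 (by omega) (by omega)
  simp only [add_zero] at a00 a01 a10
  unfold fun' vec LC ev
  simp only [map_add, map_smul, LinearMap.add_apply, LinearMap.smul_apply, smul_eq_mul]
  rw [BC_e, BC_e, BC_e, BC_e, a00, a01, a10, a11]
  ring

theorem norm_two (D : Chain) (j : ℕ) (hp : 2 ≤ D.p j) (s : ℤ) :
    fun' D j s (vec D j s) = 2 := by
  unfold fun' vec
  rw [LC_inner (π / D.p j) (sin_pi_div _ hp).ne' _ _ _ _ (BC_diag D _) (BC_diag D _)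
    (BC_in D j) (BC_in' D j)]
  simp

theorem run_goodC {D : Chain} {n : ℕ} (hD : ∀ j, 2 * j < n → 2 ≤ D.p j)
    (w : List (ℕ × ℤ)) : ∀ (x : ℕ → (VC ≃ₗ[ℂ] VC)) (s : ℕ → ℤ),
    (∀ q, q < 2 * n → RepC (x q) (vec D (q / 4) (s q)) (fun' D (q / 4) (s q))) →
    GoodC D n w s → ∀ q, q < n → run w x (2 * q) * run w x (2 * q + 1) = 1 := by
  induction w with
  | nil =>
    intro x s hx hs q hq
    have hp := hD (q / 2) (by omega)
    have h1 := hx (2 * q) (by omega)
    have h2 := hx (2 * q + 1) (by omega)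
    have e1 : 2 * q / 4 = q / 2 := by omega
    have e2 : (2 * q + 1) / 4 = q / 2 := by omega
    rw [e1] at h1
    rw [e2] at h2
    have h3 : RepC (x (2 * q)) (vec D (q / 2) (s (2 * q + 1))) (fun' D (q / 2) (s (2 * q + 1))) :=
      RepC.mod hp h1 (hs q hq)
    have h4 : x (2 * q) = x (2 * q + 1) := h3.eq h2
    change x (2 * q) * x (2 * q + 1) = 1
    rw [h4]
    exact h2.inv (norm_two D _ hp _)
  | cons c w ih =>
    intro x s hx hs q hq
    change run w (syl x c) (2 * q) * run w (syl x c) (2 * q + 1) = 1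
    obtain ⟨hc0, hs⟩ := hs
    rcases hs with ⟨hc, hs⟩ | ⟨hc, hmeet, hs⟩
    · refine ih (syl x c) (shift s c.1 c.2) ?_ hs q hq
      intro a ha
      have hp := hD (c.1 / 4) (by omega)
      have hsn := (sin_pi_div _ hp).ne'
      have h1 := hx c.1 (by omega)
      have h2 := hx (c.1 + 1) hc0
      have e2 : (c.1 + 1) / 4 = c.1 / 4 := by omega
      rw [e2] at h2
      obtain ⟨g1, g2⟩ := tw_powC (π / D.p (c.1 / 4)) hsn _ _ _ _ (BC_diag D (2 * (c.1 / 4)))
        (BC_diag D (2 * (c.1 / 4) + 1)) (BC_in D (c.1 / 4)) (BC_in' D (c.1 / 4))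
        (s c.1) (s (c.1 + 1)) _ _ h1 h2 c.2
      by_cases ha1 : a = c.1
      · subst ha1
        simp only [syl, shift, if_true, true_or]
        exact g1
      · by_cases ha2 : a = c.1 + 1
        · subst ha2
          have e3 : ¬ c.1 + 1 = c.1 := by omega
          simp only [syl, shift, if_true, or_true, if_neg e3, e2]
          exact g2
        · have e3 : ¬ (a = c.1 ∨ a = c.1 + 1) := by omega
          simp only [syl, shift, if_neg ha1, if_neg ha2, if_neg e3]
          exact hx a ha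
    · have h5 : syl x c = x := by
        apply syl_eq_self
        rcases hmeet with hk | ⟨m, hm, hk⟩
        · rw [hk]; simp
        · have hp := hD (c.1 / 4) (by omega)
          have hj : 2 * (c.1 / 4 + 1) < n := by omega
          have hp' := hD (c.1 / 4 + 1) hj
          have h1 := hx c.1 (by omega)
          have h2 := hx (c.1 + 1) hc0
          have e2 : (c.1 + 1) / 4 = c.1 / 4 + 1 := by omega
          rw [e2] at h2
          refine tw_trivial_prod m _ _ _ _ (norm_two D _ hp _) (norm_two D _ hp' _) ?_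
            _ _ h1 h2 c.2 hk
          rw [pair_up, pair_down]
          exact hm
      rw [h5]
      exact ih x s hx hs q hq

/-- The reflection in a basis vector. -/
theorem exists_reflC (D : Chain) (i : ℕ) :
    ∃ h : VC ≃ₗ[ℂ] VC, RepC h (ec i) (BC D (ec i)) := by
  refine ⟨Module.reflection (x := ec i) (f := BC D (ec i)) (BC_diag D i), ?_⟩
  intro u
  rw [Module.reflection_apply]

/-- The representation of the plat group. -/
theorem exists_repC {D : Chain} {n : ℕ} (hD : ∀ j, 2 * j < n → 2 ≤ D.p j) {w : List (ℕ × ℤ)}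
    (hw : GoodC D n w top) :
    ∃ ρ : PlatGroup n w →* (VC ≃ₗ[ℂ] VC), ∀ i : Fin n,
      RepC (ρ (PresentedGroup.of i)) (ec i) (BC D (ec i)) := by
  choose R hR using exists_reflC D
  have hrel : ∀ r ∈ rels n w, FreeGroup.lift (fun i : Fin n => R i) r = 1 := by
    rintro r ⟨q, hq, rfl⟩
    rw [map_mul, run_map, run_map]
    refine run_goodC hD w _ top ?_ hw q hq
    intro a ha
    have hg : FreeGroup.lift (fun i : Fin n => R i) (gen n (a / 2)) = R (a / 2) := by
      have h : a / 2 < n := by omega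
      simp [gen, h]
    have hx : FreeGroup.lift (fun i : Fin n => R i) (cup (gen n) a) = R (a / 2) := by
      unfold cup
      split_ifs with h
      · exact hg
      · rw [map_inv, hg]
        exact inv_eq_of_mul_eq_one_left ((hR _).inv (BC_diag D _))
    rw [hx]
    have hs := (sin_pi_div _ (hD (a / 4) (by omega))).ne'
    have h4 : a % 4 / 2 = 0 ∨ a % 4 / 2 = 1 := by omega
    rcases h4 with h4 | h4
    · have h5 : a / 2 = 2 * (a / 4) := by omega
      have h6 : vec D (a / 4) (top a) = ec (a / 2) := by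
        unfold vec top
        rw [h4, Nat.cast_zero, LC_zero _ hs, h5]
      have h7 : fun' D (a / 4) (top a) = BC D (ec (a / 2)) := by
        unfold fun' top
        rw [h4, Nat.cast_zero, LC_zero _ hs, h5]
      rw [h6, h7]; exact hR _
    · have h5 : a / 2 = 2 * (a / 4) + 1 := by omega
      have h6 : vec D (a / 4) (top a) = ec (a / 2) := by
        unfold vec top
        rw [h4, Nat.cast_one, LC_one _ hs, h5]
      have h7 : fun' D (a / 4) (top a) = BC D (ec (a / 2)) := by
        unfold fun' top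
        rw [h4, Nat.cast_one, LC_one _ hs, h5]
      rw [h6, h7]; exact hR _
  refine ⟨PresentedGroup.toGroup hrel, ?_⟩
  intro i
  rw [PresentedGroup.toGroup.of]
  exact hR _

/-- The lower bound for the number of meridians. -/
theorem rank_leC {D : Chain} {n : ℕ} {w : List (ℕ × ℤ)} (ρ : PlatGroup n w →* (VC ≃ₗ[ℂ] VC))
    (hρ : ∀ i : Fin n, RepC (ρ (PresentedGroup.of i)) (ec i) (BC D (ec i))) (k : ℕ)
    (hk : k ∈ MerGen n w) : n ≤ k := by
  obtain ⟨m, hm, hcl⟩ := hk
  have hv : ∀ i : Fin k, ∃ v : VC, ∀ u : VC, ρ (m i) u - u ∈ Submodule.span ℂ {v} := by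
    intro i
    obtain ⟨j, hj⟩ := hm i
    have key : ∀ x : PlatGroup n w, RepC (ρ x) (ec j) (BC D (ec j)) → IsConj x (m i) →
        ∃ v : VC, ∀ u : VC, ρ (m i) u - u ∈ Submodule.span ℂ {v} := by
      intro x hx hc
      obtain ⟨c, hc⟩ := isConj_iff.1 hc
      refine ⟨ρ c (ec j), fun u => ?_⟩
      have h1 : ρ (m i) u = ρ c (ρ x ((ρ c)⁻¹ u)) := by
        rw [← hc, map_mul, map_mul, map_inv]
        rfl
      have h3 : ρ c ((ρ c)⁻¹ u) = u := (ρ c).apply_symm_apply u
      rw [h1, hx, map_sub, map_smul, h3]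
      refine Submodule.mem_span_singleton.2 ⟨-(BC D (ec j) ((ρ c)⁻¹ u)), ?_⟩
      module
    rcases hj with hj | hj
    · exact key _ (hρ j) hj
    · refine key _ ?_ hj
      rw [map_inv, inv_eq_of_mul_eq_one_left ((hρ j).inv (BC_diag D _))]
      exact hρ j
  choose v hv using hv
  let W : Submodule ℂ VC := Submodule.span ℂ (Set.range v)
  have hmW : ∀ i u, ρ (m i) u - u ∈ W := by
    intro i u
    refine Submodule.span_mono ?_ (hv i u)
    rintro _ rfl
    exact ⟨i, rfl⟩
  have hall : ∀ x : PlatGroup n w, ∀ u, ρ x u - u ∈ W := by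
    intro x
    have hx : x ∈ Subgroup.closure (Set.range m) := by rw [hcl]; trivial
    induction hx using Subgroup.closure_induction with
    | mem y hy =>
      obtain ⟨i, rfl⟩ := hy
      exact hmW i
    | one => intro u; simp
    | mul a b _ _ ha hb =>
      intro u
      have h1 := ha (ρ b u)
      have h3 := hb u
      have h4 := W.add_mem h1 h3
      have h5 : ρ (a * b) u = ρ a (ρ b u) := by rw [map_mul]; rfl
      rw [h5]
      have h6 : ρ a (ρ b u) - ρ b u + (ρ b u - u) = ρ a (ρ b u) - u := by abel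
      rwa [h6] at h4
    | inv a _ ha =>
      intro u
      have h1 := W.neg_mem (ha (ρ a⁻¹ u))
      have h5 : ρ a (ρ a⁻¹ u) = u := by
        have : ρ a (ρ a⁻¹ u) = ρ (a * a⁻¹) u := by rw [map_mul]; rfl
        rw [this, mul_inv_cancel, map_one]; rfl
      rw [h5, neg_sub] at h1
      exact h1
  have he : ∀ i : Fin n, ec i ∈ W := by
    intro i
    have h1 := hall (PresentedGroup.of i) (ec i)
    rw [hρ i, BC_diag] at h1
    have h3 := W.smul_mem (-(1 / 2 : ℂ)) h1
    have h4 : (-(1 / 2 : ℂ)) • (ec (i : ℕ) - (2 : ℂ) • ec (i : ℕ) - ec (i : ℕ)) =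
        ec (i : ℕ) := by
      module
    rwa [h4] at h3
  have hli : LinearIndependent ℂ (fun i : Fin n => ec (i : ℕ)) := by
    have h1 : LinearIndependent ℂ (fun i : ℕ => ec i) := by
      have := (Finsupp.basisSingleOne (R := ℂ) (ι := ℕ)).linearIndependent
      simpa [Finsupp.coe_basisSingleOne, ec] using this
    exact h1.comp _ Fin.val_injective
  have hle : Submodule.span ℂ (Set.range (fun i : Fin n => ec (i : ℕ))) ≤ W := by
    rw [Submodule.span_le]
    rintro _ ⟨i, rfl⟩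
    exact he i
  have hfin : Module.Finite ℂ W := by
    apply Module.Finite.span_of_finite
    exact Set.finite_range v
  have h5 := Submodule.finrank_mono hle
  rw [finrank_span_eq_card hli, Fintype.card_fin] at h5
  have h6 := finrank_range_le_card (R := ℂ) v
  rw [Fintype.card_fin] at h6
  exact h5.trans h6

theorem mem_merGenC (n : ℕ) (w : List (ℕ × ℤ)) : n ∈ MerGen n w := by
  refine ⟨fun i => PresentedGroup.of i, fun i => ⟨i, Or.inl (IsConj.refl _)⟩, ?_⟩
  exact PresentedGroup.closure_range_of _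

/-- The general theorem, in terms of the matrices. -/
theorem mainC (D : Chain) (n : ℕ) (hD : ∀ j, 2 * j < n → 2 ≤ D.p j) (w : List (ℕ × ℤ))
    (hw : GoodC D n w top) : IsLeast (MerGen n w) n := by
  obtain ⟨ρ, hρ⟩ := exists_repC hD hw
  exact ⟨mem_merGenC _ _, fun k hk => rank_leC ρ hρ k hk⟩

end Pool.Helper37.MR
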