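import Pool.Agent.Helper37.MR.Solv

namespace Pool.Helper37.MR.D

open Real

/-- The connecting condition. -/
def Meets (D : Chain) (bl : ℕ → ℕ) (s : ℕ → ℤ) (i : ℕ) (k : ℤ) : Prop :=
  k = 0 ∨ ∃ m : ℕ, OrdC m
    (ev (D.p (bl (i / 2))) (D.p (bl (i / 2) + 1)) (D.M (bl (i / 2))) (s i) (s (i + 1)))
    (ev (D.p (bl (i / 2))) (D.p (bl (i / 2) + 1)) (D.M' (bl (i / 2))) (s i) (s (i + 1))) ∧
      (m : ℤ) ∣ k

/-- The condition on the word. -/
def Good (D : Chain) (bl : ℕ → ℕ) (n : ℕ) : List (ℕ × ℤ) → (ℕ → ℤ) → Prop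
  | [], s => ∀ q, q < n → (D.p (bl q) : ℤ) ∣ s (2 * q) - s (2 * q + 1)
  | c :: w, s => c.1 + 1 < 2 * n ∧
      ((bl ((c.1 + 1) / 2) = bl (c.1 / 2) ∧ Good D bl n w (shift s c.1 c.2)) ∨
        (bl ((c.1 + 1) / 2) = bl (c.1 / 2) + 1 ∧ Meets D bl s c.1 c.2 ∧ Good D bl n w s))

theorem run_good {D : Chain} {bl : ℕ → ℕ} {n : ℕ} (hD : ∀ i, i < n → 2 ≤ D.p (bl i))
    (w : List (ℕ × ℤ)) : ∀ (x : ℕ → (VC ≃ₗ[ℂ] VC)) (s : ℕ → ℤ),
    (∀ q, q < 2 * n → RepC (x q) (vec D (bl (q / 2)) (s q)) (fun' D (bl (q / 2)) (s q))) →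
    Good D bl n w s → ∀ q, q < n → run w x (2 * q) * run w x (2 * q + 1) = 1 := by
  induction w with
  | nil =>
    intro x s hx hs q hq
    have hp := hD q hq
    have h1 := hx (2 * q) (by omega)
    have h2 := hx (2 * q + 1) (by omega)
    have e1 : 2 * q / 2 = q := by omega
    have e2 : (2 * q + 1) / 2 = q := by omega
    rw [e1] at h1
    rw [e2] at h2
    have h3 : RepC (x (2 * q)) (vec D (bl q) (s (2 * q + 1))) (fun' D (bl q) (s (2 * q + 1))) :=
      RepC.mod hp h1 (hs q hq)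
    have h4 : x (2 * q) = x (2 * q + 1) := h3.eq h2
    change x (2 * q) * x (2 * q + 1) = 1
    rw [h4]
    exact h2.inv (norm_two D _ hp _)
  | cons c w ih =>
    intro x s hx hs q hq
    change run w (syl x c) (2 * q) * run w (syl x c) (2 * q + 1) = 1
    obtain ⟨hc0, hs⟩ := hs
    rcases hs with ⟨hc, hs⟩ | ⟨hc, hmeet, hs⟩
    · refine ih (syl x c) (shift s c.1 c.2) ?_ hs q hq
      intro a ha
      have hp := hD (c.1 / 2) (by omega)
      have hsn := (sin_pi_div _ hp).ne'
      have h1 := hx c.1 (by omega)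
      have h2 := hx (c.1 + 1) hc0
      rw [hc] at h2
      obtain ⟨g1, g2⟩ := tw_powC (π / D.p (bl (c.1 / 2))) hsn _ _ _ _
        (BC_diag D (2 * bl (c.1 / 2))) (BC_diag D (2 * bl (c.1 / 2) + 1))
        (BC_in D (bl (c.1 / 2))) (BC_in' D (bl (c.1 / 2)))
        (s c.1) (s (c.1 + 1)) _ _ h1 h2 c.2
      by_cases ha1 : a = c.1
      · subst ha1
        simp only [syl, shift, if_true, true_or]
        exact g1
      · by_cases ha2 : a = c.1 + 1
        · subst ha2
          have e3 : ¬ c.1 + 1 = c.1 := by omega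
          simp only [syl, shift, if_true, or_true, if_neg e3, hc]
          exact g2
        · have e3 : ¬ (a = c.1 ∨ a = c.1 + 1) := by omega
          simp only [syl, shift, if_neg ha1, if_neg ha2, if_neg e3]
          exact hx a ha
    · have h5 : syl x c = x := by
        apply syl_eq_self
        rcases hmeet with hk | ⟨m, hm, hk⟩
        · rw [hk]; simp
        · have hp := hD (c.1 / 2) (by omega)
          have hp' := hD ((c.1 + 1) / 2) (by omega)
          rw [hc] at hp'
          have h1 := hx c.1 (by omega)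
          have h2 := hx (c.1 + 1) hc0
          rw [hc] at h2
          refine tw_trivial_prod m _ _ _ _ (norm_two D _ hp _) (norm_two D _ hp' _) ?_
            _ _ h1 h2 c.2 hk
          rw [pair_up, pair_down]
          exact hm
      rw [h5]
      exact ih x s hx hs q hq

/-- The colours at the top. -/
def topD (τ : ℕ → ℕ) (q : ℕ) : ℤ := ((τ (q / 2) : ℕ) : ℤ)

/-- The representation of the plat group. -/
theorem exists_rep {D : Chain} {bl τ : ℕ → ℕ} {n : ℕ} (hD : ∀ i, i < n → 2 ≤ D.p (bl i))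
    (hτ : ∀ i, τ i = 0 ∨ τ i = 1) {w : List (ℕ × ℤ)} (hw : Good D bl n w (topD τ)) :
    ∃ ρ : PlatGroup n w →* (VC ≃ₗ[ℂ] VC), ∀ i : Fin n,
      RepC (ρ (PresentedGroup.of i)) (ec (2 * bl i + τ i)) (BC D (ec (2 * bl i + τ i))) := by
  choose R hR using exists_reflC D
  have hrel : ∀ r ∈ rels n w,
      FreeGroup.lift (fun i : Fin n => R (2 * bl i + τ i)) r = 1 := by
    rintro r ⟨q, hq, rfl⟩
    rw [map_mul, run_map, run_map]
    refine run_good hD w _ (topD τ) ?_ hw q hq
    intro a ha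
    have hg : FreeGroup.lift (fun i : Fin n => R (2 * bl i + τ i)) (gen n (a / 2)) =
        R (2 * bl (a / 2) + τ (a / 2)) := by
      have h : a / 2 < n := by omega
      simp [gen, h]
    have hx : FreeGroup.lift (fun i : Fin n => R (2 * bl i + τ i)) (cup (gen n) a) =
        R (2 * bl (a / 2) + τ (a / 2)) := by
      unfold cup
      split_ifs with h
      · exact hg
      · rw [map_inv, hg]
        exact inv_eq_of_mul_eq_one_left ((hR _).inv (BC_diag D _))
    rw [hx]
    have hs := (sin_pi_div _ (hD (a / 2) (by omega))).ne'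
    rcases hτ (a / 2) with h4 | h4
    · have h6 : vec D (bl (a / 2)) (topD τ a) = ec (2 * bl (a / 2) + τ (a / 2)) := by
        unfold vec topD
        rw [h4, Nat.cast_zero, LC_zero _ hs]
        rfl
      have h7 : fun' D (bl (a / 2)) (topD τ a) = BC D (ec (2 * bl (a / 2) + τ (a / 2))) := by
        unfold fun' topD
        rw [h4, Nat.cast_zero, LC_zero _ hs]
        rfl
      rw [h6, h7]; exact hR _
    · have h6 : vec D (bl (a / 2)) (topD τ a) = ec (2 * bl (a / 2) + τ (a / 2)) := by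
        unfold vec topD
        rw [h4, Nat.cast_one, LC_one _ hs]
      have h7 : fun' D (bl (a / 2)) (topD τ a) = BC D (ec (2 * bl (a / 2) + τ (a / 2))) := by
        unfold fun' topD
        rw [h4, Nat.cast_one, LC_one _ hs]
      rw [h6, h7]; exact hR _
  refine ⟨PresentedGroup.toGroup hrel, ?_⟩
  intro i
  rw [PresentedGroup.toGroup.of]
  exact hR _

/-- The lower bound for the number of meridians. -/
theorem rank_le {D : Chain} {n : ℕ} {w : List (ℕ × ℤ)} (g : ℕ → ℕ)
    (hinj : ∀ i, i < n → ∀ j, j < n → g i = g j → i = j) (ρ : PlatGroup n w →* (VC ≃ₗ[ℂ] VC))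
    (hρ : ∀ i : Fin n, RepC (ρ (PresentedGroup.of i)) (ec (g i)) (BC D (ec (g i)))) (k : ℕ)
    (hk : k ∈ MerGen n w) : n ≤ k := by
  obtain ⟨m, hm, hcl⟩ := hk
  have hv : ∀ i : Fin k, ∃ v : VC, ∀ u : VC, ρ (m i) u - u ∈ Submodule.span ℂ {v} := by
    intro i
    obtain ⟨j, hj⟩ := hm i
    have key : ∀ x : PlatGroup n w, RepC (ρ x) (ec (g j)) (BC D (ec (g j))) → IsConj x (m i) →
        ∃ v : VC, ∀ u : VC, ρ (m i) u - u ∈ Submodule.span ℂ {v} := by
      intro x hx hc
      obtain ⟨c, hc⟩ := isConj_iff.1 hc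
      refine ⟨ρ c (ec (g j)), fun u => ?_⟩
      have h1 : ρ (m i) u = ρ c (ρ x ((ρ c)⁻¹ u)) := by
        rw [← hc, map_mul, map_mul, map_inv]
        rfl
      have h3 : ρ c ((ρ c)⁻¹ u) = u := (ρ c).apply_symm_apply u
      rw [h1, hx, map_sub, map_smul, h3]
      refine Submodule.mem_span_singleton.2 ⟨-(BC D (ec (g j)) ((ρ c)⁻¹ u)), ?_⟩
      module
    rcases hj with hj | hj
    · exact key _ (hρ j) hj
    · refine key _ ?_ hj
      rw [map_inv, inv_eq_of_mul_eq_one_left ((hρ j).inv (BC_diag D _))]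
      exact hρ j
  choose v hv using hv
  let W : Submodule ℂ VC := Submodule.span ℂ (Set.range v)
  have hmW : ∀ i u, ρ (m i) u - u ∈ W := by
    intro i u
    refine Submodule.span_mono ?_ (hv i u)
    rintro _ rfl
    exact ⟨i, rfl⟩
  have hall : ∀ x : PlatGroup n w, ∀ u, ρ x u - u ∈ W := by
    intro x
    have hx : x ∈ Subgroup.closure (Set.range m) := by rw [hcl]; trivial
    induction hx using Subgroup.closure_induction with
    | mem y hy =>
      obtain ⟨i, rfl⟩ := hy
      exact hmW i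
    | one => intro u; simp
    | mul a b _ _ ha hb =>
      intro u
      have h1 := ha (ρ b u)
      have h3 := hb u
      have h4 := W.add_mem h1 h3
      have h5 : ρ (a * b) u = ρ a (ρ b u) := by rw [map_mul]; rfl
      rw [h5]
      have h6 : ρ a (ρ b u) - ρ b u + (ρ b u - u) = ρ a (ρ b u) - u := by abel
      rwa [h6] at h4
    | inv a _ ha =>
      intro u
      have h1 := W.neg_mem (ha (ρ a⁻¹ u))
      have h5 : ρ a (ρ a⁻¹ u) = u := by
        have : ρ a (ρ a⁻¹ u) = ρ (a * a⁻¹) u := by rw [map_mul]; rfl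
        rw [this, mul_inv_cancel, map_one]; rfl
      rw [h5, neg_sub] at h1
      exact h1
  have he : ∀ i : Fin n, ec (g i) ∈ W := by
    intro i
    have h1 := hall (PresentedGroup.of i) (ec (g i))
    rw [hρ i, BC_diag] at h1
    have h3 := W.smul_mem (-(1 / 2 : ℂ)) h1
    have h4 : (-(1 / 2 : ℂ)) • (ec (g i) - (2 : ℂ) • ec (g i) - ec (g i)) =
        ec (g i) := by
      module
    rwa [h4] at h3
  have hli : LinearIndependent ℂ (fun i : Fin n => ec (g i)) := by
    have h1 : LinearIndependent ℂ (fun i : ℕ => ec i) := by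
      have := (Finsupp.basisSingleOne (R := ℂ) (ι := ℕ)).linearIndependent
      simpa [Finsupp.coe_basisSingleOne, ec] using this
    exact h1.comp (fun i : Fin n => g i)
      (fun i j hij => Fin.ext (hinj i i.2 j j.2 hij))
  have hle : Submodule.span ℂ (Set.range (fun i : Fin n => ec (g i))) ≤ W := by
    rw [Submodule.span_le]
    rintro _ ⟨i, rfl⟩
    exact he i
  have hfin : Module.Finite ℂ W := by
    apply Module.Finite.span_of_finite
    exact Set.finite_range v
  have h5 := Submodule.finrank_mono hle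
  rw [finrank_span_eq_card hli, Fintype.card_fin] at h5
  have h6 := finrank_range_le_card (R := ℂ) v
  rw [Fintype.card_fin] at h6
  exact h5.trans h6

/-- The general theorem, in terms of the matrices. -/
theorem mainD (D : Chain) (bl τ : ℕ → ℕ) (n : ℕ) (hD : ∀ i, i < n → 2 ≤ D.p (bl i))
    (hτ : ∀ i, τ i = 0 ∨ τ i = 1)
    (hinj : ∀ i, i < n → ∀ j, j < n → 2 * bl i + τ i = 2 * bl j + τ j → i = j)
    (w : List (ℕ × ℤ)) (hw : Good D bl n w (topD τ)) : IsLeast (MerGen n w) n := by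
  obtain ⟨ρ, hρ⟩ := exists_rep hD hτ hw
  exact ⟨mem_merGenC _ _, fun k hk => rank_le (fun i => 2 * bl i + τ i) hinj ρ hρ k hk⟩

end Pool.Helper37.MR.D
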