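import Pool.Agent.Helper37.MR.Solv
import Pool.Agent.Helper37.MR.Family

namespace Pool.Helper37.MR

/-- The word carries the colours `s` to `s'`. -/
def GoodToC (D : Chain) (n : ℕ) : List (ℕ × ℤ) → (ℕ → ℤ) → (ℕ → ℤ) → Prop
  | [], s, s' => s = s'
  | c :: w, s, s' => c.1 + 1 < 2 * n ∧
      ((c.1 % 4 ≠ 3 ∧ GoodToC D n w (shift s c.1 c.2) s') ∨
        (c.1 % 4 = 3 ∧ MeetsC D s c.1 c.2 ∧ GoodToC D n w s s'))

theorem GoodToC.append {D : Chain} {n : ℕ} {u v : List (ℕ × ℤ)} : ∀ {s s' s'' : ℕ → ℤ},
    GoodToC D n u s s' → GoodToC D n v s' s'' → GoodToC D n (u ++ v) s s'' := by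
  induction u with
  | nil => intro s s' s'' h1 h2; cases h1; exact h2
  | cons c u ih =>
    intro s s' s'' h1 h2
    obtain ⟨h3, h4⟩ := h1
    refine ⟨h3, ?_⟩
    rcases h4 with ⟨h4, h5⟩ | ⟨h4, h5, h6⟩
    · exact Or.inl ⟨h4, ih h5 h2⟩
    · exact Or.inr ⟨h4, h5, ih h6 h2⟩

theorem GoodToC.good {D : Chain} {n : ℕ} {w : List (ℕ × ℤ)} : ∀ {s s' : ℕ → ℤ},
    GoodToC D n w s s' →
    (∀ q, q < n → (D.p (q / 2) : ℤ) ∣ s' (2 * q) - s' (2 * q + 1)) → GoodC D n w s := by
  induction w with
  | nil => intro s s' h1 h2; cases h1; exact h2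
  | cons c u ih =>
    intro s s' h1 h2
    obtain ⟨h3, h4⟩ := h1
    refine ⟨h3, ?_⟩
    rcases h4 with ⟨h4, h5⟩ | ⟨h4, h5, h6⟩
    · exact Or.inl ⟨h4, ih h5 h2⟩
    · exact Or.inr ⟨h4, h5, ih h6 h2⟩

theorem MeetsC.congr {D : Chain} {s s' : ℕ → ℤ} {i : ℕ} {k : ℤ} (h : MeetsC D s i k)
    (h1 : s' i = s i) (h2 : s' (i + 1) = s (i + 1)) : MeetsC D s' i k := by
  unfold MeetsC at *
  rw [h1, h2]
  exact h

theorem even_rowC (D : Chain) (n : ℕ) (f : ℕ → ℤ) (s : ℕ → ℤ)
    (h : ∀ j, 2 * j + 2 < n → MeetsC D s (4 * j + 3) (f (2 * j + 1))) :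
    GoodToC D n (evenRow n f) s (evenEnd (n - 1) f s) := by
  have key : ∀ m, m ≤ n - 1 →
      GoodToC D n ((List.range m).map (fun i => (2 * i + 1, f i))) s (evenEnd m f s) := by
    intro m
    induction m with
    | zero =>
      intro _
      change s = evenEnd 0 f s
      funext q
      simp [evenEnd]
    | succ m ih =>
      intro hm
      rw [List.range_succ, List.map_append]
      refine (ih (by omega)).append ?_
      refine ⟨by change 2 * m + 1 + 1 < 2 * n; omega, ?_⟩
      rcases Nat.even_or_odd' m with ⟨j, hj | hj⟩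
      · left
        refine ⟨by change (2 * m + 1) % 4 ≠ 3; omega, ?_⟩
        change shift (evenEnd m f s) (2 * m + 1) (f m) = evenEnd (m + 1) f s
        funext q
        have e1 : evenEnd m f s (2 * m + 1) = s (2 * m + 1) := by
          unfold evenEnd
          rw [if_neg (by omega)]
        have e2 : evenEnd m f s (2 * m + 1 + 1) = s (2 * m + 1 + 1) := by
          unfold evenEnd
          rw [if_neg (by omega)]
        unfold shift
        rw [e1, e2]
        by_cases h1 : q = 2 * m + 1 ∨ q = 2 * m + 1 + 1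
        · rw [if_pos h1]
          unfold evenEnd
          have h2 : ¬ ((q % 4 = 1 ∨ q % 4 = 2) ∧ 2 * (q / 4) < m) := by omega
          have h3 : (q % 4 = 1 ∨ q % 4 = 2) ∧ 2 * (q / 4) < m + 1 := by omega
          rw [if_neg h2, if_pos h3]
          have h4 : 2 * (q / 4) = m := by omega
          have h5 : 4 * (q / 4) + 1 = 2 * m + 1 := by omega
          have h6 : 4 * (q / 4) + 2 = 2 * m + 1 + 1 := by omega
          rw [h4, h5, h6]
        · rw [if_neg h1]
          unfold evenEnd
          by_cases h2 : (q % 4 = 1 ∨ q % 4 = 2) ∧ 2 * (q / 4) < m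
          · have h3 : (q % 4 = 1 ∨ q % 4 = 2) ∧ 2 * (q / 4) < m + 1 := by omega
            rw [if_pos h2, if_pos h3]
          · have h3 : ¬ ((q % 4 = 1 ∨ q % 4 = 2) ∧ 2 * (q / 4) < m + 1) := by omega
            rw [if_neg h2, if_neg h3]
      · right
        refine ⟨by change (2 * m + 1) % 4 = 3; omega, ?_, ?_⟩
        · have h1 := h j (by omega)
          have h2 : 2 * m + 1 = 4 * j + 3 := by omega
          change MeetsC D (evenEnd m f s) (2 * m + 1) (f m)
          rw [h2]
          rw [← hj] at h1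
          refine h1.congr ?_ ?_
          · unfold evenEnd
            rw [if_neg (by omega)]
          · unfold evenEnd
            rw [if_neg (by omega)]
        · change evenEnd m f s = evenEnd (m + 1) f s
          funext q
          unfold evenEnd
          by_cases h2 : (q % 4 = 1 ∨ q % 4 = 2) ∧ 2 * (q / 4) < m
          · have h3 : (q % 4 = 1 ∨ q % 4 = 2) ∧ 2 * (q / 4) < m + 1 := by omega
            rw [if_pos h2, if_pos h3]
          · have h3 : ¬ ((q % 4 = 1 ∨ q % 4 = 2) ∧ 2 * (q / 4) < m + 1) := by omega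
            rw [if_neg h2, if_neg h3]
  exact key (n - 1) le_rfl

theorem odd_rowC (D : Chain) (n : ℕ) (f : ℕ → ℤ) (s : ℕ → ℤ) :
    GoodToC D n (oddRow n f) s (oddEnd n f s) := by
  have key : ∀ m, m ≤ n →
      GoodToC D n ((List.range m).map (fun i => (2 * i, f i))) s (oddEnd m f s) := by
    intro m
    induction m with
    | zero =>
      intro _
      change s = oddEnd 0 f s
      funext q
      simp [oddEnd]
    | succ m ih =>
      intro hm
      rw [List.range_succ, List.map_append]
      refine (ih (by omega)).append ?_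
      refine ⟨by change 2 * m + 1 < 2 * n; omega, ?_⟩
      left
      refine ⟨by change (2 * m) % 4 ≠ 3; omega, ?_⟩
      change shift (oddEnd m f s) (2 * m) (f m) = oddEnd (m + 1) f s
      funext q
      have e1 : oddEnd m f s (2 * m) = s (2 * m) := by
        unfold oddEnd
        rw [if_neg (by omega)]
      have e2 : oddEnd m f s (2 * m + 1) = s (2 * m + 1) := by
        unfold oddEnd
        rw [if_neg (by omega)]
      unfold shift
      rw [e1, e2]
      by_cases h1 : q = 2 * m ∨ q = 2 * m + 1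
      · rw [if_pos h1]
        unfold oddEnd
        have h2 : ¬ (q / 2 < m) := by omega
        have h3 : q / 2 < m + 1 := by omega
        rw [if_neg h2, if_pos h3]
        have h4 : q / 2 = m := by omega
        rw [h4]
      · rw [if_neg h1]
        unfold oddEnd
        by_cases h2 : q / 2 < m
        · have h3 : q / 2 < m + 1 := by omega
          rw [if_pos h2, if_pos h3]
        · have h3 : ¬ (q / 2 < m + 1) := by omega
          rw [if_neg h2, if_neg h3]
  exact key n le_rfl


/-- The sequences of one block. -/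
theorem seq_main (T : ℕ) (hT : 1 ≤ T) (ε : ℤ) (hε : ε = 1 ∨ ε = -1) (A b b' Q R U W : ℕ → ℤ)
    (Q0 : Q 0 = 0) (R0 : R 0 = 1) (U0 : U 0 = 0) (W0 : W 0 = 1)
    (hQ : ∀ t, Q (t + 1) = Q t + A t * R t)
    (hU : ∀ t, U (t + 1) = U t + b t * Q (t + 1))
    (hW : ∀ t, W (t + 1) = W t - b' t * Q (t + 1))
    (hR : ∀ t, R (t + 1) = R t - (b t + b' t) * Q (t + 1))
    (hA : ∀ t, t ≤ T → 0 < ε * A t) (hb : ∀ t, t < T → ε * b t < 0)
    (hb' : ∀ t, t < T → ε * b' t < 0) :
    2 ≤ (Q T + A T * R T).natAbs ∧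
    (∀ s t, s ≤ T → t ≤ T → s ≠ t → ¬ (Q T + A T * R T) ∣ U s - U t) ∧
    (∀ s t, s ≤ T → t ≤ T → s ≠ t → ¬ (Q T + A T * R T) ∣ W s - W t) := by
  have hεε : ε * ε = 1 := by rcases hε with h | h <;> rw [h] <;> norm_num
  have inv : ∀ t, t ≤ T → 0 ≤ ε * Q t ∧ (1 ≤ t → 0 < ε * Q t) ∧ 1 ≤ R t ∧ U t ≤ 0 ∧ 1 ≤ W t ∧
      R t = W t - U t := by
    intro t
    induction t with
    | zero =>
      intro _
      rw [Q0, R0, U0, W0]
      refine ⟨by simp, by omega, by norm_num, by norm_num, by norm_num, by norm_num⟩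
    | succ t ih =>
      intro ht
      obtain ⟨i1, -, i3, i4, i5, i6⟩ := ih (by omega)
      have a1 := hA t (by omega)
      have b1 := hb t (by omega)
      have b2 := hb' t (by omega)
      have q1 : 0 < ε * Q (t + 1) := by
        rw [hQ]
        have : ε * (Q t + A t * R t) = ε * Q t + (ε * A t) * R t := by ring
        rw [this]
        have := mul_pos a1 (by linarith : 0 < R t)
        linarith
      have m1 : b t * Q (t + 1) < 0 := by
        have e1 : b t * Q (t + 1) = (ε * b t) * (ε * Q (t + 1)) := by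
          linear_combination (-(b t * Q (t + 1))) * hεε
        rw [e1]
        exact mul_neg_of_neg_of_pos b1 q1
      have m2 : b' t * Q (t + 1) < 0 := by
        have e1 : b' t * Q (t + 1) = (ε * b' t) * (ε * Q (t + 1)) := by
          linear_combination (-(b' t * Q (t + 1))) * hεε
        rw [e1]
        exact mul_neg_of_neg_of_pos b2 q1
      have r1 : R (t + 1) = R t - b t * Q (t + 1) - b' t * Q (t + 1) := by rw [hR]; ring
      have u1 := hU t
      have w1 := hW t
      refine ⟨q1.le, fun _ => q1, by linarith, by linarith, by linarith, by linarith⟩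
  have step : ∀ t, t < T → U (t + 1) < U t ∧ W t < W (t + 1) := by
    intro t ht
    obtain ⟨-, q1, -, -, -, -⟩ := inv (t + 1) (by omega)
    have q2 := q1 (by omega)
    have b1 := hb t ht
    have b2 := hb' t ht
    have m1 : b t * Q (t + 1) < 0 := by
      have e1 : b t * Q (t + 1) = (ε * b t) * (ε * Q (t + 1)) := by
        linear_combination (-(b t * Q (t + 1))) * hεε
      rw [e1]
      exact mul_neg_of_neg_of_pos b1 q2
    have m2 : b' t * Q (t + 1) < 0 := by
      have e1 : b' t * Q (t + 1) = (ε * b' t) * (ε * Q (t + 1)) := by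
        linear_combination (-(b' t * Q (t + 1))) * hεε
      rw [e1]
      exact mul_neg_of_neg_of_pos b2 q2
    have u1 := hU t
    have w1 := hW t
    constructor <;> linarith
  have mono : ∀ d s, s + d ≤ T → (U (s + d) ≤ U s ∧ W s ≤ W (s + d)) ∧
      (1 ≤ d → U (s + d) < U s ∧ W s < W (s + d)) := by
    intro d
    induction d with
    | zero => intro s _; exact ⟨⟨le_rfl, le_rfl⟩, by omega⟩
    | succ d ih =>
      intro s hs
      obtain ⟨⟨h1, h2⟩, -⟩ := ih s (by omega)
      obtain ⟨h3, h4⟩ := step (s + d) (by omega)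
      have e : s + (d + 1) = s + d + 1 := by ring
      rw [e]
      exact ⟨⟨by linarith, by linarith⟩, fun _ => ⟨by linarith, by linarith⟩⟩
  obtain ⟨i1, i2, i3, i4, i5, i6⟩ := inv T le_rfl
  have i2' := i2 hT
  set P := Q T + A T * R T with hP
  have p1 : R T + 1 ≤ ε * P := by
    have e1 : ε * P = ε * Q T + (ε * A T) * R T := by rw [hP]; ring
    rw [e1]
    have a1 := hA T le_rfl
    have : R T ≤ (ε * A T) * R T := by nlinarith
    linarith
  have nd : ∀ x : ℤ, 0 < x → x < ε * P → ¬ P ∣ x ∧ ¬ P ∣ -x := by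
    intro x hx1 hx2
    have h1 : ¬ (ε * P) ∣ x := not_dvd_aux hx1 hx2
    have h2 : P ∣ x → (ε * P) ∣ x := by
      rintro ⟨c, hc⟩
      exact ⟨ε * c, by rw [hc]; linear_combination (-(P * c)) * hεε⟩
    refine ⟨fun h => h1 (h2 h), fun h => h1 (h2 ((dvd_neg).1 h))⟩
  refine ⟨?_, ?_, ?_⟩
  · rcases hε with h | h
    · rw [h] at p1; omega
    · rw [h] at p1; omega
  · have key : ∀ s t, s < t → t ≤ T → ¬ P ∣ U s - U t ∧ ¬ P ∣ -(U s - U t) := by
      intro s t hst ht
      obtain ⟨d, rfl⟩ := Nat.exists_eq_add_of_lt hst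
      have h1 := (mono (d + 1) s (by omega)).2 (by omega)
      have h2 := (mono s 0 (by omega)).1
      have h3 := (mono (T - (s + d + 1)) (s + d + 1) (by omega)).1
      have e1 : s + d + 1 + (T - (s + d + 1)) = T := by omega
      have e2 : s + (d + 1) = s + d + 1 := by ring
      rw [e1] at h3
      rw [zero_add] at h2
      rw [e2] at h1
      apply nd
      · linarith [h1.1]
      · linarith [h2.1, h3.1]
    intro s t hs ht hst
    rcases Nat.lt_or_gt_of_ne hst with h | h
    · exact (key s t h ht).1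
    · have h1 := (key t s h hs).2
      have e1 : -(U t - U s) = U s - U t := by ring
      rwa [e1] at h1
  · have key : ∀ s t, s < t → t ≤ T → ¬ P ∣ W t - W s ∧ ¬ P ∣ -(W t - W s) := by
      intro s t hst ht
      obtain ⟨d, rfl⟩ := Nat.exists_eq_add_of_lt hst
      have h1 := (mono (d + 1) s (by omega)).2 (by omega)
      have h2 := (mono s 0 (by omega)).1
      have h3 := (mono (T - (s + d + 1)) (s + d + 1) (by omega)).1
      have e1 : s + d + 1 + (T - (s + d + 1)) = T := by omega
      have e2 : s + (d + 1) = s + d + 1 := by ring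
      rw [e1] at h3
      rw [zero_add] at h2
      rw [e2] at h1
      apply nd
      · linarith [h1.2]
      · linarith [h2.2, h3.2]
    intro s t hs ht hst
    rcases Nat.lt_or_gt_of_ne hst with h | h
    · have h1 := (key s t h ht).2
      have e1 : -(W t - W s) = W s - W t := by ring
      rwa [e1] at h1
    · exact (key t s h hs).1

end Pool.Helper37.MR
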