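import Pool.Agent.Helper37.MR.RunD
import Pool.Agent.Helper37.MR.SeqC

namespace Pool.Helper37.MR.D

open Real

/-- The sequences of one block, exponents zero allowed. -/
theorem seq_weak (T : ℕ) (hT : 1 ≤ T) (ε : ℤ) (hε : ε = 1 ∨ ε = -1) (A b b' Q R U W : ℕ → ℤ)
    (Q0 : Q 0 = 0) (R0 : R 0 = 1) (U0 : U 0 = 0) (W0 : W 0 = 1)
    (hQ : ∀ t, Q (t + 1) = Q t + A t * R t)
    (hU : ∀ t, U (t + 1) = U t + b t * Q (t + 1))
    (hW : ∀ t, W (t + 1) = W t - b' t * Q (t + 1))
    (hR : ∀ t, R (t + 1) = R t - (b t + b' t) * Q (t + 1))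
    (hA : ∀ t, t ≤ T → 0 ≤ ε * A t) (hA0 : 0 < ε * A 0) (hAT : 0 < ε * A T)
    (hb : ∀ t, t < T → ε * b t ≤ 0) (hb' : ∀ t, t < T → ε * b' t ≤ 0) :
    2 ≤ (Q T + A T * R T).natAbs ∧
    (∀ s t, s < t → t ≤ T → (∃ u, s ≤ u ∧ u < t ∧ b u ≠ 0) →
      ¬ (Q T + A T * R T) ∣ U s - U t ∧ ¬ (Q T + A T * R T) ∣ U t - U s) ∧
    (∀ s t, s < t → t ≤ T → (∃ u, s ≤ u ∧ u < t ∧ b' u ≠ 0) →
      ¬ (Q T + A T * R T) ∣ W s - W t ∧ ¬ (Q T + A T * R T) ∣ W t - W s) := by
  have hεε : ε * ε = 1 := by rcases hε with h | h <;> rw [h] <;> norm_num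
  have inv : ∀ t, t ≤ T → 0 ≤ ε * Q t ∧ (1 ≤ t → 0 < ε * Q t) ∧ 1 ≤ R t ∧ U t ≤ 0 ∧ 1 ≤ W t ∧
      R t = W t - U t := by
    intro t
    induction t with
    | zero =>
      intro _
      rw [Q0, R0, U0, W0]
      refine ⟨by simp, by omega, by norm_num, by norm_num, by norm_num, by norm_num⟩
    | succ t ih =>
      intro ht
      obtain ⟨i1, i2, i3, i4, i5, i6⟩ := ih (by omega)
      have a1 := hA t (by omega)
      have b1 := hb t (by omega)
      have b2 := hb' t (by omega)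
      have q1 : 0 < ε * Q (t + 1) := by
        rw [hQ]
        have e0 : ε * (Q t + A t * R t) = ε * Q t + (ε * A t) * R t := by ring
        rw [e0]
        rcases Nat.eq_zero_or_pos t with h0 | h0
        · subst h0
          rw [Q0, R0]
          linarith
        · have h1 := i2 h0
          have := mul_nonneg a1 (by linarith : 0 ≤ R t)
          linarith
      have m1 : b t * Q (t + 1) ≤ 0 := by
        have e1 : b t * Q (t + 1) = (ε * b t) * (ε * Q (t + 1)) := by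
          linear_combination (-(b t * Q (t + 1))) * hεε
        rw [e1]
        exact mul_nonpos_of_nonpos_of_nonneg b1 q1.le
      have m2 : b' t * Q (t + 1) ≤ 0 := by
        have e1 : b' t * Q (t + 1) = (ε * b' t) * (ε * Q (t + 1)) := by
          linear_combination (-(b' t * Q (t + 1))) * hεε
        rw [e1]
        exact mul_nonpos_of_nonpos_of_nonneg b2 q1.le
      have r1 : R (t + 1) = R t - b t * Q (t + 1) - b' t * Q (t + 1) := by rw [hR]; ring
      have u1 := hU t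
      have w1 := hW t
      refine ⟨q1.le, fun _ => q1, by linarith, by linarith, by linarith, by linarith⟩
  have prod : ∀ c : ℤ, ∀ t, t < T → ε * c ≤ 0 → c * Q (t + 1) ≤ 0 ∧
      (c ≠ 0 → c * Q (t + 1) < 0) := by
    intro c t ht hc
    obtain ⟨-, q1, -, -, -, -⟩ := inv (t + 1) (by omega)
    have q2 := q1 (by omega)
    have e1 : c * Q (t + 1) = (ε * c) * (ε * Q (t + 1)) := by
      linear_combination (-(c * Q (t + 1))) * hεε
    rw [e1]
    refine ⟨mul_nonpos_of_nonpos_of_nonneg hc q2.le, fun h0 => ?_⟩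
    have h1 : ε * c ≠ 0 := by
      intro h2
      apply h0
      have : c = ε * (ε * c) := by linear_combination (-c) * hεε
      rw [this, h2, mul_zero]
    exact mul_neg_of_neg_of_pos (lt_of_le_of_ne hc h1) q2
  have step : ∀ t, t < T → (U (t + 1) ≤ U t ∧ W t ≤ W (t + 1)) ∧
      (b t ≠ 0 → U (t + 1) < U t) ∧ (b' t ≠ 0 → W t < W (t + 1)) := by
    intro t ht
    obtain ⟨p1, p2⟩ := prod (b t) t ht (hb t ht)
    obtain ⟨p3, p4⟩ := prod (b' t) t ht (hb' t ht)
    have u1 := hU t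
    have w1 := hW t
    refine ⟨⟨by linarith, by linarith⟩, fun h => ?_, fun h => ?_⟩
    · have := p2 h; linarith
    · have := p4 h; linarith
  have mono : ∀ d s, s + d ≤ T → (U (s + d) ≤ U s ∧ W s ≤ W (s + d)) ∧
      ((∃ u, s ≤ u ∧ u < s + d ∧ b u ≠ 0) → U (s + d) < U s) ∧
      ((∃ u, s ≤ u ∧ u < s + d ∧ b' u ≠ 0) → W s < W (s + d)) := by
    intro d
    induction d with
    | zero =>
      intro s _
      refine ⟨⟨le_rfl, le_rfl⟩, ?_, ?_⟩
      · rintro ⟨u, h1, h2, -⟩; omega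
      · rintro ⟨u, h1, h2, -⟩; omega
    | succ d ih =>
      intro s hs
      obtain ⟨⟨h1, h2⟩, h5, h6⟩ := ih s (by omega)
      obtain ⟨⟨h3, h4⟩, h7, h8⟩ := step (s + d) (by omega)
      have e : s + (d + 1) = s + d + 1 := by ring
      rw [e]
      refine ⟨⟨by linarith, by linarith⟩, ?_, ?_⟩
      · rintro ⟨u, k1, k2, k3⟩
        rcases Nat.lt_or_ge u (s + d) with h | h
        · have := h5 ⟨u, k1, h, k3⟩; linarith
        · have e2 : u = s + d := by omega
          rw [e2] at k3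
          have := h7 k3; linarith
      · rintro ⟨u, k1, k2, k3⟩
        rcases Nat.lt_or_ge u (s + d) with h | h
        · have := h6 ⟨u, k1, h, k3⟩; linarith
        · have e2 : u = s + d := by omega
          rw [e2] at k3
          have := h8 k3; linarith
  obtain ⟨i1, i2, i3, i4, i5, i6⟩ := inv T le_rfl
  have i2' := i2 hT
  set P := Q T + A T * R T with hP
  have p1 : R T + 1 ≤ ε * P := by
    have e1 : ε * P = ε * Q T + (ε * A T) * R T := by rw [hP]; ring
    rw [e1]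
    have : R T ≤ (ε * A T) * R T := by nlinarith
    linarith
  have nd : ∀ x : ℤ, 0 < x → x < ε * P → ¬ P ∣ x ∧ ¬ P ∣ -x := by
    intro x hx1 hx2
    have h1 : ¬ (ε * P) ∣ x := not_dvd_aux hx1 hx2
    have h2 : P ∣ x → (ε * P) ∣ x := by
      rintro ⟨c, hc⟩
      exact ⟨ε * c, by rw [hc]; linear_combination (-(P * c)) * hεε⟩
    refine ⟨fun h => h1 (h2 h), fun h => h1 (h2 ((dvd_neg).1 h))⟩
  refine ⟨?_, ?_, ?_⟩
  · rcases hε with h | h
    · rw [h] at p1; omega
    · rw [h] at p1; omega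
  · intro s t hst ht hu
    obtain ⟨d, rfl⟩ := Nat.exists_eq_add_of_lt hst
    have e2 : s + (d + 1) = s + d + 1 := by ring
    have h1 := (mono (d + 1) s (by omega)).2.1 (by rw [e2]; exact hu)
    have h2 := (mono s 0 (by omega)).1
    have h3 := (mono (T - (s + d + 1)) (s + d + 1) (by omega)).1
    have e1 : s + d + 1 + (T - (s + d + 1)) = T := by omega
    rw [e1] at h3
    rw [zero_add] at h2
    rw [e2] at h1
    have e3 : U (s + d + 1) - U s = -(U s - U (s + d + 1)) := by ring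
    rw [e3]
    apply nd
    · linarith
    · linarith [h2.1, h3.1]
  · intro s t hst ht hu
    obtain ⟨d, rfl⟩ := Nat.exists_eq_add_of_lt hst
    have e2 : s + (d + 1) = s + d + 1 := by ring
    have h1 := (mono (d + 1) s (by omega)).2.2 (by rw [e2]; exact hu)
    have h2 := (mono s 0 (by omega)).1
    have h3 := (mono (T - (s + d + 1)) (s + d + 1) (by omega)).1
    have e1 : s + d + 1 + (T - (s + d + 1)) = T := by omega
    rw [e1] at h3
    rw [zero_add] at h2
    rw [e2] at h1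
    have e3 : W s - W (s + d + 1) = -(W (s + d + 1) - W s) := by ring
    rw [e3]
    have := nd (W (s + d + 1) - W s) (by linarith) (by linarith [h2.2, h3.2])
    exact ⟨this.2, this.1⟩

/-- At most three pairs. -/
theorem solv_three' (p p' : ℕ) (hp : 2 ≤ p) (hp' : 2 ≤ p') (K : Finset ℕ) (Y X : ℕ → ℤ)
    (m : ℕ → ℕ) (hm : ∀ r ∈ K, 2 ≤ m r) (hK : K.card ≤ 3)
    (hd : ∀ r ∈ K, ∀ r' ∈ K, r ≠ r' → ¬ ((p : ℤ) ∣ Y r - Y r' ∧ (p' : ℤ) ∣ X r - X r'))
    (hY : K.card = 3 → ∃ r ∈ K, ∃ r' ∈ K, ¬ (p : ℤ) ∣ Y r - Y r')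
    (hX : K.card = 3 → ∃ r ∈ K, ∃ r' ∈ K, ¬ (p' : ℤ) ∣ X r - X r') :
    Solvable p p' K Y X m := by
  obtain ⟨t, hKt, ht⟩ := Infinite.exists_superset_card_eq K 3 hK
  let F : Fin 3 ≃ t := (t.equivFinOfCardEq ht).symm
  let f : Fin 3 → ℕ := fun i => (F i : ℕ)
  have hf : Function.Injective f := fun i j hij => F.injective (Subtype.ext hij)
  have hsurj : ∀ r ∈ K, ∃ i, f i = r := by
    intro r hr
    refine ⟨F.symm ⟨r, hKt hr⟩, ?_⟩
    simp [f]
  let m' : Fin 3 → ℕ := fun i => if f i ∈ K then m (f i) else 0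
  have hm' : ∀ i, 2 ≤ m' i → f i ∈ K := by
    intro i hi
    by_contra h
    simp only [m', if_neg h] at hi
    omega
  obtain ⟨M, hM⟩ := block p p' hp hp' (fun i => Y (f i)) (fun i => X (f i)) m' (by
      intro i i' hii h1 h2 h3
      exact hd _ (hm' i h1) _ (hm' i' h2) (fun h => hii (hf h)) h3) (by
      intro hall
      have h3 : K.card = 3 := by
        have h4 : t ⊆ K := by
          intro r hr
          have h5 := hm' (F.symm ⟨r, hr⟩) (hall _)
          simpa [f] using h5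
        have h5 := Finset.card_le_card h4
        omega
      refine ⟨fun h => ?_, fun h => ?_⟩
      · obtain ⟨r, hr, r', hr', hrr⟩ := hY h3
        obtain ⟨i, rfl⟩ := hsurj r hr
        obtain ⟨i', rfl⟩ := hsurj r' hr'
        exact hrr (h i i')
      · obtain ⟨r, hr, r', hr', hrr⟩ := hX h3
        obtain ⟨i, rfl⟩ := hsurj r hr
        obtain ⟨i', rfl⟩ := hsurj r' hr'
        exact hrr (h i i'))
  refine ⟨fun a b => (M a b : ℂ), fun a b => (M a b : ℂ), ?_⟩
  intro r hr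
  obtain ⟨i, rfl⟩ := hsurj r hr
  have hmi : m' i = m (f i) := by simp only [m', if_pos hr]
  have h1 := hM i (by rw [hmi]; exact hm _ hr)
  rw [hmi] at h1
  refine ordC_of_eq (hm _ hr) ?_
  rw [← h1]
  unfold ev
  push_cast
  ring

theorem ordC_neg {m : ℕ} {x y : ℂ} (h : OrdC m x y) : OrdC m (-x) (-y) := by
  rcases h with ⟨h1, h2, h3⟩ | ⟨h1, h2⟩
  · left; rw [h2, h3]; simp [h1]
  · right; exact ⟨h1, by rw [← h2]; ring⟩

theorem solv_congr (p p' : ℕ) (hp' : 2 ≤ p') (K : Finset ℕ) (Y X X' : ℕ → ℤ)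
    (m : ℕ → ℕ) (h : ∀ r ∈ K, (p' : ℤ) ∣ X r - X' r) (hs : Solvable p p' K Y X' m) :
    Solvable p p' K Y X m := by
  obtain ⟨M, M', hM⟩ := hs
  refine ⟨M, M', ?_⟩
  intro r hr
  have h1 := hM r hr
  rcases cf_mod p' hp' (X r) (X' r) (h r hr) with h2 | h2
  · have e : ∀ N : ℕ → ℕ → ℂ, ev p p' N (Y r) (X r) = ev p p' N (Y r) (X' r) := by
      intro N
      unfold ev
      rw [h2 0, h2 1]
    rw [e, e]; exact h1
  · have e : ∀ N : ℕ → ℕ → ℂ, ev p p' N (Y r) (X r) = - ev p p' N (Y r) (X' r) := by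
      intro N
      unfold ev
      rw [h2 0, h2 1]
      push_cast
      ring
    rw [e, e]; exact ordC_neg h1

theorem solv_swap (p p' : ℕ) (K : Finset ℕ) (Y X : ℕ → ℤ) (m : ℕ → ℕ)
    (hs : Solvable p' p K X Y m) : Solvable p p' K Y X m := by
  obtain ⟨M, M', hM⟩ := hs
  refine ⟨fun a b => M b a, fun a b => M' b a, ?_⟩
  intro r hr
  have e : ∀ N : ℕ → ℕ → ℂ, ev p p' (fun a b => N b a) (Y r) (X r) = ev p' p N (X r) (Y r) := by
    intro N
    unfold ev
    ring
  rw [e, e]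
  exact hM r hr

/-- The exponential in terms of the coordinates. -/
theorem cf_exp (φ : ℝ) (hφ : sin φ ≠ 0) (s : ℤ) (c : ℂ) :
    (cf φ s 0 : ℂ) + (cf φ s 1 : ℂ) * ((cos φ : ℂ) + c * (sin φ : ℂ)) =
      (cos ((s : ℝ) * φ) : ℂ) + c * (sin ((s : ℝ) * φ) : ℂ) := by
  have hφ' : (sin φ : ℂ) ≠ 0 := by exact_mod_cast hφ
  have a1 : (1 - (s : ℝ)) * φ = φ - s * φ := by ring
  simp only [cf, if_true, one_ne_zero, if_false]
  rw [a1, sin_sub]
  push_cast
  have e1 : ((sin φ : ℝ) : ℂ) = Complex.sin (φ : ℂ) := Complex.ofReal_sin φ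
  have e2 : ((cos φ : ℝ) : ℂ) = Complex.cos (φ : ℂ) := Complex.ofReal_cos φ
  rw [e1] at hφ'
  field_simp
  ring

theorem mul_exp (φ : ℝ) (c : ℂ) (hc : c ^ 2 = -1) :
    ((cos φ : ℂ) + c * (sin φ : ℂ)) * ((cos φ : ℂ) + (-c) * (sin φ : ℂ)) = 1 := by
  have h1 : ((cos φ : ℝ) : ℂ) ^ 2 + ((sin φ : ℝ) : ℂ) ^ 2 = 1 := by
    have := cos_sq_add_sin_sq φ
    exact_mod_cast this
  linear_combination h1 - ((sin φ : ℝ) : ℂ) ^ 2 * hc

/-- One solution for all pairs, if the orders are all equal. -/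
theorem solv_gcd (p p' : ℕ) (hp : 2 ≤ p) (hp' : 2 ≤ p') (m : ℕ) (hm : 2 ≤ m) :
    ∃ M M' : ℕ → ℕ → ℂ, ∀ y x : ℤ, OrdC m (ev p p' M y x) (ev p p' M' y x) := by
  have hs := (sin_pi_div p hp).ne'
  have hs' := (sin_pi_div p' hp').ne'
  let κ : ℂ := ((2 * cos (π / m) : ℝ) : ℂ)
  let w : ℝ → ℂ → ℕ → ℂ := fun φ c a => if a = 0 then 1 else (cos φ : ℂ) + c * (sin φ : ℂ)
  have key : ∀ c : ℂ, ∀ y x : ℤ,
      ev p p' (fun a b => κ * (w (π / p) c a * w (π / p') c b)) y x =
      κ * (((cos ((y : ℝ) * (π / p)) : ℂ) + c * (sin ((y : ℝ) * (π / p)) : ℂ)) *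
        ((cos ((x : ℝ) * (π / p')) : ℂ) + c * (sin ((x : ℝ) * (π / p')) : ℂ))) := by
    intro c y x
    have h1 := cf_exp (π / p) hs y c
    have h2 := cf_exp (π / p') hs' x c
    rw [← h1, ← h2]
    unfold ev
    simp only [w, if_true, one_ne_zero, if_false]
    ring
  refine ⟨fun a b => κ * (w (π / p) Complex.I a * w (π / p') Complex.I b),
    fun a b => κ * (w (π / p) (-Complex.I) a * w (π / p') (-Complex.I) b), ?_⟩
  intro y x
  have hI : Complex.I ^ 2 = -1 := Complex.I_sq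
  rw [key _, key _]
  rcases Nat.lt_or_ge 2 m with h | h
  · right
    refine ⟨h, ?_⟩
    have m1 := mul_exp ((y : ℝ) * (π / p)) Complex.I hI
    have m2 := mul_exp ((x : ℝ) * (π / p')) Complex.I hI
    calc _ = κ ^ 2 * ((((cos ((y : ℝ) * (π / p)) : ℝ) : ℂ) +
            Complex.I * ((sin ((y : ℝ) * (π / p)) : ℝ) : ℂ)) *
          (((cos ((y : ℝ) * (π / p)) : ℝ) : ℂ) +
            (-Complex.I) * ((sin ((y : ℝ) * (π / p)) : ℝ) : ℂ))) *
          ((((cos ((x : ℝ) * (π / p')) : ℝ) : ℂ) +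
            Complex.I * ((sin ((x : ℝ) * (π / p')) : ℝ) : ℂ)) *
          (((cos ((x : ℝ) * (π / p')) : ℝ) : ℂ) +
            (-Complex.I) * ((sin ((x : ℝ) * (π / p')) : ℝ) : ℂ))) := by ring
      _ = _ := by rw [m1, m2]; ring
  · left
    have h2 : m = 2 := by omega
    have h3 : κ = 0 := by simp only [κ]; rw [h2]; simp
    rw [h3]
    simp [h2]

/-- Three pairs with the same second entry. -/
theorem solv_half' (p p' : ℕ) (hp : 2 ≤ p) (hp' : 2 ≤ p') (Y X : ℕ → ℤ)
    (m : ℕ → ℕ) (K : Finset ℕ) (hK : K.card = 3) (hm : ∀ r ∈ K, 3 ≤ m r)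
    (hX : ∀ r ∈ K, ∀ r' ∈ K, (p' : ℤ) ∣ X r - X r')
    (hd : ∀ r ∈ K, ∀ r' ∈ K, r ≠ r' → ¬ ((p : ℤ) ∣ Y r - Y r' ∧ (p' : ℤ) ∣ X r - X r')) :
    Solvable p p' K Y X m := by
  obtain ⟨r₀, r₁, r₃, d01, d03, d13, hU⟩ := Finset.card_eq_three.1 hK
  have m0 : r₀ ∈ K := by rw [hU]; simp
  have m1 : r₁ ∈ K := by rw [hU]; simp
  have m3 : r₃ ∈ K := by rw [hU]; simp
  have hY : ∀ r ∈ K, ∀ r' ∈ K, r ≠ r' → ¬ (p : ℤ) ∣ Y r - Y r' :=
    fun r hr r' hr' hrr h => hd r hr r' hr' hrr ⟨h, hX r hr r' hr'⟩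
  refine solv_congr p p' hp' K Y X (fun _ => X r₀) m (fun r hr => hX r hr r₀ m0) ?_
  refine solv_half p p' hp hp' Y (fun _ => X r₀) m r₀ r₁ r₃ K ?_ (hm _ m0) (hm _ m1) (hm _ m3)
    (hY _ m0 _ m1 d01) (hY _ m0 _ m3 d03) (hY _ m1 _ m3 d13) rfl rfl
  intro r hr
  rw [hU] at hr
  simpa using hr

/-- At most three pairs, final form. -/
theorem solv_le_three (p p' : ℕ) (hp : 2 ≤ p) (hp' : 2 ≤ p') (K : Finset ℕ) (Y X : ℕ → ℤ)
    (m : ℕ → ℕ) (hm : ∀ r ∈ K, 2 ≤ m r) (hK : K.card ≤ 3)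
    (hd : ∀ r ∈ K, ∀ r' ∈ K, r ≠ r' → ¬ ((p : ℤ) ∣ Y r - Y r' ∧ (p' : ℤ) ∣ X r - X r'))
    (h3 : K.card = 3 → (∀ r ∈ K, 3 ≤ m r) ∨ ((∃ r ∈ K, ∃ r' ∈ K, ¬ (p : ℤ) ∣ Y r - Y r') ∧
      (∃ r ∈ K, ∃ r' ∈ K, ¬ (p' : ℤ) ∣ X r - X r'))) :
    Solvable p p' K Y X m := by
  by_cases hc : K.card = 3
  · rcases h3 hc with h4 | ⟨h4, h5⟩
    · by_cases hX : ∀ r ∈ K, ∀ r' ∈ K, (p' : ℤ) ∣ X r - X r'
      · exact solv_half' p p' hp hp' Y X m K hc h4 hX hd
      · by_cases hY : ∀ r ∈ K, ∀ r' ∈ K, (p : ℤ) ∣ Y r - Y r'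
        · apply solv_swap
          exact solv_half' p' p hp' hp X Y m K hc h4 hY
            (fun r hr r' hr' hrr h => hd r hr r' hr' hrr ⟨h.2, h.1⟩)
        · push Not at hX hY
          exact solv_three' p p' hp hp' K Y X m hm hK hd (fun _ => hY) (fun _ => hX)
    · exact solv_three' p p' hp hp' K Y X m hm hK hd (fun _ => h4) (fun _ => h5)
  · exact solv_three' p p' hp hp' K Y X m hm hK hd (fun h => absurd h hc)
      (fun h => absurd h hc)

/-- The word carries the colours `s` to `s'`. -/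
def GoodTo (D : Chain) (bl : ℕ → ℕ) (n : ℕ) : List (ℕ × ℤ) → (ℕ → ℤ) → (ℕ → ℤ) → Prop
  | [], s, s' => s = s'
  | c :: w, s, s' => c.1 + 1 < 2 * n ∧
      ((bl ((c.1 + 1) / 2) = bl (c.1 / 2) ∧ GoodTo D bl n w (shift s c.1 c.2) s') ∨
        (bl ((c.1 + 1) / 2) = bl (c.1 / 2) + 1 ∧ Meets D bl s c.1 c.2 ∧ GoodTo D bl n w s s'))

theorem GoodTo.append {D : Chain} {bl : ℕ → ℕ} {n : ℕ} {u v : List (ℕ × ℤ)} :
    ∀ {s s' s'' : ℕ → ℤ},
    GoodTo D bl n u s s' → GoodTo D bl n v s' s'' → GoodTo D bl n (u ++ v) s s'' := by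
  induction u with
  | nil => intro s s' s'' h1 h2; cases h1; exact h2
  | cons c u ih =>
    intro s s' s'' h1 h2
    obtain ⟨h3, h4⟩ := h1
    refine ⟨h3, ?_⟩
    rcases h4 with ⟨h4, h5⟩ | ⟨h4, h5, h6⟩
    · exact Or.inl ⟨h4, ih h5 h2⟩
    · exact Or.inr ⟨h4, h5, ih h6 h2⟩

theorem GoodTo.good {D : Chain} {bl : ℕ → ℕ} {n : ℕ} {w : List (ℕ × ℤ)} :
    ∀ {s s' : ℕ → ℤ}, GoodTo D bl n w s s' →
    (∀ q, q < n → (D.p (bl q) : ℤ) ∣ s' (2 * q) - s' (2 * q + 1)) → Good D bl n w s := by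
  induction w with
  | nil => intro s s' h1 h2; cases h1; exact h2
  | cons c u ih =>
    intro s s' h1 h2
    obtain ⟨h3, h4⟩ := h1
    refine ⟨h3, ?_⟩
    rcases h4 with ⟨h4, h5⟩ | ⟨h4, h5, h6⟩
    · exact Or.inl ⟨h4, ih h5 h2⟩
    · exact Or.inr ⟨h4, h5, ih h6 h2⟩

/-- Number of the block of a maximum. -/
def bk (d : ℕ → Bool) : ℕ → ℕ
  | 0 => 0
  | i + 1 => if d i then bk d i else bk d i + 1

/-- Place of a maximum in its block. -/
def pl (d : ℕ → Bool) : ℕ → ℕ
  | 0 => 0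
  | i + 1 => if d i then 1 else 0

theorem pl_le (d : ℕ → Bool) (i : ℕ) : pl d i = 0 ∨ pl d i = 1 := by
  cases i with
  | zero => left; rfl
  | succ i =>
    by_cases h : d i = true
    · right; simp [pl, h]
    · left; simp [pl, h]

theorem bk_same (d : ℕ → Bool) (i : ℕ) (h : d i = true) : bk d (i + 1) = bk d i := by
  simp [bk, h]

theorem bk_next (d : ℕ → Bool) (i : ℕ) (h : ¬ d i = true) : bk d (i + 1) = bk d i + 1 := by
  simp [bk, h]

theorem pl_of (d : ℕ → Bool) (hd : ∀ i, d i = true → ¬ d (i + 1) = true) (i : ℕ)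
    (h : d i = true) : pl d i = 0 := by
  cases i with
  | zero => rfl
  | succ i =>
    have : ¬ d i = true := fun h' => hd i h' h
    simp [pl, this]

theorem idx_lt (d : ℕ → Bool) (hd : ∀ i, d i = true → ¬ d (i + 1) = true) (i : ℕ) :
    2 * bk d i + pl d i < 2 * bk d (i + 1) + pl d (i + 1) := by
  by_cases h : d i = true
  · have h1 := pl_of d hd i h
    have h2 : pl d (i + 1) = 1 := by simp [pl, h]
    rw [bk_same d i h, h1, h2]; omega
  · have h2 : pl d (i + 1) = 0 := by simp [pl, h]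
    have h3 := pl_le d i
    rw [bk_next d i h, h2]; omega

theorem idx_inj (d : ℕ → Bool) (hd : ∀ i, d i = true → ¬ d (i + 1) = true) (i j : ℕ)
    (h : 2 * bk d i + pl d i = 2 * bk d j + pl d j) : i = j := by
  have hs : StrictMono (fun i => 2 * bk d i + pl d i) :=
    strictMono_nat_of_lt_succ (idx_lt d hd)
  exact hs.injective h

/-- Colours after (the first `m` syllables of) an even row. -/
def evenEnd (d : ℕ → Bool) (m : ℕ) (f : ℕ → ℤ) (s : ℕ → ℤ) : ℕ → ℤ := fun q =>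
  if 1 ≤ q ∧ (q - 1) / 2 < m ∧ d ((q - 1) / 2) = true then
    s q + f ((q - 1) / 2) * (s (2 * ((q - 1) / 2) + 1) - s (2 * ((q - 1) / 2) + 2)) else s q

theorem Meets.congr {D : Chain} {bl : ℕ → ℕ} {s s' : ℕ → ℤ} {i : ℕ} {k : ℤ}
    (h : Meets D bl s i k) (h1 : s' i = s i) (h2 : s' (i + 1) = s (i + 1)) :
    Meets D bl s' i k := by
  unfold Meets at *
  rw [h1, h2]
  exact h

theorem even_row (D : Chain) (d : ℕ → Bool) (n : ℕ) (f : ℕ → ℤ) (s : ℕ → ℤ)
    (h : ∀ i, i + 1 < n → ¬ d i = true → Meets D (bk d) s (2 * i + 1) (f i)) :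
    GoodTo D (bk d) n (evenRow n f) s (evenEnd d (n - 1) f s) := by
  have key : ∀ m, m ≤ n - 1 → GoodTo D (bk d) n
      ((List.range m).map (fun i => (2 * i + 1, f i))) s (evenEnd d m f s) := by
    intro m
    induction m with
    | zero =>
      intro _
      change s = evenEnd d 0 f s
      funext q
      simp [evenEnd]
    | succ m ih =>
      intro hm
      rw [List.range_succ, List.map_append]
      refine (ih (by omega)).append ?_
      refine ⟨by change 2 * m + 1 + 1 < 2 * n; omega, ?_⟩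
      have d1 : (2 * m + 1) / 2 = m := by omega
      have d2 : (2 * m + 1 + 1) / 2 = m + 1 := by omega
      have e1 : evenEnd d m f s (2 * m + 1) = s (2 * m + 1) := by
        unfold evenEnd
        rw [if_neg (by omega)]
      have e2 : evenEnd d m f s (2 * m + 1 + 1) = s (2 * m + 1 + 1) := by
        unfold evenEnd
        rw [if_neg (by omega)]
      by_cases hdm : d m = true
      · left
        refine ⟨?_, ?_⟩
        · change bk d ((2 * m + 1 + 1) / 2) = bk d ((2 * m + 1) / 2)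
          rw [d1, d2]; exact bk_same d m hdm
        · change shift (evenEnd d m f s) (2 * m + 1) (f m) = evenEnd d (m + 1) f s
          funext q
          unfold shift
          rw [e1, e2]
          by_cases h1 : q = 2 * m + 1 ∨ q = 2 * m + 1 + 1
          · rw [if_pos h1]
            unfold evenEnd
            have h2 : ¬ (1 ≤ q ∧ (q - 1) / 2 < m ∧ d ((q - 1) / 2) = true) := by omega
            have h4 : (q - 1) / 2 = m := by omega
            have h3 : 1 ≤ q ∧ (q - 1) / 2 < m + 1 ∧ d ((q - 1) / 2) = true := by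
              rw [h4]; exact ⟨by omega, by omega, hdm⟩
            rw [if_neg h2, if_pos h3, h4]
          · rw [if_neg h1]
            unfold evenEnd
            by_cases h2 : 1 ≤ q ∧ (q - 1) / 2 < m ∧ d ((q - 1) / 2) = true
            · have h3 : 1 ≤ q ∧ (q - 1) / 2 < m + 1 ∧ d ((q - 1) / 2) = true :=
                ⟨h2.1, by omega, h2.2.2⟩
              rw [if_pos h2, if_pos h3]
            · have h3 : ¬ (1 ≤ q ∧ (q - 1) / 2 < m + 1 ∧ d ((q - 1) / 2) = true) := by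
                rintro ⟨k1, k2, k3⟩
                exact h2 ⟨k1, by omega, k3⟩
              rw [if_neg h2, if_neg h3]
      · right
        refine ⟨?_, ?_, ?_⟩
        · change bk d ((2 * m + 1 + 1) / 2) = bk d ((2 * m + 1) / 2) + 1
          rw [d1, d2]; exact bk_next d m hdm
        · exact (h m (by omega) hdm).congr e1 e2
        · change evenEnd d m f s = evenEnd d (m + 1) f s
          funext q
          unfold evenEnd
          by_cases h2 : 1 ≤ q ∧ (q - 1) / 2 < m ∧ d ((q - 1) / 2) = true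
          · have h3 : 1 ≤ q ∧ (q - 1) / 2 < m + 1 ∧ d ((q - 1) / 2) = true :=
              ⟨h2.1, by omega, h2.2.2⟩
            rw [if_pos h2, if_pos h3]
          · have h3 : ¬ (1 ≤ q ∧ (q - 1) / 2 < m + 1 ∧ d ((q - 1) / 2) = true) := by
              rintro ⟨k1, k2, k3⟩
              rcases Nat.lt_or_ge ((q - 1) / 2) m with h4 | h4
              · exact h2 ⟨k1, h4, k3⟩
              · have h5 : (q - 1) / 2 = m := by omega
                rw [h5] at k3
                exact hdm k3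
            rw [if_neg h2, if_neg h3]
  exact key (n - 1) le_rfl

theorem odd_row (D : Chain) (d : ℕ → Bool) (n : ℕ) (f : ℕ → ℤ) (s : ℕ → ℤ) :
    GoodTo D (bk d) n (oddRow n f) s (oddEnd n f s) := by
  have key : ∀ m, m ≤ n →
      GoodTo D (bk d) n ((List.range m).map (fun i => (2 * i, f i))) s (oddEnd m f s) := by
    intro m
    induction m with
    | zero =>
      intro _
      change s = oddEnd 0 f s
      funext q
      simp [oddEnd]
    | succ m ih =>
      intro hm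
      rw [List.range_succ, List.map_append]
      refine (ih (by omega)).append ?_
      refine ⟨by change 2 * m + 1 < 2 * n; omega, ?_⟩
      left
      refine ⟨?_, ?_⟩
      · change bk d ((2 * m + 1) / 2) = bk d (2 * m / 2)
        have d1 : (2 * m + 1) / 2 = m := by omega
        have d2 : 2 * m / 2 = m := by omega
        rw [d1, d2]
      · change shift (oddEnd m f s) (2 * m) (f m) = oddEnd (m + 1) f s
        funext q
        have e1 : oddEnd m f s (2 * m) = s (2 * m) := by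
          unfold oddEnd
          rw [if_neg (by omega)]
        have e2 : oddEnd m f s (2 * m + 1) = s (2 * m + 1) := by
          unfold oddEnd
          rw [if_neg (by omega)]
        unfold shift
        rw [e1, e2]
        by_cases h1 : q = 2 * m ∨ q = 2 * m + 1
        · rw [if_pos h1]
          unfold oddEnd
          have h2 : ¬ (q / 2 < m) := by omega
          have h3 : q / 2 < m + 1 := by omega
          rw [if_neg h2, if_pos h3]
          have h4 : q / 2 = m := by omega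
          rw [h4]
        · rw [if_neg h1]
          unfold oddEnd
          by_cases h2 : q / 2 < m
          · have h3 : q / 2 < m + 1 := by omega
            rw [if_pos h2, if_pos h3]
          · have h3 : ¬ (q / 2 < m + 1) := by omega
            rw [if_neg h2, if_neg h3]
  exact key n le_rfl

section ev

variable (d : ℕ → Bool) (m : ℕ) (f s : ℕ → ℤ) (i : ℕ)

theorem ev_0 (h : i = 0 ∨ ¬ d (i - 1) = true) : evenEnd d m f s (2 * i) = s (2 * i) := by
  unfold evenEnd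
  rw [if_neg]
  rintro ⟨h1, h2, h3⟩
  have e : (2 * i - 1) / 2 = i - 1 := by omega
  rw [e] at h3
  rcases h with h | h
  · omega
  · exact h h3

theorem ev_1 (h : i < m) (hd : d i = true) : evenEnd d m f s (2 * i + 1) =
    s (2 * i + 1) + f i * (s (2 * i + 1) - s (2 * i + 2)) := by
  have e : (2 * i + 1 - 1) / 2 = i := by omega
  unfold evenEnd
  rw [e, if_pos ⟨by omega, h, hd⟩]

theorem ev_1' (h : ¬ (i < m ∧ d i = true)) : evenEnd d m f s (2 * i + 1) = s (2 * i + 1) := by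
  have e : (2 * i + 1 - 1) / 2 = i := by omega
  unfold evenEnd
  rw [e, if_neg]
  rintro ⟨-, h2⟩
  exact h h2

theorem ev_2 (h : i < m) (hd : d i = true) : evenEnd d m f s (2 * i + 2) =
    s (2 * i + 2) + f i * (s (2 * i + 1) - s (2 * i + 2)) := by
  have e : (2 * i + 2 - 1) / 2 = i := by omega
  unfold evenEnd
  rw [e, if_pos ⟨by omega, h, hd⟩]

theorem ev_3 (hd : ¬ d (i + 1) = true) : evenEnd d m f s (2 * i + 3) = s (2 * i + 3) := by
  have e : (2 * i + 3 - 1) / 2 = i + 1 := by omega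
  unfold evenEnd
  rw [e, if_neg]
  rintro ⟨-, -, h⟩
  exact hd h

theorem od_0 (h : i < m) : oddEnd m f s (2 * i) =
    s (2 * i) + f i * (s (2 * i) - s (2 * i + 1)) := by
  have e : 2 * i / 2 = i := by omega
  unfold oddEnd
  rw [e, if_pos h]

theorem od_1 (h : i < m) : oddEnd m f s (2 * i + 1) =
    s (2 * i + 1) + f i * (s (2 * i) - s (2 * i + 1)) := by
  have e : (2 * i + 1) / 2 = i := by omega
  unfold oddEnd
  rw [e, if_pos h]

theorem od_2 (h : i + 1 < m) : oddEnd m f s (2 * i + 2) =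
    s (2 * i + 2) + f (i + 1) * (s (2 * i + 2) - s (2 * i + 3)) := by
  have e : (2 * i + 2) / 2 = i + 1 := by omega
  unfold oddEnd
  rw [e, if_pos h]
  rfl

theorem od_3 (h : i + 1 < m) : oddEnd m f s (2 * i + 3) =
    s (2 * i + 3) + f (i + 1) * (s (2 * i + 2) - s (2 * i + 3)) := by
  have e : (2 * i + 3) / 2 = i + 1 := by omega
  unfold oddEnd
  rw [e, if_pos h]
  rfl

end ev

end Pool.Helper37.MR.D
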