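import Pool.Agent.Helper37.MR.RunC

namespace Pool.Helper37.MR

open Real

/-- Value of a functional at a colour. -/
noncomputable def lin (p : ℕ) (f : ℕ → ℝ) (y : ℤ) : ℝ :=
  f 0 * cf (π / p) y 0 + f 1 * cf (π / p) y 1

theorem lin_ne (p : ℕ) (hp : 2 ≤ p) (f : ℕ → ℝ) (y y' y'' : ℤ) (h1 : lin p f y = 1)
    (h2 : lin p f y' = 0) (h3 : ¬ (p : ℤ) ∣ y'' - y') : lin p f y'' ≠ 0 := by
  intro h4
  have hs : sin (π / p) ≠ 0 := (sin_pi_div p hp).ne'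
  have hd := cf_det (π / p) hs y' y''
  have h5 := sin_ne p hp (y'' - y') h3
  push_cast at h5
  have hne : cf (π / p) y' 0 * cf (π / p) y'' 1 - cf (π / p) y' 1 * cf (π / p) y'' 0 ≠ 0 := by
    rw [hd]
    exact div_ne_zero h5 hs
  unfold lin at h1 h2 h4
  have e0 : f 0 * (cf (π / p) y' 0 * cf (π / p) y'' 1 - cf (π / p) y' 1 * cf (π / p) y'' 0) =
      0 := by
    linear_combination cf (π / p) y'' 1 * h2 - cf (π / p) y' 1 * h4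
  have e1 : f 1 * (cf (π / p) y' 0 * cf (π / p) y'' 1 - cf (π / p) y' 1 * cf (π / p) y'' 0) =
      0 := by
    linear_combination cf (π / p) y' 0 * h4 - cf (π / p) y'' 0 * h2
  have f0 : f 0 = 0 := (mul_eq_zero.1 e0).resolve_right hne
  have f1 : f 1 = 0 := (mul_eq_zero.1 e1).resolve_right hne
  rw [f0, f1] at h1
  simp at h1

theorem ndvd_symm {p : ℕ} {u v : ℤ} (h : ¬ (p : ℤ) ∣ u - v) : ¬ (p : ℤ) ∣ v - u := by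
  intro h'
  apply h
  rw [← neg_sub]
  exact (dvd_neg).2 h'

/-- A functional with value one at `y` and zero at `y'`. -/
theorem fn' (p : ℕ) (hp : 2 ≤ p) (y y' : ℤ) (h : ¬ (p : ℤ) ∣ y - y') :
    ∃ f : ℕ → ℝ, lin p f y = 1 ∧ lin p f y' = 0 ∧
      ∀ y'' : ℤ, ¬ (p : ℤ) ∣ y'' - y' → lin p f y'' ≠ 0 := by
  obtain ⟨f, h1, h2⟩ := fn p hp True y y' (fun _ => h)
  exact ⟨f, h1, h2 trivial, fun y'' h3 => lin_ne p hp f y y' y'' h1 (h2 trivial) h3⟩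

/-- Rank one matrices. -/
noncomputable def r1 (f k : ℕ → ℝ) : ℕ → ℕ → ℂ := fun a b => (f a : ℂ) * (k b : ℂ)

theorem ev_r1 (p p' : ℕ) (f k : ℕ → ℝ) (y x : ℤ) :
    ev p p' (r1 f k) y x = (lin p f y : ℂ) * (lin p' k x : ℂ) := by
  unfold ev r1 lin
  push_cast
  ring

theorem ev_add (p p' : ℕ) (M N : ℕ → ℕ → ℂ) (c d : ℂ) (y x : ℤ) :
    ev p p' (fun a b => c * M a b + d * N a b) y x =
      c * ev p p' M y x + d * ev p p' N y x := by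
  unfold ev
  ring

/-- The quadratic equation. -/
theorem quad (μ₀ μ₁ α β c₀ c₁ c : ℂ) (h0 : μ₀ ≠ 0) (h1 : μ₁ ≠ 0) (hc0 : c₀ ≠ 0)
    (hc1 : c₁ ≠ 0) : ∃ v₀ v₁ : ℂ, v₀ ≠ 0 ∧ v₁ ≠ 0 ∧
      (μ₀ * v₀ + μ₁ * v₁ + α) * (μ₀ * (c₀ / v₀) + μ₁ * (c₁ / v₁) + β) = c := by
  obtain ⟨t, ht⟩ : ∃ t : ℂ, t ∉ ({0, -α / μ₁, -(μ₁ * c₁) / β} : Finset ℂ) :=
    Infinite.exists_notMem_finset _
  simp only [Finset.mem_insert, Finset.mem_singleton, not_or] at ht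
  obtain ⟨t0, t1, t2⟩ := ht
  have hA : μ₁ * t + α ≠ 0 := by
    intro h
    apply t1
    field_simp
    linear_combination h
  have hB : μ₁ * (c₁ / t) + β ≠ 0 := by
    intro h
    have h5 : μ₁ * c₁ + β * t = 0 := by
      field_simp at h
      linear_combination h
    by_cases hb : β = 0
    · rw [hb] at h5
      apply mul_ne_zero h1 hc1
      linear_combination h5
    · apply t2
      field_simp
      linear_combination h5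
  generalize hAA : μ₁ * t + α = A at *
  generalize hBB : μ₁ * (c₁ / t) + β = B at *
  obtain ⟨δ, hδ⟩ := IsAlgClosed.exists_pow_nat_eq
    ((A * B + μ₀ ^ 2 * c₀ - c) ^ 2 - 4 * (μ₀ * B) * (A * μ₀ * c₀)) (n := 2) (by norm_num)
  have ha : μ₀ * B ≠ 0 := mul_ne_zero h0 hB
  set z := (-(A * B + μ₀ ^ 2 * c₀ - c) + δ) / (2 * (μ₀ * B)) with hz
  have hzeq : μ₀ * B * z ^ 2 + (A * B + μ₀ ^ 2 * c₀ - c) * z + A * μ₀ * c₀ = 0 := by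
    have h6 : 2 * (μ₀ * B) * z = -(A * B + μ₀ ^ 2 * c₀ - c) + δ := by
      rw [hz]; field_simp
    have h7 : 4 * (μ₀ * B) * (μ₀ * B * z ^ 2 + (A * B + μ₀ ^ 2 * c₀ - c) * z + A * μ₀ * c₀) =
        0 := by
      linear_combination (2 * (μ₀ * B) * z + (A * B + μ₀ ^ 2 * c₀ - c) + δ) * h6 + hδ
    have h8 : (4 : ℂ) * (μ₀ * B) ≠ 0 := mul_ne_zero (by norm_num) ha
    exact (mul_eq_zero.1 h7).resolve_left h8
  have hz0 : z ≠ 0 := by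
    intro h
    rw [h] at hzeq
    apply mul_ne_zero (mul_ne_zero hA h0) hc0
    linear_combination hzeq
  refine ⟨z, t, hz0, t0, ?_⟩
  have e1 : μ₀ * z + μ₁ * t + α = A + μ₀ * z := by rw [← hAA]; ring
  have e2 : μ₀ * (c₀ / z) + μ₁ * (c₁ / t) + β = B + μ₀ * (c₀ / z) := by rw [← hBB]; ring
  rw [e1, e2]
  field_simp
  linear_combination hzeq

/-- Two matrices realising given orders at the pairs `(Y r, X r)`, `r ∈ K`. -/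
def Solvable (p p' : ℕ) (K : Finset ℕ) (Y X : ℕ → ℤ) (m : ℕ → ℕ) : Prop :=
  ∃ M M' : ℕ → ℕ → ℂ, ∀ r ∈ K, OrdC (m r) (ev p p' M (Y r) (X r)) (ev p p' M' (Y r) (X r))

theorem ordC_of_eq {m : ℕ} (hm : 2 ≤ m) {x : ℂ} (hx : x = ((2 * cos (π / m) : ℝ) : ℂ)) :
    OrdC m x x := by
  rcases Nat.lt_or_ge 2 m with h | h
  · right
    exact ⟨h, by rw [hx]; ring⟩
  · left
    have : m = 2 := by omega
    subst this
    rw [hx]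
    simp

/-- At most three pairs. -/
theorem solv_three (p p' : ℕ) (hp : 2 ≤ p) (hp' : 2 ≤ p') (K : Finset ℕ) (Y X : ℕ → ℤ)
    (m : ℕ → ℕ) (hm : ∀ r ∈ K, 2 ≤ m r) (hK : K.card ≤ 3)
    (hd : ∀ r ∈ K, ∀ r' ∈ K, r ≠ r' → ¬ (p : ℤ) ∣ Y r - Y r')
    (hX : K.card = 3 → ∃ r ∈ K, ∃ r' ∈ K, ¬ (p' : ℤ) ∣ X r - X r') :
    Solvable p p' K Y X m := by
  obtain ⟨t, hKt, ht⟩ := Infinite.exists_superset_card_eq K 3 hK
  let F : Fin 3 ≃ t := (t.equivFinOfCardEq ht).symm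
  let f : Fin 3 → ℕ := fun i => (F i : ℕ)
  have hf : Function.Injective f := fun i j hij => F.injective (Subtype.ext hij)
  have hsurj : ∀ r ∈ K, ∃ i, f i = r := by
    intro r hr
    refine ⟨F.symm ⟨r, hKt hr⟩, ?_⟩
    simp [f]
  let m' : Fin 3 → ℕ := fun i => if f i ∈ K then m (f i) else 0
  have hm' : ∀ i, 2 ≤ m' i → f i ∈ K := by
    intro i hi
    by_contra h
    simp only [m', if_neg h] at hi
    omega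
  obtain ⟨M, hM⟩ := block p p' hp hp' (fun i => Y (f i)) (fun i => X (f i)) m' (by
      intro i i' hii h1 h2 h3
      exact hd _ (hm' i h1) _ (hm' i' h2) (fun h => hii (hf h)) h3.1) (by
      intro hall
      have h3 : K.card = 3 := by
        have h4 : t ⊆ K := by
          intro r hr
          have h5 := hm' (F.symm ⟨r, hr⟩) (hall _)
          simpa [f] using h5
        have h5 := Finset.card_le_card h4
        omega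
      refine ⟨fun h => ?_, fun h => ?_⟩
      · exact hd _ (hm' 0 (hall 0)) _ (hm' 1 (hall 1)) (fun h => absurd (hf h) (by decide))
          (h 0 1)
      · obtain ⟨r, hr, r', hr', hrr⟩ := hX h3
        obtain ⟨i, rfl⟩ := hsurj r hr
        obtain ⟨i', rfl⟩ := hsurj r' hr'
        exact hrr (h i i'))
  refine ⟨fun a b => (M a b : ℂ), fun a b => (M a b : ℂ), ?_⟩
  intro r hr
  obtain ⟨i, rfl⟩ := hsurj r hr
  have hmi : m' i = m (f i) := by simp only [m', if_pos hr]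
  have h1 := hM i (by rw [hmi]; exact hm _ hr)
  rw [hmi] at h1
  refine ordC_of_eq (hm _ hr) ?_
  rw [← h1]
  unfold ev
  push_cast
  ring

/-- Four pairs. -/
theorem solv_four (p p' : ℕ) (hp : 2 ≤ p) (hp' : 2 ≤ p') (Y X : ℕ → ℤ)
    (m : ℕ → ℕ) (r₀ r₁ r₂ r₃ : ℕ) (K : Finset ℕ) (hK : ∀ r ∈ K, r = r₀ ∨ r = r₁ ∨ r = r₂ ∨ r = r₃)
    (h0 : 3 ≤ m r₀) (h1 : 3 ≤ m r₁) (h2 : 2 ≤ m r₂) (h3 : 3 ≤ m r₃)
    (hY : ∀ r r', (r = r₀ ∨ r = r₁ ∨ r = r₂ ∨ r = r₃) → (r' = r₀ ∨ r' = r₁ ∨ r' = r₂ ∨ r' = r₃) →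
      r ≠ r' → ¬ (p : ℤ) ∣ Y r - Y r' ∧ ¬ (p' : ℤ) ∣ X r - X r')
    (d01 : r₀ ≠ r₁) (d02 : r₀ ≠ r₂) (d03 : r₀ ≠ r₃) (d12 : r₁ ≠ r₂) (d13 : r₁ ≠ r₃)
    (d23 : r₂ ≠ r₃) : Solvable p p' K Y X m := by
  have i0 : r₀ = r₀ ∨ r₀ = r₁ ∨ r₀ = r₂ ∨ r₀ = r₃ := Or.inl rfl
  have i1 : r₁ = r₀ ∨ r₁ = r₁ ∨ r₁ = r₂ ∨ r₁ = r₃ := Or.inr (Or.inl rfl)
  have i2 : r₂ = r₀ ∨ r₂ = r₁ ∨ r₂ = r₂ ∨ r₂ = r₃ := Or.inr (Or.inr (Or.inl rfl))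
  have i3 : r₃ = r₀ ∨ r₃ = r₁ ∨ r₃ = r₂ ∨ r₃ = r₃ := Or.inr (Or.inr (Or.inr rfl))
  -- the functionals: index 0 kills y₁ and x₂; 1 kills y₂ and x₀; 2 kills y₀ and x₁
  obtain ⟨f0, f00, f01, f0n⟩ := fn' p hp (Y r₀) (Y r₁) (hY _ _ i0 i1 d01).1
  obtain ⟨k0, k00, k02, k0n⟩ := fn' p' hp' (X r₀) (X r₂) (hY _ _ i0 i2 d02).2
  obtain ⟨f1, f11, f12, f1n⟩ := fn' p hp (Y r₁) (Y r₂) (hY _ _ i1 i2 d12).1
  obtain ⟨k1, k11, k10, k1n⟩ := fn' p' hp' (X r₁) (X r₀) (hY _ _ i1 i0 d01.symm).2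
  obtain ⟨f2, f22, f20, f2n⟩ := fn' p hp (Y r₂) (Y r₀) (hY _ _ i2 i0 d02.symm).1
  obtain ⟨k2, k22, k21, k2n⟩ := fn' p' hp' (X r₂) (X r₁) (hY _ _ i2 i1 d12.symm).2
  have n0 := f0n (Y r₃) (hY _ _ i3 i1 d13.symm).1
  have n0' := k0n (X r₃) (hY _ _ i3 i2 d23.symm).2
  have n1 := f1n (Y r₃) (hY _ _ i3 i2 d23.symm).1
  have n1' := k1n (X r₃) (hY _ _ i3 i0 d03.symm).2
  generalize hm0 : (lin p f0 (Y r₃) : ℂ) * (lin p' k0 (X r₃) : ℂ) = μ₀ at *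
  generalize hm1 : (lin p f1 (Y r₃) : ℂ) * (lin p' k1 (X r₃) : ℂ) = μ₁ at *
  have μ0 : μ₀ ≠ 0 := by
    rw [← hm0]
    exact mul_ne_zero (by exact_mod_cast n0) (by exact_mod_cast n0')
  have μ1 : μ₁ ≠ 0 := by
    rw [← hm1]
    exact mul_ne_zero (by exact_mod_cast n1) (by exact_mod_cast n1')
  obtain ⟨v₂, v₂', hv2⟩ : ∃ v v' : ℂ, OrdC (m r₂) v v' :=
    ⟨_, _, ordC_of_eq h2 rfl⟩
  have c0 := pow_ne_zero 2 (cos_ne _ h0)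
  have c1 := pow_ne_zero 2 (cos_ne _ h1)
  generalize hm2 : (lin p f2 (Y r₃) : ℂ) * (lin p' k2 (X r₃) : ℂ) = μ₂ at *
  obtain ⟨v₀, v₁, hv0, hv1, hq⟩ := quad μ₀ μ₁ (μ₂ * v₂) (μ₂ * v₂')
    (((2 * cos (π / (m r₀ : ℕ)) : ℝ) : ℂ) ^ 2) (((2 * cos (π / (m r₁ : ℕ)) : ℝ) : ℂ) ^ 2)
    (((2 * cos (π / (m r₃ : ℕ)) : ℝ) : ℂ) ^ 2) μ0 μ1 c0 c1
  let E : ℂ → ℂ → ℂ → ℕ → ℕ → ℂ := fun z0 z1 z2 a b =>
    1 * (z0 * r1 f0 k0 a b + z1 * r1 f1 k1 a b) + z2 * r1 f2 k2 a b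
  have hE : ∀ z0 z1 z2 y x, ev p p' (E z0 z1 z2) y x =
      z0 * ((lin p f0 y : ℂ) * (lin p' k0 x : ℂ)) + z1 * ((lin p f1 y : ℂ) * (lin p' k1 x : ℂ)) +
        z2 * ((lin p f2 y : ℂ) * (lin p' k2 x : ℂ)) := by
    intro z0 z1 z2 y x
    have e1 := ev_add p p' (fun a b => z0 * r1 f0 k0 a b + z1 * r1 f1 k1 a b) (r1 f2 k2) 1 z2 y x
    have e2 := ev_add p p' (r1 f0 k0) (r1 f1 k1) z0 z1 y x
    have e3 : E z0 z1 z2 = fun a b => 1 * (z0 * r1 f0 k0 a b + z1 * r1 f1 k1 a b) +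
      z2 * r1 f2 k2 a b := rfl
    rw [e3, e1, e2, ev_r1, ev_r1, ev_r1]
    ring
  have g0 : ∀ z0 z1 z2, ev p p' (E z0 z1 z2) (Y r₀) (X r₀) = z0 := by
    intro z0 z1 z2
    rw [hE, f00, k00, k10, f20]; push_cast; ring
  have g1 : ∀ z0 z1 z2, ev p p' (E z0 z1 z2) (Y r₁) (X r₁) = z1 := by
    intro z0 z1 z2
    rw [hE, f01, f11, k11, k21]; push_cast; ring
  have g2 : ∀ z0 z1 z2, ev p p' (E z0 z1 z2) (Y r₂) (X r₂) = z2 := by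
    intro z0 z1 z2
    rw [hE, k02, f12, f22, k22]; push_cast; ring
  have g3 : ∀ z0 z1 z2, ev p p' (E z0 z1 z2) (Y r₃) (X r₃) = μ₀ * z0 + μ₁ * z1 + μ₂ * z2 := by
    intro z0 z1 z2
    rw [hE, hm0, hm1, hm2]; ring
  refine ⟨E v₀ v₁ v₂, E (((2 * cos (π / (m r₀ : ℕ)) : ℝ) : ℂ) ^ 2 / v₀)
    (((2 * cos (π / (m r₁ : ℕ)) : ℝ) : ℂ) ^ 2 / v₁) v₂', ?_⟩
  intro r hr
  rcases hK r hr with rfl | rfl | rfl | rfl
  · rw [g0, g0]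
    right
    exact ⟨h0, by field_simp⟩
  · rw [g1, g1]
    right
    exact ⟨h1, by field_simp⟩
  · rw [g2, g2]
    exact hv2
  · rw [g3, g3]
    right
    exact ⟨h3, hq⟩

/-- Three pairs with the same second entry. -/
theorem solv_half (p p' : ℕ) (hp : 2 ≤ p) (hp' : 2 ≤ p') (Y X : ℕ → ℤ)
    (m : ℕ → ℕ) (r₀ r₁ r₃ : ℕ) (K : Finset ℕ) (hK : ∀ r ∈ K, r = r₀ ∨ r = r₁ ∨ r = r₃)
    (h0 : 3 ≤ m r₀) (h1 : 3 ≤ m r₁) (h3 : 3 ≤ m r₃)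
    (y01 : ¬ (p : ℤ) ∣ Y r₀ - Y r₁) (y03 : ¬ (p : ℤ) ∣ Y r₀ - Y r₃)
    (y13 : ¬ (p : ℤ) ∣ Y r₁ - Y r₃) (x1 : X r₁ = X r₀) (x3 : X r₃ = X r₀) :
    Solvable p p' K Y X m := by
  obtain ⟨f0, f00, f01, f0n⟩ := fn' p hp (Y r₀) (Y r₁) y01
  obtain ⟨f1, f11, f10, f1n⟩ := fn' p hp (Y r₁) (Y r₀) (ndvd_symm y01)
  have hx : ¬ (p' : ℤ) ∣ X r₀ - (X r₀ + 1) := by
    have e : X r₀ - (X r₀ + 1) = -1 := by ring
    rw [e]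
    intro h2
    have h3 := Int.le_of_dvd (by norm_num) ((dvd_neg).2 h2)
    have : (2 : ℤ) ≤ p' := by exact_mod_cast hp'
    linarith
  obtain ⟨k, k0, -, -⟩ := fn' p' hp' (X r₀) (X r₀ + 1) hx
  have n0 := f0n (Y r₃) (ndvd_symm y13)
  have n1 := f1n (Y r₃) (ndvd_symm y03)
  generalize hm0 : (lin p f0 (Y r₃) : ℂ) = μ₀ at *
  generalize hm1 : (lin p f1 (Y r₃) : ℂ) = μ₁ at *
  have μ0 : μ₀ ≠ 0 := by
    rw [← hm0]; exact_mod_cast n0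
  have μ1 : μ₁ ≠ 0 := by
    rw [← hm1]; exact_mod_cast n1
  have c0 := pow_ne_zero 2 (cos_ne _ h0)
  have c1 := pow_ne_zero 2 (cos_ne _ h1)
  obtain ⟨v₀, v₁, hv0, hv1, hq⟩ := quad μ₀ μ₁ 0 0
    (((2 * cos (π / (m r₀ : ℕ)) : ℝ) : ℂ) ^ 2) (((2 * cos (π / (m r₁ : ℕ)) : ℝ) : ℂ) ^ 2)
    (((2 * cos (π / (m r₃ : ℕ)) : ℝ) : ℂ) ^ 2) μ0 μ1 c0 c1
  rw [add_zero, add_zero] at hq
  let E : ℂ → ℂ → ℕ → ℕ → ℂ := fun z0 z1 a b => z0 * r1 f0 k a b + z1 * r1 f1 k a b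
  have hE : ∀ z0 z1 y x, ev p p' (E z0 z1) y x =
      z0 * ((lin p f0 y : ℂ) * (lin p' k x : ℂ)) + z1 * ((lin p f1 y : ℂ) * (lin p' k x : ℂ)) := by
    intro z0 z1 y x
    have e2 := ev_add p p' (r1 f0 k) (r1 f1 k) z0 z1 y x
    have e3 : E z0 z1 = fun a b => z0 * r1 f0 k a b + z1 * r1 f1 k a b := rfl
    rw [e3, e2, ev_r1, ev_r1]
  have g0 : ∀ z0 z1, ev p p' (E z0 z1) (Y r₀) (X r₀) = z0 := by
    intro z0 z1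
    rw [hE, f00, k0, f10]; push_cast; ring
  have g1 : ∀ z0 z1, ev p p' (E z0 z1) (Y r₁) (X r₁) = z1 := by
    intro z0 z1
    rw [hE, x1, f01, f11, k0]; push_cast; ring
  have g3 : ∀ z0 z1, ev p p' (E z0 z1) (Y r₃) (X r₃) = μ₀ * z0 + μ₁ * z1 := by
    intro z0 z1
    rw [hE, x3, hm0, hm1, k0]; push_cast; ring
  refine ⟨E v₀ v₁, E (((2 * cos (π / (m r₀ : ℕ)) : ℝ) : ℂ) ^ 2 / v₀)
    (((2 * cos (π / (m r₁ : ℕ)) : ℝ) : ℂ) ^ 2 / v₁), ?_⟩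
  intro r hr
  rcases hK r hr with rfl | rfl | rfl
  · rw [g0, g0]
    right
    exact ⟨h0, by field_simp⟩
  · rw [g1, g1]
    right
    exact ⟨h1, by field_simp⟩
  · rw [g3, g3]
    right
    exact ⟨h3, hq⟩

end Pool.Helper37.MR
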